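import Pool.Agent.Lib.MP_8a4e59_co.A.StmA

set_option autoImplicit false

/-! Chang's covering lemma from Rudin's inequality. (helper21) -/

namespace Pool.Agent.APP

open Finset

lemma chang_ahat_neg (B : Finset ℤ) (x : ℝ) : ‖ahat B (-x)‖ = ‖ahat B x‖ := by
  have h : ahat B (-x) = (starRingEnd ℂ) (ahat B x) := by
    unfold ahat
    rw [map_div₀, map_sum, Complex.conj_natCast]
    congr 1
    refine Finset.sum_congr rfl fun t _ => ?_
    rw [neg_mul, ee_neg]
  rw [h, Complex.norm_conj]

lemma chang_ahat_zero (B : Finset ℤ) (hB : B.Nonempty) : ahat B 0 = 1 := by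
  unfold ahat
  have : (B.card : ℂ) ≠ 0 := by
    have := hB.card_pos
    exact_mod_cast this.ne'
  simp [ee_zero, this]

theorem p_chang (h : S_rudin) : S_chang := by
  classical
  intro T B τ m hTB hT hτ hτ1 hcard hm
  have hB : B.Nonempty := hT.mono hTB
  set κ := Real.exp (-((m : ℝ) + 1)) with hκ
  have hκ1 : κ ≤ 1 := by
    rw [hκ, Real.exp_le_one_iff]
    have : (0 : ℝ) ≤ m := Nat.cast_nonneg m
    linarith
  let P : ℕ → Prop := fun n => ∃ Γ : Finset ℝ, Γ.card = n ∧ Diss B κ Γ ∧
    (∀ c ∈ Γ, 1 / 2 ≤ ‖ahat T c‖)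
  have hP0 : P 0 := by
    refine ⟨∅, rfl, ?_, by simp⟩
    intro σ _ hex
    obtain ⟨c, hc, _⟩ := hex
    simp at hc
  set n := Nat.findGreatest P (m + 1) with hn
  have hPn : P n := Nat.findGreatest_spec (Nat.zero_le _) hP0
  have hnle : n ≤ m + 1 := Nat.findGreatest_le _
  obtain ⟨Γ, hΓc, hΓd, hΓl⟩ := hPn
  have hΓm : Γ.card ≤ m := by
    have h1 := h T B τ Γ m hTB hT hτ hτ1 hcard hΓd (by omega) hΓl
    have : (Γ.card : ℝ) ≤ m := h1.trans hm
    exact_mod_cast this
  refine ⟨Γ, hΓm, ?_⟩
  intro γ hγ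
  by_cases hmem : γ ∈ Γ
  · refine ⟨fun c => if c = γ then -1 else 0, ?_, ?_⟩
    · intro c _
      by_cases hc : c = γ
      · left; simp [hc]
      · right; left; simp [hc]
    · have hs : ∑ c ∈ Γ, (((if c = γ then (-1 : ℤ) else 0) : ℤ) : ℝ) * c = -γ := by
        rw [Finset.sum_eq_single_of_mem γ hmem]
        · simp
        · intro b _ hb
          simp [hb]
      rw [hs, add_neg_cancel, chang_ahat_zero B hB]
      simpa using hκ1
  · have hnot : ¬ P (n + 1) := by
      refine Nat.findGreatest_is_greatest (n := m + 1) (k := n + 1) ?_ ?_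
      · omega
      · omega
    have hnd : ¬ Diss B κ (insert γ Γ) := by
      intro hd
      apply hnot
      refine ⟨insert γ Γ, ?_, hd, ?_⟩
      · rw [Finset.card_insert_of_notMem hmem, hΓc]
      · intro c hc
        rcases Finset.mem_insert.1 hc with rfl | hc
        · exact hγ
        · exact hΓl c hc
    unfold Diss at hnd
    push Not at hnd
    obtain ⟨σ, hσ, hσne, hσκ⟩ := hnd
    have hγ0 : σ γ ≠ 0 := by
      intro h0
      obtain ⟨c, hc, hc0⟩ := hσne
      have hcΓ : c ∈ Γ := by
        rcases Finset.mem_insert.1 hc with rfl | hc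
        · exact absurd h0 hc0
        · exact hc
      have := hΓd σ (fun c hc => hσ c (Finset.mem_insert_of_mem hc)) ⟨c, hcΓ, hc0⟩
      rw [Finset.sum_insert hmem, h0] at hσκ
      simp only [Int.cast_zero, zero_mul, zero_add] at hσκ
      linarith
    rw [Finset.sum_insert hmem] at hσκ
    rcases hσ γ (Finset.mem_insert_self _ _) with h1 | h1 | h1
    · refine ⟨fun c => - σ c, ?_, ?_⟩
      · intro c hc
        rcases hσ c (Finset.mem_insert_of_mem hc) with h2 | h2 | h2
        · right; right; simp [h2]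
        · right; left; simp [h2]
        · left; simp [h2]
      · rw [h1] at hσκ
        rw [← chang_ahat_neg]
        refine hσκ.trans (le_of_eq ?_)
        congr 2
        push_cast
        simp only [neg_mul, Finset.sum_neg_distrib]
        ring
    · exact absurd h1 hγ0
    · refine ⟨σ, fun c hc => hσ c (Finset.mem_insert_of_mem hc), ?_⟩
      rw [h1] at hσκ
      simpa using hσκ

end Pool.Agent.APP
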