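import Pool.Agent.Lib.MP_8a4e59_co.A.StmA

set_option autoImplicit false

/-! Croot-Sisask almost periodicity from Hoeffding. (helper64) -/

namespace Pool.Agent.APP

open Finset

/-- proportion of the coordinates `j` with `c j - x ∈ S` -/
noncomputable def cs_avg (S : Finset ℤ) {k : ℕ} (c : Fin k → ℤ) (x : ℤ) : ℝ :=
  (∑ j, (if c j - x ∈ S then (1 : ℝ) else 0)) / (k : ℝ)

lemma cs_avg_shift (S : Finset ℤ) {k : ℕ} (c : Fin k → ℤ) (x t : ℤ) :
    cs_avg S c (x + t) = cs_avg S (fun j => c j - t) x := by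
  unfold cs_avg
  congr 1
  apply Finset.sum_congr rfl
  intro j _
  have : c j - (x + t) = c j - t - x := by ring
  rw [this]

lemma cs_Phi_nonneg (A S : Finset ℤ) (x : ℤ) : 0 ≤ Phi A S x := by
  unfold Phi; positivity

lemma cs_Phi_le (A S : Finset ℤ) (x : ℤ) : Phi A S x ≤ 1 := by
  unfold Phi
  apply div_le_one_of_le₀
  · exact_mod_cast Finset.card_filter_le _ _
  · positivity

theorem p_cs (h : S_hoeff) : S_cs := by
  classical
  intro A₁ S B₅ B₆ C k d K L hA hB hC hCK hk hd hd1 hL hexp
  have hkpos : (0:ℝ) < k := by exact_mod_cast hk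
  have hApos : (0:ℝ) < A₁.card := by exact_mod_cast hA.card_pos
  set P : Finset (Fin k → ℤ) := Fintype.piFinset (fun _ : Fin k => A₁) with hP
  have hPc : (P.card : ℝ) = (A₁.card : ℝ) ^ k := by
    rw [hP, Fintype.card_piFinset]; simp
  -- the Hoeffding bound for a fixed x
  have h1 : ∀ x : ℤ, ((P.filter (fun c => d < |cs_avg S c x - Phi A₁ S x|)).card : ℝ) ≤
      2 * Real.exp (-((k : ℝ) * d ^ 2 / 4)) * (A₁.card : ℝ) ^ k := by
    intro x
    have h2 := h A₁ k (fun a => (if a - x ∈ S then (1 : ℝ) else 0) - Phi A₁ S x) d hA ?_ ?_ hd (by linarith)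
    · refine le_trans ?_ h2
      refine Nat.cast_le.2 (Finset.card_le_card ?_)
      intro c hc
      rw [Finset.mem_filter] at hc ⊢
      refine ⟨hc.1, ?_⟩
      have h3 : ∑ j, ((if c j - x ∈ S then (1 : ℝ) else 0) - Phi A₁ S x) =
          (k : ℝ) * (cs_avg S c x - Phi A₁ S x) := by
        rw [Finset.sum_sub_distrib, cs_avg]
        simp only [Finset.sum_const, Finset.card_univ, Fintype.card_fin, nsmul_eq_mul]
        field_simp
      rw [h3, abs_mul, abs_of_pos hkpos]
      exact mul_lt_mul_of_pos_left hc.2 hkpos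
    · intro a _
      have h4 := cs_Phi_nonneg A₁ S x
      have h5 := cs_Phi_le A₁ S x
      split_ifs
      · rw [abs_le]; constructor <;> linarith
      · rw [abs_le]; constructor <;> linarith
    · rw [Finset.sum_sub_distrib]
      simp only [Finset.sum_const, nsmul_eq_mul, Phi]
      rw [← Finset.sum_filter]
      simp only [Finset.sum_const, nsmul_eq_mul, mul_one]
      field_simp
      ring
  -- good tuples
  set G : Finset (Fin k → ℤ) := P.filter (fun c =>
    ((B₅.filter (fun x => d < |cs_avg S c x - Phi A₁ S x|)).card : ℝ) ≤ L) with hG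
  have hsum : ∑ c ∈ P, ((B₅.filter (fun x => d < |cs_avg S c x - Phi A₁ S x|)).card : ℝ) ≤
      L / 2 * (A₁.card : ℝ) ^ k := by
    have h2 : ∑ c ∈ P, ((B₅.filter (fun x => d < |cs_avg S c x - Phi A₁ S x|)).card : ℝ) =
        ∑ x ∈ B₅, ((P.filter (fun c => d < |cs_avg S c x - Phi A₁ S x|)).card : ℝ) := by
      have := Finset.sum_card_bipartiteAbove_eq_sum_card_bipartiteBelow (s := P) (t := B₅)
        (fun c x => d < |cs_avg S c x - Phi A₁ S x|)
      simp only [Finset.bipartiteAbove, Finset.bipartiteBelow] at this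
      exact_mod_cast this
    rw [h2]
    calc ∑ x ∈ B₅, ((P.filter (fun c => d < |cs_avg S c x - Phi A₁ S x|)).card : ℝ)
        ≤ ∑ _x ∈ B₅, 2 * Real.exp (-((k : ℝ) * d ^ 2 / 4)) * (A₁.card : ℝ) ^ k :=
          Finset.sum_le_sum (fun x _ => h1 x)
      _ = (4 * Real.exp (-((k : ℝ) * d ^ 2 / 4)) * (B₅.card : ℝ)) / 2 * (A₁.card : ℝ) ^ k := by
          rw [Finset.sum_const, nsmul_eq_mul]; ring
      _ ≤ L / 2 * (A₁.card : ℝ) ^ k := by
          apply mul_le_mul_of_nonneg_right _ (by positivity)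
          linarith
  have hGc : (A₁.card : ℝ) ^ k / 2 ≤ G.card := by
    have h3 : ((P.filter (fun c =>
        ¬ ((B₅.filter (fun x => d < |cs_avg S c x - Phi A₁ S x|)).card : ℝ) ≤ L)).card : ℝ) * L ≤
        L / 2 * (A₁.card : ℝ) ^ k := by
      refine le_trans ?_ hsum
      rw [← nsmul_eq_mul, ← Finset.sum_const]
      refine le_trans (Finset.sum_le_sum (f := fun _ => L) (g := fun c =>
        ((B₅.filter (fun x => d < |cs_avg S c x - Phi A₁ S x|)).card : ℝ)) ?_) ?_
      · intro c hc
        rw [Finset.mem_filter, not_le] at hc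
        exact hc.2.le
      · apply Finset.sum_le_sum_of_subset_of_nonneg (Finset.filter_subset _ _)
        intro c _ _
        positivity
    have h4 : (G.card : ℝ) + ((P.filter (fun c =>
        ¬ ((B₅.filter (fun x => d < |cs_avg S c x - Phi A₁ S x|)).card : ℝ) ≤ L)).card : ℝ) = P.card := by
      rw [hG]
      exact_mod_cast Finset.card_filter_add_card_filter_not (s := P) (fun c =>
        ((B₅.filter (fun x => d < |cs_avg S c x - Phi A₁ S x|)).card : ℝ) ≤ L)
    have h5 : ((P.filter (fun c =>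
        ¬ ((B₅.filter (fun x => d < |cs_avg S c x - Phi A₁ S x|)).card : ℝ) ≤ L)).card : ℝ) ≤
        (A₁.card : ℝ) ^ k / 2 := by
      have h6 : ((P.filter (fun c =>
        ¬ ((B₅.filter (fun x => d < |cs_avg S c x - Phi A₁ S x|)).card : ℝ) ≤ L)).card : ℝ) * L ≤
        ((A₁.card : ℝ) ^ k / 2) * L := by
        refine h3.trans (le_of_eq (by ring))
      exact le_of_mul_le_mul_right h6 hL
    rw [hPc] at h4
    linarith
  -- double counting over tuples in C
  set PC : Finset (Fin k → ℤ) := Fintype.piFinset (fun _ : Fin k => C) with hPC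
  have hCne : C.Nonempty := by
    obtain ⟨a, ha⟩ := hA
    obtain ⟨t, ht⟩ := hB
    exact ⟨a + t, hC a ha t ht⟩
  have hPCc : (PC.card : ℝ) = (C.card : ℝ) ^ k := by
    rw [hPC, Fintype.card_piFinset]; simp
  have hPCne : PC.Nonempty := by
    rw [hPC, Fintype.piFinset_nonempty]
    exact fun _ => hCne
  have hdc : (G.card : ℝ) * B₆.card ≤
      ∑ c ∈ PC, ((B₆.filter (fun t => (fun j => c j - t) ∈ G)).card : ℝ) := by
    have h2 : ∑ c ∈ PC, ((B₆.filter (fun t => (fun j => c j - t) ∈ G)).card : ℝ) =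
        ∑ t ∈ B₆, ((PC.filter (fun c => (fun j => c j - t) ∈ G)).card : ℝ) := by
      have := Finset.sum_card_bipartiteAbove_eq_sum_card_bipartiteBelow (s := PC) (t := B₆)
        (fun c t => (fun j => c j - t) ∈ G)
      simp only [Finset.bipartiteAbove, Finset.bipartiteBelow] at this
      exact_mod_cast this
    rw [h2, mul_comm, ← nsmul_eq_mul, ← Finset.sum_const]
    apply Finset.sum_le_sum
    intro t ht
    norm_cast
    apply Finset.card_le_card_of_injOn (fun g => (fun j => g j + t))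
    · intro g hg
      simp only [Finset.coe_filter, Set.mem_ofPred_eq, Finset.mem_coe] at hg ⊢
      refine ⟨?_, ?_⟩
      · rw [hPC, Fintype.mem_piFinset]
        intro j
        have hg1 := (Finset.mem_filter.1 hg).1
        rw [hP, Fintype.mem_piFinset] at hg1
        exact hC _ (hg1 j) t ht
      · have : (fun j => g j + t - t) = g := by ext j; ring
        rw [this]; exact hg
    · intro g _ g' _ hgg
      ext j
      have := congrFun hgg j
      simpa using this
  obtain ⟨c, _, hc⟩ : ∃ c ∈ PC, (G.card : ℝ) * B₆.card ≤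
      ((B₆.filter (fun t => (fun j => c j - t) ∈ G)).card : ℝ) * (C.card : ℝ) ^ k := by
    by_contra hcon
    push Not at hcon
    have h3 := Finset.sum_lt_sum_of_nonempty hPCne hcon
    rw [← Finset.sum_mul, Finset.sum_const, nsmul_eq_mul, hPCc] at h3
    have hCk : (0:ℝ) ≤ (C.card : ℝ) ^ k := by positivity
    have h4 := mul_le_mul_of_nonneg_right hdc hCk
    rw [mul_comm ((C.card : ℝ) ^ k)] at h3
    linarith
  refine ⟨cs_avg S c, B₆.filter (fun t => (fun j => c j - t) ∈ G), Finset.filter_subset _ _, ?_, ?_⟩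
  · have hCK' : (C.card : ℝ) ^ k ≤ K ^ k * (A₁.card : ℝ) ^ k := by
      rw [← mul_pow]
      exact pow_le_pow_left₀ (by positivity) hCK k
    have hAk : (0:ℝ) < (A₁.card : ℝ) ^ k := by positivity
    have h5 : (A₁.card : ℝ) ^ k / 2 * B₆.card ≤
        ((B₆.filter (fun t => (fun j => c j - t) ∈ G)).card : ℝ) * (K ^ k * (A₁.card : ℝ) ^ k) := by
      refine (mul_le_mul_of_nonneg_right hGc (by positivity)).trans (hc.trans ?_)
      exact mul_le_mul_of_nonneg_left hCK' (by positivity)
    have h6 : (B₆.card : ℝ) * ((A₁.card : ℝ) ^ k) ≤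
        (2 * K ^ k * ((B₆.filter (fun t => (fun j => c j - t) ∈ G)).card : ℝ)) * ((A₁.card : ℝ) ^ k) := by
      linarith
    exact le_of_mul_le_mul_right h6 hAk
  · intro t ht
    rw [Finset.mem_filter] at ht
    have h7 := (Finset.mem_filter.1 ht.2).2
    refine le_trans (le_of_eq ?_) h7
    congr 2
    ext x
    rw [Finset.mem_filter, Finset.mem_filter, cs_avg_shift]

end Pool.Agent.APP
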