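import Pool.Agent.Lib.MP_8a4e59_co.A.StmA

set_option autoImplicit false

/-! MP_8a4e59_co, part A: doubling of Bohr sets. -/

namespace Pool.Agent.APP

open Finset

/-- the cell of a real number in `[-2, 2]` -/
noncomputable def dbl_cell (y : ℝ) : ℤ := min ⌊y⌋ 1

lemma dbl_cell_mem {y : ℝ} (h : |y| ≤ 2) : dbl_cell y ∈ Icc (-2 : ℤ) 1 := by
  rw [abs_le] at h
  unfold dbl_cell
  rw [mem_Icc]
  refine ⟨le_min ?_ (by norm_num), min_le_right _ _⟩
  exact Int.le_floor.2 (by push_cast; exact h.1)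

lemma dbl_cell_sub {y y' : ℝ} (h : |y| ≤ 2) (h' : |y'| ≤ 2) (hc : dbl_cell y = dbl_cell y') :
    |y - y'| ≤ 1 := by
  rw [abs_le] at h h' ⊢
  unfold dbl_cell at hc
  have f1 := Int.floor_le y
  have f2 := Int.lt_floor_add_one y
  have f3 := Int.floor_le y'
  have f4 := Int.lt_floor_add_one y'
  rcases lt_or_ge ⌊y⌋ 1 with h1 | h1
  · have h2 : ⌊y⌋ = ⌊y'⌋ := by
      rw [min_eq_left h1.le] at hc
      rcases lt_or_ge ⌊y'⌋ 1 with h3 | h3
      · rw [min_eq_left h3.le] at hc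
        exact hc
      · rw [min_eq_right h3] at hc
        omega
    rw [h2] at f1 f2
    constructor <;> linarith
  · have h2 : 1 ≤ ⌊y'⌋ := by
      rw [min_eq_right h1] at hc
      rcases lt_or_ge ⌊y'⌋ 1 with h3 | h3
      · rw [min_eq_left h3.le] at hc
        omega
      · exact h3
    have h3 : (1 : ℝ) ≤ (⌊y⌋ : ℝ) := by exact_mod_cast h1
    have h4 : (1 : ℝ) ≤ (⌊y'⌋ : ℝ) := by exact_mod_cast h2
    constructor <;> linarith [h.2, h'.2]

/-- the index of `n` -/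
noncomputable def dbl_idx (N : ℝ) (Θ : Finset ℝ) (s : ℝ) (n : ℤ) : ℤ × (Θ → ℤ) :=
  (dbl_cell ((n : ℝ) / (s * N)),
    fun θ => dbl_cell (((θ : ℝ) * n - round ((θ : ℝ) * n)) / s))

theorem p_dbl : S_dbl := by
  classical
  intro N Θ ρ hN hρ
  have hs : 0 < ρ / 2 := by linarith
  set s : ℝ := ρ / 2 with hsdef
  have hρs : ρ = 2 * s := by rw [hsdef]; ring
  have hsN : 0 < s * N := mul_pos hs hN
  -- the coordinates are in `[-2, 2]`
  have b1 : ∀ n ∈ bohr N Θ ρ, |(n : ℝ) / (s * N)| ≤ 2 := by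
    intro n hn
    rw [mem_bohr] at hn
    rw [abs_div, abs_of_pos hsN, div_le_iff₀ hsN]
    calc |(n : ℝ)| ≤ ρ * N := hn.1
      _ = 2 * (s * N) := by rw [hρs]; ring
  have b2 : ∀ n ∈ bohr N Θ ρ, ∀ θ : Θ, |((θ : ℝ) * n - round ((θ : ℝ) * n)) / s| ≤ 2 := by
    intro n hn θ
    rw [mem_bohr] at hn
    rw [abs_div, abs_of_pos hs, div_le_iff₀ hs]
    have := hn.2 θ θ.2
    rw [hρs] at this
    exact this
  have hmaps : ∀ n ∈ bohr N Θ ρ, dbl_idx N Θ s n ∈
      Icc (-2 : ℤ) 1 ×ˢ Fintype.piFinset (fun _ : Θ => Icc (-2 : ℤ) 1) := by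
    intro n hn
    rw [mem_product]
    refine ⟨dbl_cell_mem (b1 n hn), ?_⟩
    rw [Fintype.mem_piFinset]
    exact fun θ => dbl_cell_mem (b2 n hn θ)
  have hfib : ∀ b ∈ Icc (-2 : ℤ) 1 ×ˢ Fintype.piFinset (fun _ : Θ => Icc (-2 : ℤ) 1),
      ((bohr N Θ ρ).filter (fun n => dbl_idx N Θ s n = b)).card ≤ (bohr N Θ s).card := by
    intro b _
    rcases ((bohr N Θ ρ).filter (fun n => dbl_idx N Θ s n = b)).eq_empty_or_nonempty with h | h
    · rw [h]
      simp
    · obtain ⟨n₀, hn₀⟩ := h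
      obtain ⟨hm₀, hc₀⟩ := mem_filter.1 hn₀
      refine Finset.card_le_card_of_injOn (fun n => n - n₀) ?_ ?_
      · intro n hn
        rw [mem_coe] at hn ⊢
        obtain ⟨hm, hc⟩ := mem_filter.1 hn
        have hcc : dbl_idx N Θ s n = dbl_idx N Θ s n₀ := hc.trans hc₀.symm
        rw [mem_bohr]
        constructor
        · have h1 := dbl_cell_sub (b1 n hm) (b1 n₀ hm₀) (congrArg Prod.fst hcc)
          rw [← sub_div, abs_div, abs_of_pos hsN, div_le_one hsN] at h1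
          push_cast
          exact h1
        · intro θ hθ
          have h1 := dbl_cell_sub (b2 n hm ⟨θ, hθ⟩) (b2 n₀ hm₀ ⟨θ, hθ⟩)
            (congrFun (congrArg Prod.snd hcc) ⟨θ, hθ⟩)
          rw [← sub_div, abs_div, abs_of_pos hs, div_le_one hs] at h1
          refine (nn_le_abs_sub _ (round (θ * n) - round (θ * n₀))).trans ?_
          have e : θ * ((n - n₀ : ℤ) : ℝ) - ((round (θ * n) - round (θ * n₀) : ℤ) : ℝ) =
              (θ * n - round (θ * n)) - (θ * n₀ - round (θ * n₀)) := by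
            push_cast
            ring
          rw [e]
          exact h1
      · intro n _ n' _ h
        simpa using h
  have hcard := Finset.card_le_mul_card_image_of_maps_to hmaps _ hfib
  rw [card_product, Fintype.card_piFinset, Finset.prod_const, Finset.card_univ,
    Fintype.card_coe] at hcard
  have h4 : (Icc (-2 : ℤ) 1).card = 4 := by simp
  rw [h4] at hcard
  have h5 : (((bohr N Θ ρ).card : ℕ) : ℝ) ≤
      (((bohr N Θ s).card * (4 * 4 ^ Θ.card) : ℕ) : ℝ) := by exact_mod_cast hcard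
  push_cast at h5
  calc ((bohr N Θ ρ).card : ℝ) ≤ ((bohr N Θ s).card : ℝ) * (4 * 4 ^ Θ.card) := h5
    _ = 4 ^ (Θ.card + 1) * ((bohr N Θ s).card : ℝ) := by ring

end Pool.Agent.APP
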