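import Pool.Agent.Lib.MP_8a4e59_co.A.StmA

set_option autoImplicit false

/-! MP_8a4e59_co, part A: Hoeffding by counting (helper59). -/

namespace Pool.Agent.APP

open Finset

private theorem hoeff_one (A : Finset ℤ) (k : ℕ) (u : ℤ → ℝ) (d : ℝ) (hA : A.Nonempty)
    (hu : ∀ a ∈ A, |u a| ≤ 1) (h0 : ∑ a ∈ A, u a = 0) (hd : 0 < d) (hd2 : d ≤ 2) :
    (((Fintype.piFinset (fun _ : Fin k => A)).filter (fun c => (k : ℝ) * d < ∑ j, u (c j))).card : ℝ) ≤
      Real.exp (-((k : ℝ) * d ^ 2 / 4)) * (A.card : ℝ) ^ k := by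
  set lam := d / 2 with hlam
  have hl0 : 0 < lam := by positivity
  have hl1 : lam ≤ 1 := by rw [hlam]; linarith
  have hc : (0 : ℝ) < A.card := by exact_mod_cast hA.card_pos
  have h1 : ∑ a ∈ A, Real.exp (lam * u a) ≤ A.card * Real.exp (lam ^ 2) := by
    have h2 : ∀ a ∈ A, Real.exp (lam * u a) ≤ 1 + lam * u a + lam ^ 2 := by
      intro a ha
      have hua := hu a ha
      have h3 : |lam * u a| ≤ 1 := by
        rw [abs_mul, abs_of_pos hl0]
        nlinarith [abs_nonneg (u a)]
      have h4 := Real.abs_exp_sub_one_sub_id_le h3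
      have h5 := (abs_le.1 h4).2
      have h6 : (lam * u a) ^ 2 ≤ lam ^ 2 := by
        rw [mul_pow]
        have : u a ^ 2 ≤ 1 := by
          rw [← sq_abs]
          nlinarith [abs_nonneg (u a)]
        nlinarith [sq_nonneg lam]
      linarith
    calc ∑ a ∈ A, Real.exp (lam * u a) ≤ ∑ a ∈ A, (1 + lam * u a + lam ^ 2) := sum_le_sum h2
      _ = A.card * (1 + lam ^ 2) := by
          rw [sum_add_distrib, sum_add_distrib, ← mul_sum, h0]
          simp
          ring
      _ ≤ A.card * Real.exp (lam ^ 2) := by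
          refine mul_le_mul_of_nonneg_left ?_ hc.le
          have := Real.add_one_le_exp (lam ^ 2)
          linarith
  have h2 : ∑ c ∈ Fintype.piFinset (fun _ : Fin k => A), Real.exp (lam * ∑ j, u (c j)) =
      (∑ a ∈ A, Real.exp (lam * u a)) ^ k := by
    have h3 := Finset.prod_univ_sum (fun _ : Fin k => A) (fun _ a => Real.exp (lam * u a))
    rw [prod_const, card_univ, Fintype.card_fin] at h3
    rw [h3]
    refine sum_congr rfl (fun c _ => ?_)
    rw [mul_sum, Real.exp_sum]
  have h3 : (((Fintype.piFinset (fun _ : Fin k => A)).filter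
      (fun c => (k : ℝ) * d < ∑ j, u (c j))).card : ℝ) * Real.exp (lam * (k * d)) ≤
      (A.card * Real.exp (lam ^ 2)) ^ k := by
    calc _ = ∑ c ∈ (Fintype.piFinset (fun _ : Fin k => A)).filter
          (fun c => (k : ℝ) * d < ∑ j, u (c j)), Real.exp (lam * (k * d)) := by
          rw [sum_const, nsmul_eq_mul]
      _ ≤ ∑ c ∈ (Fintype.piFinset (fun _ : Fin k => A)).filter
          (fun c => (k : ℝ) * d < ∑ j, u (c j)), Real.exp (lam * ∑ j, u (c j)) := by
          refine sum_le_sum (fun c hc' => ?_)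
          rw [Real.exp_le_exp]
          exact mul_le_mul_of_nonneg_left (mem_filter.1 hc').2.le hl0.le
      _ ≤ ∑ c ∈ Fintype.piFinset (fun _ : Fin k => A), Real.exp (lam * ∑ j, u (c j)) :=
          sum_le_sum_of_subset_of_nonneg (filter_subset _ _) (fun _ _ _ => (Real.exp_pos _).le)
      _ = (∑ a ∈ A, Real.exp (lam * u a)) ^ k := h2
      _ ≤ _ := pow_le_pow_left₀ (sum_nonneg fun _ _ => (Real.exp_pos _).le) h1 k
  have h4 : (A.card * Real.exp (lam ^ 2)) ^ k =
      Real.exp (-((k : ℝ) * d ^ 2 / 4)) * (A.card : ℝ) ^ k * Real.exp (lam * (k * d)) := by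
    rw [mul_pow, ← Real.exp_nat_mul, mul_comm (Real.exp (-((k : ℝ) * d ^ 2 / 4))), mul_assoc,
      ← Real.exp_add]
    congr 2
    rw [hlam]
    ring
  rw [h4] at h3
  exact le_of_mul_le_mul_right h3 (Real.exp_pos _)

theorem p_hoeff : S_hoeff := by
  intro A k u d hA hu h0 hd hd2
  have h1 := hoeff_one A k u d hA hu h0 hd hd2
  have h2 := hoeff_one A k (fun a => -u a) d hA (fun a ha => by rw [abs_neg]; exact hu a ha)
    (by rw [sum_neg_distrib, h0, neg_zero]) hd hd2
  have hsub : (Fintype.piFinset (fun _ : Fin k => A)).filter (fun c => (k : ℝ) * d < |∑ j, u (c j)|) ⊆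
      (Fintype.piFinset (fun _ : Fin k => A)).filter (fun c => (k : ℝ) * d < ∑ j, u (c j)) ∪
      (Fintype.piFinset (fun _ : Fin k => A)).filter (fun c => (k : ℝ) * d < ∑ j, -u (c j)) := by
    intro c hc
    rw [mem_filter] at hc
    rw [mem_union, mem_filter, mem_filter]
    rcases lt_abs.1 hc.2 with h | h
    · exact Or.inl ⟨hc.1, h⟩
    · right
      rw [sum_neg_distrib]
      exact ⟨hc.1, h⟩
  have h3 : (((Fintype.piFinset (fun _ : Fin k => A)).filter
      (fun c => (k : ℝ) * d < |∑ j, u (c j)|)).card : ℝ) ≤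
      (((Fintype.piFinset (fun _ : Fin k => A)).filter
        (fun c => (k : ℝ) * d < ∑ j, u (c j))).card : ℝ) +
      (((Fintype.piFinset (fun _ : Fin k => A)).filter
        (fun c => (k : ℝ) * d < ∑ j, -u (c j))).card : ℝ) := by
    exact_mod_cast (card_le_card hsub).trans (card_union_le _ _)
  linarith

end Pool.Agent.APP
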