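import Pool.Agent.Lib.MP_8a4e59_co.A.StmA

set_option autoImplicit false

/-! Piece A0.4: existence of regular radii. (helper74) -/

namespace Pool.Agent.APP

open Finset

lemma reg_exp35 : Real.exp (3 / 5) ≤ 99 / 50 := by
  have h1 : Real.exp (3 / 5) ^ 5 ≤ (99 / 50) ^ 5 := by
    have h2 : Real.exp (3 / 5) ^ 5 = Real.exp 1 ^ 3 := by
      rw [← Real.exp_nat_mul, ← Real.exp_nat_mul]; norm_num
    rw [h2]
    have h3 : Real.exp 1 ≤ 2.7182818286 := Real.exp_one_lt_d9.le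
    calc Real.exp 1 ^ 3 ≤ 2.7182818286 ^ 3 := pow_le_pow_left₀ (Real.exp_pos 1).le h3 3
      _ ≤ (99 / 50) ^ 5 := by norm_num
  exact le_of_pow_le_pow_left₀ (by norm_num) (by norm_num) h1

lemma reg_exp_half {ε : ℝ} (h0 : 0 < ε) (h1 : ε ≤ 1) : Real.exp (ε / 2) ≤ 1 + ε := by
  have h2 : 1 - ε / 2 ≤ Real.exp (-(ε / 2)) := by
    have := Real.add_one_le_exp (-(ε / 2))
    linarith
  have h3 : Real.exp (ε / 2) * Real.exp (-(ε / 2)) = 1 := by
    rw [← Real.exp_add]; simp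
  have h4 : 0 < Real.exp (ε / 2) := Real.exp_pos _
  have h5 : Real.exp (ε / 2) * (1 - ε / 2) ≤ 1 := by
    have := mul_le_mul_of_nonneg_left h2 h4.le
    linarith
  have h6 : 1 ≤ (1 + ε) * (1 - ε / 2) := by nlinarith
  have h7 : 0 < 1 - ε / 2 := by linarith
  exact le_of_mul_le_mul_right (h5.trans h6) h7

theorem p_reg (h : S_dbl) : S_reg := by
  intro N Θ ρ₀ ε hN hρ₀ hε hε1
  by_contra hcon
  push Not at hcon
  set R : ℝ := (Θ.card : ℝ) + 1 with hR
  have hR1 : 1 ≤ R := by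
    have : (0 : ℝ) ≤ (Θ.card : ℝ) := Nat.cast_nonneg _
    linarith
  set κ : ℝ := kap Θ.card ε with hκ
  have hκ0 : 0 < κ := kap_pos hε
  have hκ1 : κ ≤ 1 / 100 := by
    have := kap_le (R := Θ.card) hε.le
    linarith
  have hκR : κ * (100 * R) = ε := by
    rw [hκ, kap, hR]
    field_simp
  have h1κ : 0 < 1 - κ := by linarith
  set t : ℝ := (1 + κ) / (1 - κ) with ht
  have ht0 : 0 < t := by positivity
  have htexp : t ≤ Real.exp (3 * κ) := by
    have h2 : t ≤ 1 + 3 * κ := by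
      rw [ht, div_le_iff₀ h1κ]
      nlinarith
    have := Real.add_one_le_exp (3 * κ)
    linarith
  set J : ℕ := ⌊20 * R / ε⌋₊ with hJ
  have hJle : (J : ℝ) ≤ 20 * R / ε := Nat.floor_le (by positivity)
  have hJge : 20 * R / ε - 1 ≤ (J : ℝ) := by
    have := Nat.lt_floor_add_one (20 * R / ε)
    rw [← hJ] at this
    linarith
  have hJκ : κ * (J : ℝ) ≤ 1 / 5 := by
    have h2 : κ * (J : ℝ) ≤ κ * (20 * R / ε) := mul_le_mul_of_nonneg_left hJle hκ0.le
    have h3 : κ * (20 * R / ε) = 1 / 5 := by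
      have h4 : κ * (20 * R / ε) = (κ * (100 * R)) / (5 * ε) := by field_simp; ring
      rw [h4, hκR]
      field_simp
    linarith
  have hpow : ∀ j ≤ J, ρ₀ / 2 * t ^ j / (1 - κ) ≤ ρ₀ := by
    intro j hj
    have hjJ : (j : ℝ) ≤ J := by exact_mod_cast hj
    have h2 : t ^ j ≤ Real.exp (3 / 5) := by
      calc t ^ j ≤ Real.exp (3 * κ) ^ j := pow_le_pow_left₀ ht0.le htexp j
        _ = Real.exp (3 * (κ * j)) := by rw [← Real.exp_nat_mul]; ring_nf
        _ ≤ Real.exp (3 / 5) := by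
            apply Real.exp_le_exp.mpr
            have := mul_le_mul_of_nonneg_left hjJ hκ0.le
            linarith
    have h3 := h2.trans reg_exp35
    rw [div_le_iff₀ h1κ]
    have h4 : ρ₀ / 2 * t ^ j ≤ ρ₀ / 2 * (99 / 50) := mul_le_mul_of_nonneg_left h3 (by positivity)
    have h5 : ρ₀ * (99 / 100) ≤ ρ₀ * (1 - κ) := mul_le_mul_of_nonneg_left (by linarith) hρ₀.le
    linarith
  have ht1 : 1 ≤ t := by
    rw [ht, le_div_iff₀ h1κ]
    linarith
  set Bc : ℝ → ℝ := fun ρ => ((bohr N Θ ρ).card : ℝ) with hBc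
  have hstep : ∀ j ≤ J, (1 + ε) * Bc (ρ₀ / 2 * t ^ j) ≤ Bc (ρ₀ / 2 * t ^ (j + 1)) := by
    intro j hj
    have h2 := hcon (ρ₀ / 2 * t ^ j / (1 - κ)) (by
      rw [le_div_iff₀ h1κ]
      have h3 : (1 : ℝ) ≤ t ^ j := one_le_pow₀ ht1
      have h4 : ρ₀ / 2 * 1 ≤ ρ₀ / 2 * t ^ j := mul_le_mul_of_nonneg_left h3 (by positivity)
      have h5 : 0 ≤ ρ₀ / 2 * κ := by positivity
      linarith) (hpow j hj)
    unfold Reg at h2
    rw [← hκ] at h2
    have e1 : ρ₀ / 2 * t ^ j / (1 - κ) * (1 - κ) = ρ₀ / 2 * t ^ j := by field_simp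
    have e2 : ρ₀ / 2 * t ^ j / (1 - κ) * (1 + κ) = ρ₀ / 2 * t ^ (j + 1) := by
      rw [pow_succ, ht]; ring
    rw [e1, e2] at h2
    exact (not_le.mp h2).le
  have hind : ∀ j ≤ J, (1 + ε) ^ j * Bc (ρ₀ / 2) ≤ Bc (ρ₀ / 2 * t ^ j) := by
    intro j
    induction j with
    | zero => intro _; simp
    | succ j ih =>
      intro hj
      have h2 := ih (by omega)
      have h3 := hstep j (by omega)
      calc (1 + ε) ^ (j + 1) * Bc (ρ₀ / 2) = (1 + ε) * ((1 + ε) ^ j * Bc (ρ₀ / 2)) := by ring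
        _ ≤ (1 + ε) * Bc (ρ₀ / 2 * t ^ j) := mul_le_mul_of_nonneg_left h2 (by linarith)
        _ ≤ Bc (ρ₀ / 2 * t ^ (j + 1)) := h3
  have hpos : 0 < Bc (ρ₀ / 2) := bohr_card_pos hN.le (by positivity)
  have hup : Bc (ρ₀ / 2 * t ^ J) ≤ Bc ρ₀ := by
    have h2 : ρ₀ / 2 * t ^ J ≤ ρ₀ := by
      have h3 := hpow J le_rfl
      rw [div_le_iff₀ h1κ] at h3
      have h4 : 0 ≤ ρ₀ * κ := by positivity
      linarith
    have h5 := Finset.card_le_card (bohr_mono (Θ := Θ) hN.le h2)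
    rw [hBc]
    exact Nat.cast_le.mpr h5
  have hdb : Bc ρ₀ ≤ 4 ^ (Θ.card + 1) * Bc (ρ₀ / 2) := h N Θ ρ₀ hN hρ₀
  have hgrow : (4 : ℝ) ^ (Θ.card + 1) < (1 + ε) ^ J := by
    have h2 : Real.exp (ε / 2 * J) ≤ (1 + ε) ^ J := by
      calc Real.exp (ε / 2 * J) = Real.exp (ε / 2) ^ J := by
            rw [← Real.exp_nat_mul]; ring_nf
        _ ≤ (1 + ε) ^ J := pow_le_pow_left₀ (Real.exp_pos _).le (reg_exp_half hε hε1) J
    have h3 : 19 / 2 * R ≤ ε / 2 * J := by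
      have h4 : ε / 2 * (20 * R / ε - 1) ≤ ε / 2 * J :=
        mul_le_mul_of_nonneg_left hJge (by positivity)
      have h5 : ε / 2 * (20 * R / ε - 1) = 10 * R - ε / 2 := by field_simp; ring
      linarith
    have h4 : (4 : ℝ) ^ (Θ.card + 1) < Real.exp (19 / 2 * R) := by
      have h5 : Real.exp (19 / 2 * R) = Real.exp (19 / 2) ^ (Θ.card + 1) := by
        rw [← Real.exp_nat_mul, hR]
        push_cast
        ring_nf
      rw [h5]
      apply pow_lt_pow_left₀ _ (by norm_num) (by omega)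
      have := Real.add_one_le_exp (19 / 2 : ℝ)
      linarith
    calc (4 : ℝ) ^ (Θ.card + 1) < Real.exp (19 / 2 * R) := h4
      _ ≤ Real.exp (ε / 2 * J) := Real.exp_le_exp.mpr h3
      _ ≤ (1 + ε) ^ J := h2
  have h2 := hind J le_rfl
  have h3 := mul_lt_mul_of_pos_right hgrow hpos
  linarith

end Pool.Agent.APP
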