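import Pool.Agent.Lib.MP_8a4e59_co.A.StmA

set_option autoImplicit false

/-! MP_8a4e59_co, part A: Rudin's inequality relative to a set. -/

namespace Pool.Agent.APP

open Finset

lemma rudin_exp_le {u : ℝ} (hu : |u| ≤ 1) :
    Real.exp (u / 2) ≤ Real.cosh (1 / 2) + Real.sinh (1 / 2) * u := by
  have h := abs_le.1 hu
  have h1 := convexOn_exp.2 (Set.mem_univ (1 / 2 : ℝ)) (Set.mem_univ (-(1 / 2) : ℝ))
    (show (0 : ℝ) ≤ (1 + u) / 2 by linarith) (show (0 : ℝ) ≤ (1 - u) / 2 by linarith) (by ring)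
  simp only [smul_eq_mul] at h1
  have h2 : (1 + u) / 2 * (1 / 2) + (1 - u) / 2 * (-(1 / 2)) = u / 2 := by ring
  rw [h2] at h1
  refine h1.trans (le_of_eq ?_)
  rw [Real.cosh_eq, Real.sinh_eq]
  ring

lemma rudin_pos {u : ℝ} (hu : |u| ≤ 1) : 0 ≤ Real.cosh (1 / 2) + Real.sinh (1 / 2) * u :=
  (Real.exp_pos _).le.trans (rudin_exp_le hu)

/-- the coefficients -/
noncomputable def rudin_w (u : ℂ) (j : ℤ) : ℂ :=
  if j = 0 then (Real.cosh (1 / 2) : ℂ) else if j = 1 then (Real.sinh (1 / 2) : ℂ) * u / 2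
    else (Real.sinh (1 / 2) : ℂ) * (starRingEnd ℂ) u / 2

lemma rudin_w0 (u : ℂ) : rudin_w u 0 = (Real.cosh (1 / 2) : ℂ) := by simp [rudin_w]
lemma rudin_w1 (u : ℂ) : rudin_w u 1 = (Real.sinh (1 / 2) : ℂ) * u / 2 := by
  simp [rudin_w]
lemma rudin_wm (u : ℂ) : rudin_w u (-1) = (Real.sinh (1 / 2) : ℂ) * (starRingEnd ℂ) u / 2 := by
  have h1 : ¬ ((-1 : ℤ) = 0) := by decide
  have h2 : ¬ ((-1 : ℤ) = 1) := by decide
  unfold rudin_w
  rw [if_neg h1, if_neg h2]

lemma rudin_sinh : 0 ≤ Real.sinh (1 / 2) := by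
  rw [Real.sinh_nonneg_iff]; norm_num

lemma rudin_factor (u : ℂ) (y : ℝ) :
    ((Real.cosh (1 / 2) + Real.sinh (1 / 2) * (u * ee y).re : ℝ) : ℂ) =
      ∑ j ∈ ({-1, 0, 1} : Finset ℤ), rudin_w u j * ee (j * y) := by
  have h1 : (((u * ee y).re : ℝ) : ℂ) = (u * ee y + (starRingEnd ℂ) (u * ee y)) / 2 := by
    rw [Complex.re_eq_add_conj]
  rw [sum_insert (by decide), sum_insert (by decide), sum_singleton]
  rw [rudin_w0, rudin_w1, rudin_wm]
  have h2 : ee (((-1 : ℤ) : ℝ) * y) = (starRingEnd ℂ) (ee y) := by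
    rw [← ee_neg]; congr 1; push_cast; ring
  have h3 : ee (((0 : ℤ) : ℝ) * y) = 1 := by
    rw [← ee_zero]; congr 1; push_cast; ring
  have h4 : ee (((1 : ℤ) : ℝ) * y) = ee y := by
    congr 1; push_cast; ring
  rw [h2, h3, h4]
  rw [Complex.ofReal_add, Complex.ofReal_mul, h1, map_mul]
  ring

lemma rudin_wsum {u : ℂ} (hu : ‖u‖ = 1) :
    ∑ j ∈ ({-1, 0, 1} : Finset ℤ), ‖rudin_w u j‖ = Real.exp (1 / 2) := by
  rw [sum_insert (by decide), sum_insert (by decide), sum_singleton]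
  rw [rudin_w0, rudin_w1, rudin_wm]
  rw [norm_div, norm_div, norm_mul, norm_mul, Complex.norm_conj, hu, Complex.norm_real,
    Complex.norm_real, Real.norm_of_nonneg rudin_sinh, Real.norm_of_nonneg (Real.cosh_pos _).le]
  simp only [mul_one, Complex.norm_ofNat]
  rw [← Real.cosh_add_sinh]
  ring

/-- the average over `B` of the product -/
lemma rudin_avg (B : Finset ℤ) (hB : B.Nonempty) (Γ : Finset ℝ) (u : ℝ → ℂ)
    (hu : ∀ c ∈ Γ, ‖u c‖ = 1) {κ : ℝ} (hκ : 0 ≤ κ) (hD : Diss B κ Γ) :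
    ∑ x ∈ B, ∏ c ∈ Γ, (Real.cosh (1 / 2) + Real.sinh (1 / 2) * (u c * ee (c * x)).re) ≤
      (B.card : ℝ) * (Real.cosh (1 / 2) ^ Γ.card + κ * Real.exp (1 / 2) ^ Γ.card) := by
  classical
  set J : Finset ℤ := {-1, 0, 1} with hJ
  have hcB : (0 : ℝ) < B.card := by exact_mod_cast hB.card_pos
  have hcB' : (B.card : ℂ) ≠ 0 := by exact_mod_cast hcB.ne'
  set W : (↥Γ → ℤ) → ℂ := fun p => ∏ c : ↥Γ, rudin_w (u c) (p c) with hW
  set γ : (↥Γ → ℤ) → ℝ := fun p => ∑ c : ↥Γ, (p c : ℝ) * (c : ℝ) with hγ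
  -- expansion of one product
  have hexp : ∀ x : ℤ, ((∏ c ∈ Γ, (Real.cosh (1 / 2) +
      Real.sinh (1 / 2) * (u c * ee (c * x)).re) : ℝ) : ℂ) =
      ∑ p ∈ Fintype.piFinset (fun _ : ↥Γ => J), W p * ee (γ p * x) := by
    intro x
    rw [Complex.ofReal_prod, ← prod_coe_sort]
    simp only [rudin_factor]
    rw [prod_univ_sum]
    refine sum_congr rfl fun p _ => ?_
    rw [prod_mul_distrib, ← ee_sum]
    congr 2
    rw [hγ]
    simp only
    rw [sum_mul]
    refine sum_congr rfl fun c _ => ?_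
    ring
  have hsum : ((∑ x ∈ B, ∏ c ∈ Γ, (Real.cosh (1 / 2) +
      Real.sinh (1 / 2) * (u c * ee (c * x)).re) : ℝ) : ℂ) =
      ∑ p ∈ Fintype.piFinset (fun _ : ↥Γ => J), W p * ((B.card : ℂ) * ahat B (γ p)) := by
    rw [Complex.ofReal_sum]
    simp only [hexp]
    rw [sum_comm]
    refine sum_congr rfl fun p _ => ?_
    rw [← mul_sum]
    congr 1
    unfold ahat
    field_simp
  -- the bound for one term
  have hterm : ∀ p ∈ Fintype.piFinset (fun _ : ↥Γ => J), ‖W p * ((B.card : ℂ) * ahat B (γ p))‖ ≤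
      B.card * ((if p = 0 then Real.cosh (1 / 2) ^ Γ.card else 0) + κ * ‖W p‖) := by
    intro p hp
    rw [norm_mul, norm_mul, Complex.norm_natCast]
    by_cases h0 : p = 0
    · rw [if_pos h0]
      have h1 : ahat B (γ p) = 1 := by
        have h2 : γ p = 0 := by
          rw [hγ, h0]; simp
        unfold ahat
        rw [h2]
        simp only [zero_mul, ee_zero, sum_const, nsmul_eq_mul, mul_one]
        exact div_self hcB'
      have h3 : ‖W p‖ = Real.cosh (1 / 2) ^ Γ.card := by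
        rw [hW, h0]
        simp only [norm_prod, Pi.zero_apply, rudin_w, if_true]
        rw [prod_const, card_univ, Fintype.card_coe, Complex.norm_real,
          Real.norm_of_nonneg (Real.cosh_pos _).le]
      rw [h1, norm_one, mul_one, ← h3]
      have h4 : 0 ≤ κ * ‖W p‖ := by positivity
      nlinarith [norm_nonneg (W p)]
    · rw [if_neg h0, zero_add]
      have h1 : ‖ahat B (γ p)‖ < κ := by
        have h2 := hD (fun c => if h : c ∈ Γ then p ⟨c, h⟩ else 0) (by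
          intro c hc
          simp only [hc, dif_pos]
          have h3 := Fintype.mem_piFinset.1 hp ⟨c, hc⟩
          rw [hJ] at h3
          simpa using h3) (by
          by_contra hcon
          push Not at hcon
          apply h0
          funext c
          have h3 := hcon c.1 c.2
          simpa using h3)
        have h3 : ∑ c ∈ Γ, (((if h : c ∈ Γ then p ⟨c, h⟩ else 0 : ℤ)) : ℝ) * c = γ p := by
          rw [hγ, ← sum_coe_sort]
          refine sum_congr rfl fun c _ => ?_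
          simp
        rw [h3] at h2
        exact h2
      calc ‖W p‖ * (B.card * ‖ahat B (γ p)‖) = B.card * (‖ahat B (γ p)‖ * ‖W p‖) := by ring
        _ ≤ B.card * (κ * ‖W p‖) := by gcongr
  have hWsum : ∑ p ∈ Fintype.piFinset (fun _ : ↥Γ => J), ‖W p‖ = Real.exp (1 / 2) ^ Γ.card := by
    have h1 : ∀ p : ↥Γ → ℤ, ‖W p‖ = ∏ c : ↥Γ, ‖rudin_w (u c) (p c)‖ := fun p => by
      rw [hW, norm_prod]
    simp only [h1]
    rw [← Finset.prod_univ_sum (t := fun _ : ↥Γ => J) (f := fun c j => ‖rudin_w (u c) j‖)]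
    have h2 : ∀ c : ↥Γ, ∑ j ∈ J, ‖rudin_w (u c) j‖ = Real.exp (1 / 2) := fun c =>
      rudin_wsum (hu c.1 c.2)
    simp only [h2]
    rw [prod_const, card_univ, Fintype.card_coe]
  have h0mem : (0 : ↥Γ → ℤ) ∈ Fintype.piFinset (fun _ : ↥Γ => J) := by
    rw [Fintype.mem_piFinset]
    intro c
    simp [hJ]
  calc ∑ x ∈ B, ∏ c ∈ Γ, (Real.cosh (1 / 2) + Real.sinh (1 / 2) * (u c * ee (c * x)).re)
      ≤ ‖((∑ x ∈ B, ∏ c ∈ Γ, (Real.cosh (1 / 2) +
          Real.sinh (1 / 2) * (u c * ee (c * x)).re) : ℝ) : ℂ)‖ := by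
        rw [Complex.norm_real]; exact Real.le_norm_self _
    _ = ‖∑ p ∈ Fintype.piFinset (fun _ : ↥Γ => J), W p * ((B.card : ℂ) * ahat B (γ p))‖ := by
        rw [hsum]
    _ ≤ ∑ p ∈ Fintype.piFinset (fun _ : ↥Γ => J), ‖W p * ((B.card : ℂ) * ahat B (γ p))‖ :=
        norm_sum_le _ _
    _ ≤ ∑ p ∈ Fintype.piFinset (fun _ : ↥Γ => J),
          (B.card : ℝ) * ((if p = 0 then Real.cosh (1 / 2) ^ Γ.card else 0) + κ * ‖W p‖) :=
        sum_le_sum hterm
    _ = B.card * (Real.cosh (1 / 2) ^ Γ.card + κ * Real.exp (1 / 2) ^ Γ.card) := by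
        rw [← mul_sum, sum_add_distrib, ← mul_sum, hWsum, sum_ite_eq' _ (0 : ↥Γ → ℤ),
          if_pos h0mem]

/-- Rudin: a dissociated subset of the large spectrum is small. -/
theorem p_rudin : S_rudin := by
  intro T B τ Γ m hTB hT hτ0 _ hτ hD hcard hlarge
  have hB : B.Nonempty := hT.mono hTB
  have hcT : (0 : ℝ) < T.card := by exact_mod_cast hT.card_pos
  have hcB : (0 : ℝ) < B.card := by exact_mod_cast hB.card_pos
  set n : ℕ := Γ.card with hn
  set κ : ℝ := Real.exp (-((m : ℝ) + 1)) with hκ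
  set u : ℝ → ℂ := fun c => (starRingEnd ℂ) (ahat T c) / (‖ahat T c‖ : ℂ) with hu
  have hpos : ∀ c ∈ Γ, 0 < ‖ahat T c‖ := fun c hc => by
    have := hlarge c hc
    linarith
  have hu1 : ∀ c ∈ Γ, ‖u c‖ = 1 := by
    intro c hc
    simp only [hu]
    rw [norm_div, Complex.norm_conj, Complex.norm_real, norm_norm, div_self (hpos c hc).ne']
  have hu2 : ∀ c ∈ Γ, u c * ahat T c = (‖ahat T c‖ : ℂ) := by
    intro c hc
    have h1 : (‖ahat T c‖ : ℂ) ≠ 0 := by exact_mod_cast (hpos c hc).ne'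
    simp only [hu]
    rw [div_mul_eq_mul_div, div_eq_iff h1, mul_comm, Complex.mul_conj, Complex.normSq_eq_norm_sq]
    push_cast
    ring
  -- the real parts
  set r : ℝ → ℤ → ℝ := fun c x => (u c * ee (c * x)).re with hr
  have hr1 : ∀ c ∈ Γ, ∀ x, |r c x| ≤ 1 := by
    intro c hc x
    refine (Complex.abs_re_le_norm _).trans ?_
    rw [norm_mul, hu1 c hc, norm_ee, mul_one]
  have hrsum : ∀ c ∈ Γ, ∑ t ∈ T, r c t = T.card * ‖ahat T c‖ := by
    intro c hc
    have h1 : ((∑ t ∈ T, r c t : ℝ)) = (u c * ∑ t ∈ T, ee (c * t)).re := by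
      rw [mul_sum, Complex.re_sum]
    have h2 : (∑ t ∈ T, ee (c * t)) = (T.card : ℂ) * ahat T c := by
      unfold ahat
      have : (T.card : ℂ) ≠ 0 := by exact_mod_cast hcT.ne'
      field_simp
    rw [h1, h2]
    have h3 : u c * ((T.card : ℂ) * ahat T c) = (((T.card : ℝ) * ‖ahat T c‖ : ℝ) : ℂ) := by
      calc u c * ((T.card : ℂ) * ahat T c) = (T.card : ℂ) * (u c * ahat T c) := by ring
        _ = _ := by rw [hu2 c hc]; push_cast; ring
    rw [h3, Complex.ofReal_re]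
  -- Jensen
  have hJ : Real.exp ((n : ℝ) / 4) ≤ (1 / (T.card : ℝ)) * ∑ t ∈ T,
      Real.exp (∑ c ∈ Γ, r c t / 2) := by
    have h1 := convexOn_exp.map_sum_le (t := T) (w := fun _ => 1 / (T.card : ℝ))
      (p := fun t => ∑ c ∈ Γ, r c t / 2) (fun _ _ => by positivity) (by
        rw [sum_const, nsmul_eq_mul]; field_simp) (fun _ _ => Set.mem_univ _)
    simp only [smul_eq_mul] at h1
    rw [← mul_sum, ← mul_sum] at h1
    refine le_trans (Real.exp_le_exp.2 ?_) h1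
    rw [sum_comm]
    have h2 : ∀ c ∈ Γ, (T.card : ℝ) / 4 ≤ ∑ t ∈ T, r c t / 2 := by
      intro c hc
      rw [← sum_div, hrsum c hc]
      have := hlarge c hc
      nlinarith
    have h3 := sum_le_sum h2
    rw [sum_const, nsmul_eq_mul] at h3
    calc (n : ℝ) / 4 = 1 / (T.card : ℝ) * (Γ.card * (T.card / 4)) := by
          rw [hn]; field_simp
      _ ≤ _ := by gcongr
  have hprod : ∀ x, Real.exp (∑ c ∈ Γ, r c x / 2) ≤
      ∏ c ∈ Γ, (Real.cosh (1 / 2) + Real.sinh (1 / 2) * (u c * ee (c * x)).re) := by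
    intro x
    rw [Real.exp_sum]
    exact prod_le_prod (fun c _ => (Real.exp_pos _).le) (fun c hc => rudin_exp_le (hr1 c hc x))
  have hTB' : ∑ t ∈ T, Real.exp (∑ c ∈ Γ, r c t / 2) ≤
      (B.card : ℝ) * (Real.cosh (1 / 2) ^ n + κ * Real.exp (1 / 2) ^ n) := by
    refine (sum_le_sum fun t _ => hprod t).trans ?_
    refine (sum_le_sum_of_subset_of_nonneg hTB fun x _ _ => ?_).trans
      (rudin_avg B hB Γ u hu1 (Real.exp_pos _).le hD)
    exact prod_nonneg fun c hc => rudin_pos (hr1 c hc x)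
  have hcosh : Real.cosh (1 / 2) ^ n ≤ Real.exp ((n : ℝ) / 8) := by
    have h1 := Real.cosh_le_exp_half_sq (1 / 2)
    have h2 : ((1 : ℝ) / 2) ^ 2 / 2 = 1 / 8 := by norm_num
    rw [h2] at h1
    calc Real.cosh (1 / 2) ^ n ≤ Real.exp (1 / 8) ^ n :=
          pow_le_pow_left₀ (Real.cosh_pos _).le h1 n
      _ = Real.exp ((n : ℝ) / 8) := by
          rw [← Real.exp_nat_mul]; congr 1; ring
  have hexp1 : κ * Real.exp (1 / 2) ^ n ≤ Real.exp ((n : ℝ) / 8) := by
    rw [hκ, ← Real.exp_nat_mul, ← Real.exp_add]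
    apply Real.exp_le_exp.2
    have h1 : (n : ℝ) ≤ m + 1 := by exact_mod_cast hcard
    have h2 : (0 : ℝ) ≤ n := Nat.cast_nonneg _
    linarith
  have hfin : Real.exp ((n : ℝ) / 4) ≤ 2 / τ * Real.exp ((n : ℝ) / 8) := by
    have h1 : (1 / (T.card : ℝ)) * (B.card : ℝ) ≤ 1 / τ := by
      rw [one_div_mul_eq_div, div_le_div_iff₀ hcT hτ0]
      linarith
    calc Real.exp ((n : ℝ) / 4) ≤ (1 / (T.card : ℝ)) * ∑ t ∈ T,
          Real.exp (∑ c ∈ Γ, r c t / 2) := hJ
      _ ≤ (1 / (T.card : ℝ)) * ((B.card : ℝ) * (Real.cosh (1 / 2) ^ n +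
            κ * Real.exp (1 / 2) ^ n)) := by gcongr
      _ = (1 / (T.card : ℝ)) * (B.card : ℝ) * (Real.cosh (1 / 2) ^ n +
            κ * Real.exp (1 / 2) ^ n) := by ring
      _ ≤ 1 / τ * (Real.exp ((n : ℝ) / 8) + Real.exp ((n : ℝ) / 8)) := by
          apply mul_le_mul h1 (add_le_add hcosh hexp1) _ (by positivity)
          have := Real.cosh_pos (1 / 2)
          positivity
      _ = 2 / τ * Real.exp ((n : ℝ) / 8) := by ring
  have h2 := Real.log_le_log (Real.exp_pos _) hfin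
  rw [Real.log_exp, Real.log_mul (by positivity) (Real.exp_pos _).ne', Real.log_exp] at h2
  linarith

end Pool.Agent.APP
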