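import Pool.Agent.Lib.MP_8a4e59_co.A.StmA

set_option autoImplicit false

/-! (A0.5) regular Bohr sets are almost invariant under small shifts. -/

namespace Pool.Agent.APP

open Finset

/-- **[APP-A shift].** -/
theorem p_shift : S_shift := by
  classical
  intro N Θ ρ ε b hN hρ hε hε1 hreg hb
  have hk0 : 0 < kap Θ.card ε := kap_pos hε
  have hk1 : kap Θ.card ε ≤ ε / 100 := kap_le hε.le
  set κ : ℝ := kap Θ.card ε with hκ
  have hsub1 : bohr N Θ (ρ * (1 - κ)) ⊆ bohr N Θ ρ := by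
    apply bohr_mono hN.le
    nlinarith
  have hsub2 : bohr N Θ ρ ⊆ bohr N Θ (ρ * (1 + κ)) := by
    apply bohr_mono hN.le
    nlinarith
  have hc1 : ((bohr N Θ (ρ * (1 - κ))).card : ℝ) ≤ ((bohr N Θ ρ).card : ℝ) := by
    exact_mod_cast card_le_card hsub1
  have hc2 : ((bohr N Θ ρ).card : ℝ) ≤ ((bohr N Θ (ρ * (1 + κ))).card : ℝ) := by
    exact_mod_cast card_le_card hsub2
  have hreg' : ((bohr N Θ (ρ * (1 + κ))).card : ℝ) ≤
    (1 + ε) * ((bohr N Θ (ρ * (1 - κ))).card : ℝ) := hreg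
  have key : ∀ (P : ℤ → Prop) [DecidablePred P], (∀ n ∈ bohr N Θ (ρ * (1 - κ)), ¬ P n) →
      (((bohr N Θ ρ).filter P).card : ℝ) ≤ ε * ((bohr N Θ ρ).card : ℝ) := by
    intro P _ hP
    have h1 : (bohr N Θ ρ).filter P ⊆ bohr N Θ ρ \ bohr N Θ (ρ * (1 - κ)) := by
      intro n hn
      rw [mem_filter] at hn
      rw [mem_sdiff]
      exact ⟨hn.1, fun h => hP n h hn.2⟩
    have h2 : (((bohr N Θ ρ).filter P).card : ℝ) ≤
        ((bohr N Θ ρ \ bohr N Θ (ρ * (1 - κ))).card : ℝ) := by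
      exact_mod_cast card_le_card h1
    rw [cast_card_sdiff hsub1] at h2
    have h3 : ε * ((bohr N Θ (ρ * (1 - κ))).card : ℝ) ≤ ε * ((bohr N Θ ρ).card : ℝ) :=
      mul_le_mul_of_nonneg_left hc1 hε.le
    linarith
  have e1 : ρ * (1 - κ) + κ * ρ = ρ := by ring
  constructor
  · apply key (fun n => n - b ∉ bohr N Θ ρ)
    intro n hn h
    apply h
    have := sub_mem_bohr hn hb
    rwa [e1] at this
  · apply key (fun n => n + b ∉ bohr N Θ ρ)
    intro n hn h
    apply h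
    have := add_mem_bohr hn hb
    rwa [e1] at this

end Pool.Agent.APP
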