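import Pool.Agent.Lib.MP_8a4e59_co.A.StmA

set_option autoImplicit false

namespace Pool.Agent.APP

open Finset

private lemma size_pigeon {K : ℝ} {a b : ℝ} (ha : 0 ≤ a) (hb : 0 ≤ b) (hK : 0 < K)
    (h : ⌊K * a⌋₊ = ⌊K * b⌋₊) : |a - b| ≤ 1 / K := by
  have h1 := Nat.floor_le (mul_nonneg hK.le ha)
  have h2 := Nat.lt_floor_add_one (K * a)
  have h3 := Nat.floor_le (mul_nonneg hK.le hb)
  have h4 := Nat.lt_floor_add_one (K * b)
  rw [h] at h1 h2
  have e : |a - b| * K = |(a - b) * K| := by rw [abs_mul, abs_of_pos hK]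
  rw [le_div_iff₀ hK, e, abs_le]
  constructor
  · linarith [mul_comm K a, mul_comm K b, sub_mul a b K]
  · linarith [mul_comm K a, mul_comm K b, sub_mul a b K]

theorem p_size : S_size := by
  classical
  intro N Θ ρ hN hρ hρ2
  set P : Finset ℤ := Finset.Icc 0 ⌊ρ * N⌋ with hP
  have hρN : 0 < ρ * N := mul_pos hρ hN
  have hfl : 0 ≤ ⌊ρ * N⌋ := Int.floor_nonneg.2 hρN.le
  have hPc : ρ * N < P.card := by
    have h1 : P.card = (⌊ρ * N⌋ + 1).toNat := by
      rw [hP, Int.card_Icc, sub_zero]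
    have h2 : ((P.card : ℤ) : ℝ) = (⌊ρ * N⌋ : ℝ) + 1 := by
      rw [h1, Int.toNat_of_nonneg (by omega)]
      push_cast
      ring
    have h3 := Int.lt_floor_add_one (ρ * N)
    have h4 : ((P.card : ℤ) : ℝ) = (P.card : ℝ) := by norm_cast
    rw [← h4, h2]
    exact h3
  set K : ℕ := ⌈1 / ρ⌉₊ with hK
  have hK1 : 1 / ρ ≤ K := Nat.le_ceil _
  have hK2 : (K : ℝ) < 1 / ρ + 1 := Nat.ceil_lt_add_one (by positivity)
  have hK3 : (K : ℝ) ≤ 2 / ρ := by
    have h1 : 2 ≤ 1 / ρ := by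
      rw [le_div_iff₀ hρ]
      linarith
    have h2 : 2 / ρ = 1 / ρ + 1 / ρ := by ring
    linarith
  have hK0 : 0 < (K : ℝ) := lt_of_lt_of_le (by positivity) hK1
  have hKρ : 1 / (K : ℝ) ≤ ρ := by
    rw [div_le_iff₀ hK0]
    have := (div_le_iff₀ hρ).1 hK1
    linarith
  set c : ℤ → (Θ → ℕ) := fun n θ => ⌊(K : ℝ) * Int.fract ((θ : ℝ) * n)⌋₊ with hc
  set T : Finset (Θ → ℕ) := Fintype.piFinset (fun _ => Finset.range K) with hT
  have hmap : ∀ n ∈ P, c n ∈ T := by
    intro n _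
    rw [hT, Fintype.mem_piFinset]
    intro θ
    rw [Finset.mem_range, hc]
    simp only
    have h1 := Int.fract_nonneg ((θ : ℝ) * n)
    rw [Nat.floor_lt (mul_nonneg hK0.le h1)]
    have := Int.fract_lt_one ((θ : ℝ) * n)
    nlinarith
  have hfib : ∀ y ∈ T, (P.filter (fun n => c n = y)).card ≤ (bohr N Θ ρ).card := by
    intro y _
    rcases (P.filter (fun n => c n = y)).eq_empty_or_nonempty with h | ⟨n₀, h₀⟩
    · rw [h]
      simp
    · rw [Finset.mem_filter, hP, Finset.mem_Icc] at h₀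
      obtain ⟨⟨a1, a2⟩, a3⟩ := h₀
      apply Finset.card_le_card_of_injOn (fun n => n - n₀)
      · intro n hn
        rw [Finset.mem_coe, Finset.mem_filter, hP, Finset.mem_Icc] at hn
        obtain ⟨⟨b1, b2⟩, b3⟩ := hn
        rw [Finset.mem_coe, mem_bohr]
        have c1 : (n : ℝ) ≤ ρ * N := Int.le_floor.1 b2
        have c2 : (n₀ : ℝ) ≤ ρ * N := Int.le_floor.1 a2
        have c3 : (0 : ℝ) ≤ n := by exact_mod_cast b1
        have c4 : (0 : ℝ) ≤ n₀ := by exact_mod_cast a1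
        constructor
        · push_cast
          rw [abs_le]
          constructor <;> linarith
        · intro θ hθ
          have d1 : c n ⟨θ, hθ⟩ = c n₀ ⟨θ, hθ⟩ := by rw [a3, b3]
          have d2 := size_pigeon (Int.fract_nonneg (θ * n)) (Int.fract_nonneg (θ * n₀)) hK0 d1
          refine (nn_le_abs_sub _ (⌊θ * n⌋ - ⌊θ * n₀⌋)).trans (le_trans (le_of_eq ?_) (d2.trans hKρ))
          congr 1
          unfold Int.fract
          push_cast
          ring
      · intro n _ m _ h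
        simp only at h
        omega
  have hcard : P.card ≤ (bohr N Θ ρ).card * T.card :=
    Finset.card_le_mul_card_image_of_maps_to hmap _ hfib
  have hTc : T.card = K ^ Θ.card := by
    rw [hT, Fintype.card_piFinset]
    simp
  have h1 : ρ * N ≤ (bohr N Θ ρ).card * (2 / ρ) ^ Θ.card := by
    refine hPc.le.trans ?_
    have h2 : (P.card : ℝ) ≤ (bohr N Θ ρ).card * (K : ℝ) ^ Θ.card := by
      rw [hTc] at hcard
      exact_mod_cast hcard
    refine h2.trans ?_
    gcongr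
  calc ρ * N * (ρ / 2) ^ Θ.card ≤ (bohr N Θ ρ).card * (2 / ρ) ^ Θ.card * (ρ / 2) ^ Θ.card := by
        gcongr
    _ = (bohr N Θ ρ).card := by
      rw [mul_assoc, ← mul_pow]
      have : 2 / ρ * (ρ / 2) = 1 := by field_simp
      rw [this, one_pow, mul_one]

end Pool.Agent.APP
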