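import Pool.Agent.Lib.MP_8a4e59_co.A.StmA

set_option autoImplicit false

/-! The walk (telescoping) argument. (helper21) -/

namespace Pool.Agent.APP

open Finset

lemma walk_card {E : Finset ℤ} {A₂ : Finset ℤ} {L : ℝ} (v : ℤ) (hE : (E.card : ℝ) ≤ L) :
    ∑ x ∈ A₂, (if x + v ∈ E then (1 : ℝ) else 0) ≤ L := by
  classical
  rw [← Finset.sum_filter, Finset.sum_const, nsmul_eq_mul, mul_one]
  refine le_trans ?_ hE
  exact_mod_cast Finset.card_le_card_of_injOn (fun x => x + v)
    (fun x hx => by
      have := (Finset.mem_filter.1 (Finset.mem_coe.1 hx)).2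
      exact this)
    (fun a _ b _ hab => by simpa using hab)

theorem p_walk : S_walk := by
  classical
  intro f g T A₂ B₅ l d L hf hd hL
  induction l with
  | zero =>
    intro _ _ q _
    have : vsum q = 0 := by simp [vsum]
    simp [this]
  | succ l ih =>
    intro h1 h2 q hq
    have hqm : ∀ j, q j ∈ T ×ˢ T := by
      have := hq
      rw [TTl, Fintype.mem_piFinset] at this
      exact this
    have hq' : (Fin.init q : Fin l → ℤ × ℤ) ∈ TTl T l := by
      rw [TTl, Fintype.mem_piFinset]
      intro j
      exact hqm _
    set v' := vsum (Fin.init q : Fin l → ℤ × ℤ) with hv'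
    set t := (q (Fin.last l)).1 with ht
    set t' := (q (Fin.last l)).2 with ht'
    have htT : t ∈ T := (Finset.mem_product.1 (hqm (Fin.last l))).1
    have htT' : t' ∈ T := (Finset.mem_product.1 (hqm (Fin.last l))).2
    have hv : vsum q = v' + (t - t') := by
      rw [vsum, Fin.sum_univ_castSucc]
      rfl
    have ih' := ih (fun x hx j hj => h1 x hx j (by omega)) h2 _ hq'
    set Et := B₅.filter (fun x => d < |g (x + t) - f x|) with hEt
    set Et' := B₅.filter (fun x => d < |g (x + t') - f x|) with hEt'
    have hpt : ∀ x ∈ A₂, |f (x + vsum q) - f x| ≤ |f (x + v') - f x| + (2 * d +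
        (if x + v' ∈ Et then (1 : ℝ) else 0) + (if x + vsum q ∈ Et' then (1 : ℝ) else 0)) := by
      intro x hx
      have hy : x + v' ∈ B₅ := h1 x hx l (by omega) _ hq'
      have hy' : x + vsum q ∈ B₅ := h1 x hx (l + 1) le_rfl _ hq
      have htri : |f (x + vsum q) - f x| ≤ |f (x + vsum q) - f (x + v')| + |f (x + v') - f x| := by
        have := abs_add_le (f (x + vsum q) - f (x + v')) (f (x + v') - f x)
        simpa using this
      have hone : |f (x + vsum q) - f (x + v')| ≤ 1 := by
        rw [abs_le]
        have a1 := hf (x + vsum q)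
        have a2 := hf (x + v')
        constructor <;> linarith
      have hkey : |f (x + vsum q) - f (x + v')| ≤ 2 * d +
        (if x + v' ∈ Et then (1 : ℝ) else 0) + (if x + vsum q ∈ Et' then (1 : ℝ) else 0) := by
        by_cases c1 : x + v' ∈ Et
        · rw [if_pos c1]
          have : (0 : ℝ) ≤ (if x + vsum q ∈ Et' then (1 : ℝ) else 0) := by positivity
          linarith
        · by_cases c2 : x + vsum q ∈ Et'
          · rw [if_pos c2]
            have : (0 : ℝ) ≤ (if x + v' ∈ Et then (1 : ℝ) else 0) := by positivity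
            linarith
          · rw [if_neg c1, if_neg c2]
            have e1 : |g (x + v' + t) - f (x + v')| ≤ d := by
              by_contra hc
              exact c1 (Finset.mem_filter.2 ⟨hy, not_le.1 hc⟩)
            have e2 : |g (x + vsum q + t') - f (x + vsum q)| ≤ d := by
              by_contra hc
              exact c2 (Finset.mem_filter.2 ⟨hy', not_le.1 hc⟩)
            have e3 : x + vsum q + t' = x + v' + t := by rw [hv]; ring
            rw [e3] at e2
            rw [abs_le] at e1 e2 ⊢
            constructor <;> linarith [e1.1, e1.2, e2.1, e2.2]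
      linarith
    refine (Finset.sum_le_sum hpt).trans ?_
    rw [Finset.sum_add_distrib, Finset.sum_add_distrib, Finset.sum_add_distrib, Finset.sum_const,
      nsmul_eq_mul]
    have w1 : ∑ x ∈ A₂, (if x + v' ∈ Et then (1 : ℝ) else 0) ≤ L := walk_card v' (h2 t htT)
    have w2 : ∑ x ∈ A₂, (if x + vsum q ∈ Et' then (1 : ℝ) else 0) ≤ L := walk_card _ (h2 t' htT')
    push_cast
    nlinarith [ih', w1, w2]

end Pool.Agent.APP
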