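import Pool.Agent.Lib.MP_8a4e59_co.A.StmB

set_option autoImplicit false

/-! (A1) the KM-core from sifting, the structure lemma and regular radii. -/

namespace Pool.Agent.APP

open Finset

private lemma core_swap (A X B' : Finset ℤ) (z w : ℤ) (K : ℝ) (hXA : X ⊆ A)
    (h : ∀ y : ℤ, cnt A y 2 B' ≤ K) : ∑ c ∈ B', rr X (2 * (z + (w + c))) ≤ X.card * K := by
  have h1 : ∀ c, rr X (2 * (z + (w + c))) = ∑ y ∈ X, if y + 2 * (z + (w + c)) ∈ X then (1 : ℝ) else 0 := by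
    intro c
    rw [rr, sum_boole]
  simp only [h1]
  rw [sum_comm, ← nsmul_eq_mul]
  refine sum_le_card_nsmul _ _ _ fun y _ => ?_
  rw [sum_boole]
  refine le_trans ?_ (h (y + 2 * (z + w)))
  rw [cnt]
  have : (B'.filter (fun c => y + 2 * (z + (w + c)) ∈ X)).card ≤
      (B'.filter (fun n => y + 2 * (z + w) + ((2 : ℕ) : ℤ) * n ∈ A)).card := by
    refine card_le_card fun c hc => ?_
    rw [mem_filter] at hc ⊢
    refine ⟨hc.1, ?_⟩
    have h2 : y + 2 * (z + w) + ((2 : ℕ) : ℤ) * c = y + 2 * (z + (w + c)) := by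
      push_cast; ring
    rw [h2]
    exact hXA hc.2
  exact_mod_cast this

private lemma core_pairs (D₁ D₂ B S : Finset ℤ) (P : ℤ → Prop) [DecidablePred P] (δ : ℝ)
    (hS : ∀ x, x ∈ S ↔ x ∈ B ∧ P x) (hB : ∀ a ∈ D₁, ∀ x ∈ D₂, a - x ∈ B)
    (h : (((D₁ ×ˢ D₂).filter (fun c => ¬ P (c.1 - c.2))).card : ℝ) ≤ δ * ((D₁.card : ℝ) * D₂.card)) :
    (1 - δ) * ((D₁.card : ℝ) * D₂.card) ≤ ∑ a ∈ D₁, ∑ x ∈ D₂, (if a - x ∈ S then (1 : ℝ) else 0) := by
  have h1 : ∑ a ∈ D₁, ∑ x ∈ D₂, (if a - x ∈ S then (1 : ℝ) else 0) =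
      ∑ c ∈ D₁ ×ˢ D₂, (1 - if ¬ P (c.1 - c.2) then (1 : ℝ) else 0) := by
    rw [← sum_product' (f := fun a x => if a - x ∈ S then (1 : ℝ) else 0)]
    refine sum_congr rfl fun c hc => ?_
    rw [mem_product] at hc
    by_cases hP : P (c.1 - c.2)
    · rw [if_pos ((hS _).2 ⟨hB _ hc.1 _ hc.2, hP⟩), if_neg (not_not.2 hP)]; ring
    · rw [if_neg (fun hs => hP ((hS _).1 hs).2), if_pos hP]; ring
  rw [h1, sum_sub_distrib, sum_boole, sum_const, card_product, nsmul_eq_mul, mul_one]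
  push_cast
  linarith

theorem p_core : S_sift → S_A2 → S_reg → S_core := by
  intro hsift hA2 hreg A X N Θ ρ₄ ρ₅ ρ₆ ε D ε₀ p hXA hN h6 h65 h54 hε hε1 hD hD1 hε₀ hε₀1 hp hplog
    hd1 hd2 hR hcnt
  by_contra hcon
  rw [not_le] at hcon
  have hXne : X.Nonempty := by
    rw [nonempty_iff_ne_empty]
    rintro rfl
    have h1 : ∀ v, rr ∅ v ^ p = 0 := by
      intro v
      have : rr ∅ v = 0 := by simp [rr]
      rw [this]
      exact zero_pow (by omega)
    have h2 : Env (bohr N Θ ρ₄) (bohr N Θ ρ₅) (fun v => rr ∅ v ^ p) = 0 := by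
      simp only [Env, h1, sum_const_zero, zero_div]
    rw [h2] at hcon
    simp only [card_empty, Nat.cast_zero, mul_zero] at hcon
    rw [zero_pow (by omega)] at hcon
    exact lt_irrefl _ hcon
  have h5 : 0 < ρ₅ := h6.trans_le h65
  have h4 : 0 < ρ₄ := h5.trans_le h54
  obtain ⟨z, D₁, D₂, hs1, hs2, hc1, hc2, hpairs⟩ := hsift X (bohr N Θ ρ₄) (bohr N Θ ρ₅) ε D p
    (bohr_nonempty hN.le h4.le) (bohr_nonempty hN.le h5.le) hXne hε hε1 hD hD1 hp hplog hcon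
  set τ : ℝ := D ^ p / 4 with hτ
  set δ : ℝ := ε / 20 with hδ
  have hDp : 0 < D ^ p := pow_pos hD p
  have hDp1 : D ^ p ≤ 1 := pow_le_one₀ hD.le hD1
  have hτ0 : 0 < τ := by positivity
  have hτ1 : τ ≤ 1 / 2 := by rw [hτ]; linarith
  have hδ0 : 0 < δ := by positivity
  have hδ1 : δ ≤ 1 / 2 := by rw [hδ]; linarith
  set S : Finset ℤ := (bohr N Θ (ρ₄ + ρ₅)).filter
    (fun x => ¬ (rr X (2 * (z + x)) < (1 + ε / 2) * D * X.card)) with hS
  have hSp := core_pairs D₁ D₂ (bohr N Θ (ρ₄ + ρ₅)) S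
    (fun x => ¬ (rr X (2 * (z + x)) < (1 + ε / 2) * D * X.card)) δ
    (fun x => by rw [hS, mem_filter])
    (fun a ha x hx => sub_mem_bohr (hs1 ha) (hs2 hx))
    (by
      refine le_trans (le_of_eq ?_) hpairs
      congr 2
      ext c
      simp only [mem_filter, not_not])
  obtain ⟨Γ, hΓ, hw⟩ := hA2 N Θ ρ₄ ρ₅ ρ₆ τ δ D₁ D₂ S hN h6 h65 h54 hτ0 hτ1 hδ0 hδ1 hd1 hd2 hR hs1 hs2
    hc1 hc2 hSp
  have hpe : 0 < pe τ δ := by unfold pe; positivity
  have hpr : 0 < pr Θ.card τ δ ρ₆ := by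
    unfold pr
    have := kap_pos (R := Θ.card) hpe
    refine mul_pos (by norm_num) (lt_min (mul_pos this h6) ?_)
    positivity
  obtain ⟨ρ', hρ1, hρ2, hρR⟩ := hreg (N / 2) (Θ ∪ Γ) (2 * pr Θ.card τ δ ρ₆) ε₀ (by linarith)
    (by linarith) hε₀ hε₀1
  have hρ'0 : 0 < ρ' := by linarith
  have h2pr : 2 * pr Θ.card τ δ ρ₆ = min (kap Θ.card (pe τ δ) * ρ₆) (δ * τ / (64 * (pm τ δ + 1))) := by
    unfold pr; ring
  obtain ⟨w, hw⟩ := hw (N / 2) ρ' (by linarith) (by linarith) hρ'0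
    (hρ2.trans (h2pr.le.trans (min_le_left _ _))) (hρ2.trans (h2pr.le.trans (min_le_right _ _)))
  have hcnt' := hcnt (Θ ∪ Γ) ρ' subset_union_left
    ((card_union_le _ _).trans (by omega)) (by linarith) hρ2 hρR
  set B' : Finset ℤ := bohr (N / 2) (Θ ∪ Γ) ρ' with hB'
  have hup := core_swap A X B' z w _ hXA hcnt'
  have hB'0 : 0 < (B'.card : ℝ) := bohr_card_pos (by linarith) hρ'0.le
  have hX0 : 0 < (X.card : ℝ) := by exact_mod_cast hXne.card_pos
  have hlow : (1 - 2 * δ) * (B'.card : ℝ) * ((1 + ε / 2) * D * X.card) ≤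
      ∑ c ∈ B', rr X (2 * (z + (w + c))) := by
    calc (1 - 2 * δ) * (B'.card : ℝ) * ((1 + ε / 2) * D * X.card)
        ≤ ((B'.filter (fun b => w + b ∈ S)).card : ℝ) * ((1 + ε / 2) * D * X.card) :=
          mul_le_mul_of_nonneg_right hw (by positivity)
      _ = (B'.filter (fun b => w + b ∈ S)).card • ((1 + ε / 2) * D * X.card) := by
          rw [nsmul_eq_mul]
      _ ≤ ∑ c ∈ B'.filter (fun b => w + b ∈ S), rr X (2 * (z + (w + c))) := by
          refine card_nsmul_le_sum _ _ _ fun c hc => ?_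
          rw [mem_filter, hS, mem_filter] at hc
          exact not_lt.1 hc.2.2
      _ ≤ ∑ c ∈ B', rr X (2 * (z + (w + c))) := by
          refine sum_le_sum_of_subset_of_nonneg (filter_subset _ _) fun c _ _ => ?_
          exact Nat.cast_nonneg _
  have h7 := hlow.trans hup
  have h8 : (1 - 2 * δ) * (1 + ε / 2) * ((D * X.card) * B'.card) ≤ (D * X.card) * B'.card := by
    calc (1 - 2 * δ) * (1 + ε / 2) * ((D * X.card) * B'.card) =
        (1 - 2 * δ) * (B'.card : ℝ) * ((1 + ε / 2) * D * X.card) := by ring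
      _ ≤ (X.card : ℝ) * (D * (B'.card : ℝ)) := h7
      _ = (D * X.card) * B'.card := by ring
  have h9 : 0 < (D * X.card) * (B'.card : ℝ) := by positivity
  have h10 : (1 - 2 * δ) * (1 + ε / 2) ≤ 1 := by
    by_contra h11
    rw [not_le] at h11
    have := mul_lt_mul_of_pos_right h11 h9
    linarith
  rw [hδ] at h10
  nlinarith

end Pool.Agent.APP
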