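import Pool.Agent.Lib.MP_8a4e59_co.A.StmB

set_option autoImplicit false

/-! (A6b) decoupling by Cauchy-Schwarz. (helper80) -/

namespace Pool.Agent.APP

open Finset

private lemma dec_pow (D : Finset ℤ) (g : ℤ → ℝ) (k : ℕ) :
    (∑ z ∈ D, g z) ^ k = ∑ ζ ∈ Fintype.piFinset (fun _ : Fin k => D), ∏ i, g (ζ i) := by
  rw [← Finset.prod_univ_sum]
  simp

private lemma dec_mix (U : Finset (ℤ × ℤ)) (D : Finset ℤ) (a b : ℤ × ℤ → ℤ → ℝ) (k : ℕ) :
    ∑ u ∈ U, ∑ w ∈ U, (∑ z ∈ D, a w z * b u z) ^ k =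
      ∑ ζ ∈ Fintype.piFinset (fun _ : Fin k => D),
        (∑ w ∈ U, ∏ i, a w (ζ i)) * (∑ u ∈ U, ∏ i, b u (ζ i)) := by
  have h1 : ∀ u w, (∑ z ∈ D, a w z * b u z) ^ k =
      ∑ ζ ∈ Fintype.piFinset (fun _ : Fin k => D), (∏ i, a w (ζ i)) * ∏ i, b u (ζ i) := by
    intro u w
    rw [dec_pow]
    exact sum_congr rfl fun ζ _ => prod_mul_distrib
  simp only [h1]
  rw [sum_comm]
  have h2 : ∀ w, ∑ u ∈ U, ∑ ζ ∈ Fintype.piFinset (fun _ : Fin k => D),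
      (∏ i, a w (ζ i)) * ∏ i, b u (ζ i) =
      ∑ ζ ∈ Fintype.piFinset (fun _ : Fin k => D), (∏ i, a w (ζ i)) * ∑ u ∈ U, ∏ i, b u (ζ i) := by
    intro w
    rw [sum_comm]
    exact sum_congr rfl fun ζ _ => (mul_sum _ _ _).symm
  simp only [h2]
  rw [sum_comm]
  exact sum_congr rfl fun ζ _ => (sum_mul _ _ _).symm

private lemma dec_key (U : Finset (ℤ × ℤ)) (D : Finset ℤ) (a b : ℤ × ℤ → ℤ → ℝ) (k : ℕ) :
    (∑ u ∈ U, ∑ w ∈ U, (∑ z ∈ D, a w z * b u z) ^ k) ^ 2 ≤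
      (∑ u ∈ U, ∑ w ∈ U, (∑ z ∈ D, a w z * a u z) ^ k) *
        (∑ u ∈ U, ∑ w ∈ U, (∑ z ∈ D, b w z * b u z) ^ k) := by
  rw [dec_mix, dec_mix, dec_mix]
  have := Finset.sum_mul_sq_le_sq_mul_sq (Fintype.piFinset (fun _ : Fin k => D))
    (fun ζ => ∑ w ∈ U, ∏ i, a w (ζ i)) (fun ζ => ∑ u ∈ U, ∏ i, b u (ζ i))
  simpa only [pow_two] using this

/-- `∑ᶠ` over a translate -/
private lemma dec_fs (D : Finset ℤ) (F : ℤ → ℝ) (hF : ∀ z, F z ≠ 0 → z ∈ D) :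
    ∑ᶠ z, F z = ∑ z ∈ D, F z :=
  finsum_eq_sum_of_support_subset _ (fun z hz => hF z hz)

theorem p_dec : S_dec := by
  classical
  intro B₄ B₅ f f' j t K hf hf' hK h1 h2
  set U : Finset (ℤ × ℤ) := B₄ ×ˢ B₅ with hU
  set s : ℤ × ℤ → ℤ := fun u => u.1 + u.2 with hs
  set n : ℝ := (B₄.card : ℝ) * B₅.card with hn
  have hn0 : 0 ≤ n := by positivity
  unfold Env at h1 h2 ⊢
  rcases hn0.eq_or_lt with hn0 | hn0
  · rw [← hn, ← hn0]
    simpa using hK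
  have hnn : 0 < n ^ 2 := by positivity
  rw [div_le_iff₀ hnn] at h1 h2 ⊢
  set D : Finset ℤ := (U.biUnion fun w => hf.toFinset.image (fun y => y + 2 * s w)) ∪
    (U.biUnion fun u => hf'.toFinset.image (fun y => t + 2 * s u - y)) with hD
  have hDa : ∀ w ∈ U, ∀ z, f (z - 2 * s w) ≠ 0 → z ∈ D := by
    intro w hw z hz
    rw [hD, mem_union]; left
    rw [mem_biUnion]
    refine ⟨w, hw, mem_image.2 ⟨z - 2 * s w, ?_, by ring⟩⟩
    rw [Set.Finite.mem_toFinset]; exact hz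
  have hDb : ∀ u ∈ U, ∀ z, f' (t + 2 * s u - z) ≠ 0 → z ∈ D := by
    intro u hu z hz
    rw [hD, mem_union]; right
    rw [mem_biUnion]
    refine ⟨u, hu, mem_image.2 ⟨t + 2 * s u - z, ?_, by ring⟩⟩
    rw [Set.Finite.mem_toFinset]; exact hz
  have hcon : ∀ u ∈ U, ∀ w ∈ U, con f f' (t + 2 * ((u.1 + u.2) - (w.1 + w.2))) =
      ∑ z ∈ D, f (z - 2 * s w) * f' (t + 2 * s u - z) := by
    intro u hu w hw
    rw [con, ← finsum_comp_equiv (Equiv.subRight (2 * s w))]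
    rw [dec_fs D]
    · refine sum_congr rfl fun z _ => ?_
      simp only [Equiv.subRight_apply]
      congr 2
      simp only [hs]; ring
    · intro z hz
      simp only [Equiv.subRight_apply] at hz
      exact hDa w hw z (left_ne_zero_of_mul hz)
  have hcf : ∀ u ∈ U, ∀ w ∈ U, cor f f (2 * ((u.1 + u.2) - (w.1 + w.2))) =
      ∑ z ∈ D, f (z - 2 * s w) * f (z - 2 * s u) := by
    intro u hu w hw
    rw [cor, ← finsum_comp_equiv (Equiv.subRight (2 * s u))]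
    rw [dec_fs D]
    · refine sum_congr rfl fun z _ => ?_
      simp only [Equiv.subRight_apply]
      rw [mul_comm]
      congr 2
      simp only [hs]; ring
    · intro z hz
      simp only [Equiv.subRight_apply] at hz
      exact hDa u hu z (left_ne_zero_of_mul hz)
  have hcf' : ∀ u ∈ U, ∀ w ∈ U, cor f' f' (2 * ((u.1 + u.2) - (w.1 + w.2))) =
      ∑ z ∈ D, f' (t + 2 * s w - z) * f' (t + 2 * s u - z) := by
    intro u hu w hw
    rw [cor, ← finsum_comp_equiv (Equiv.subLeft (t + 2 * s w))]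
    rw [dec_fs D]
    · refine sum_congr rfl fun z _ => ?_
      simp only [Equiv.subLeft_apply]
      congr 2
      simp only [hs]; ring
    · intro z hz
      simp only [Equiv.subLeft_apply] at hz
      exact hDb w hw z (left_ne_zero_of_mul hz)
  have key := dec_key U D (fun w z => f (z - 2 * s w)) (fun u z => f' (t + 2 * s u - z)) (2 * j)
  have e0 : ∑ u ∈ U, ∑ w ∈ U, con f f' (t + 2 * ((u.1 + u.2) - (w.1 + w.2))) ^ (2 * j) =
      ∑ u ∈ U, ∑ w ∈ U, (∑ z ∈ D, f (z - 2 * s w) * f' (t + 2 * s u - z)) ^ (2 * j) :=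
    sum_congr rfl fun u hu => sum_congr rfl fun w hw => by rw [hcon u hu w hw]
  have e1 : ∑ u ∈ U, ∑ w ∈ U, cor f f (2 * ((u.1 + u.2) - (w.1 + w.2))) ^ (2 * j) =
      ∑ u ∈ U, ∑ w ∈ U, (∑ z ∈ D, f (z - 2 * s w) * f (z - 2 * s u)) ^ (2 * j) :=
    sum_congr rfl fun u hu => sum_congr rfl fun w hw => by rw [hcf u hu w hw]
  have e2 : ∑ u ∈ U, ∑ w ∈ U, cor f' f' (2 * ((u.1 + u.2) - (w.1 + w.2))) ^ (2 * j) =
      ∑ u ∈ U, ∑ w ∈ U, (∑ z ∈ D, f' (t + 2 * s w - z) * f' (t + 2 * s u - z)) ^ (2 * j) :=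
    sum_congr rfl fun u hu => sum_congr rfl fun w hw => by rw [hcf' u hu w hw]
  rw [e0]
  rw [e1] at h1
  rw [e2] at h2
  have hp : ∀ g : ℤ × ℤ → ℤ × ℤ → ℝ, 0 ≤ ∑ u ∈ U, ∑ w ∈ U, g u w ^ (2 * j) := fun g =>
    sum_nonneg fun u _ => sum_nonneg fun w _ => by rw [pow_mul]; positivity
  have hle := key.trans (mul_le_mul h1 h2 (hp _) (by positivity))
  rw [← pow_two] at hle
  exact (abs_le_of_sq_le_sq' hle (by positivity)).2

end Pool.Agent.APP
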