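import Pool.Agent.Lib.MP_8a4e59_co.A.StmB

set_option autoImplicit false

/-!
Piece `local` of part A: local count.
-/

namespace Pool.Agent.APP

open Finset

private theorem local_ind_nonneg (X : Finset ℤ) (n : ℤ) : 0 ≤ ind X n := by
  unfold ind
  split_ifs <;> norm_num

private theorem local_ind_le (X : Finset ℤ) (n : ℤ) : ind X n ≤ 1 := by
  unfold ind
  split_ifs <;> norm_num

private theorem local_sum_ind {X B : Finset ℤ} (h : X ⊆ B) : ∑ n ∈ B, ind X n = (X.card : ℝ) := by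
  unfold ind
  rw [sum_ite_mem, sum_const, nsmul_eq_mul, mul_one, inter_eq_right.mpr h]

private theorem local_bal_support (X P : Finset ℤ) (h : X ⊆ P) (α : ℝ) :
    Function.support (bal X P α) ⊆ (P : Set ℤ) := by
  intro n hn
  by_contra hP
  apply hn
  have h1 : n ∉ P := fun h => hP (mem_coe.2 h)
  have h2 : n ∉ X := fun h' => h1 (h h')
  simp [bal, ind, h1, h2]

private theorem local_con (X1 X3 B : Finset ℤ) (h : X1 ⊆ B) (α : ℝ) (x : ℤ) :
    con (bal X1 B α) (bal X3 B α) x =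
      ∑ n ∈ B, ind X1 n * ind X3 (x - n) - α * ∑ n ∈ B, ind X3 (x - n)
        - α * ∑ n ∈ B, ind X1 n * ind B (x - n) + α ^ 2 * ∑ n ∈ B, ind B (x - n) := by
  unfold con
  rw [finsum_eq_sum_of_support_subset (s := B)]
  · rw [mul_sum, mul_sum, mul_sum, ← sum_sub_distrib, ← sum_sub_distrib, ← sum_add_distrib]
    refine sum_congr rfl fun n hn => ?_
    have : ind B n = 1 := by simp [ind, hn]
    rw [bal, bal, this]
    ring
  · intro n hn
    by_contra hP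
    apply hn
    have : bal X1 B α n = 0 := by
      by_contra h0
      exact hP (local_bal_support X1 B h α h0)
    show bal X1 B α n * bal X3 B α (x - n) = 0
    rw [this, zero_mul]

/-- the pointwise estimate -/
private theorem local_point (A₁ A₃ B₃ : Finset ℤ) (α e₁ : ℝ) (hsym : ∀ n ∈ B₃, -n ∈ B₃)
    (hα : 0 < α) (hα1 : α ≤ 1) (he : 0 ≤ e₁) (y : ℤ)
    (h1 : ((B₃.filter (fun n => n + y ∉ B₃)).card : ℝ) ≤ e₁ * B₃.card)
    (h2 : ((B₃.filter (fun n => n - y ∉ B₃)).card : ℝ) ≤ e₁ * B₃.card)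
    (h3 : ((B₃.filter (fun n => 2 * y - n ∉ B₃)).card : ℝ) ≤ e₁ * B₃.card) :
    |((B₃.filter (fun k => y - k ∈ A₁ ∧ y + k ∈ A₃)).card : ℝ) -
      (α * ((A₁ ∩ B₃).card : ℝ) + α * ((A₃ ∩ B₃).card : ℝ) - α ^ 2 * B₃.card)| ≤
      |con (bal (A₁ ∩ B₃) B₃ α) (bal (A₃ ∩ B₃) B₃ α) (2 * y)| + 3 * e₁ * B₃.card := by
  have hX1 : A₁ ∩ B₃ ⊆ B₃ := inter_subset_right
  have hX3 : A₃ ∩ B₃ ⊆ B₃ := inter_subset_right
  rw [local_con _ _ _ hX1]
  obtain ⟨b, hb⟩ : ∃ b : ℝ, b = (B₃.card : ℝ) := ⟨_, rfl⟩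
  have hb0 : 0 ≤ b := by rw [hb]; positivity
  -- the error term
  obtain ⟨E, hE⟩ : ∃ E : ℝ, E = ((B₃.filter (fun n => 2 * y - n ∉ B₃)).card : ℝ) := ⟨_, rfl⟩
  have hE0 : 0 ≤ E := by rw [hE]; positivity
  have hEs : ∑ n ∈ B₃, (1 - ind B₃ (2 * y - n)) = E := by
    rw [hE, card_filter]
    push_cast
    refine sum_congr rfl fun n _ => ?_
    unfold ind
    by_cases h : 2 * y - n ∈ B₃ <;> simp [h]
  have hS0 : ∑ n ∈ B₃, ind B₃ (2 * y - n) = b - E := by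
    rw [← hEs, sum_sub_distrib, sum_const, nsmul_eq_mul, mul_one, hb]
    ring
  have hS1u : ∑ n ∈ B₃, ind (A₁ ∩ B₃) n * ind B₃ (2 * y - n) ≤ ((A₁ ∩ B₃).card : ℝ) := by
    rw [← local_sum_ind hX1]
    refine sum_le_sum fun n _ => ?_
    have := local_ind_nonneg (A₁ ∩ B₃) n
    have := local_ind_le B₃ (2 * y - n)
    nlinarith
  have hS1l : ((A₁ ∩ B₃).card : ℝ) - E ≤ ∑ n ∈ B₃, ind (A₁ ∩ B₃) n * ind B₃ (2 * y - n) := by
    rw [← local_sum_ind hX1, ← hEs, ← sum_sub_distrib]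
    refine sum_le_sum fun n _ => ?_
    have := local_ind_le (A₁ ∩ B₃) n
    have := local_ind_le B₃ (2 * y - n)
    nlinarith
  have hS3 : ∑ n ∈ B₃, ind (A₃ ∩ B₃) (2 * y - n) =
      (((A₃ ∩ B₃).filter (fun x => 2 * y - x ∈ B₃)).card : ℝ) := by
    unfold ind
    rw [sum_boole]
    norm_cast
    refine card_nbij' (fun n => 2 * y - n) (fun n => 2 * y - n) ?_ ?_ ?_ ?_
    · intro n hn
      rw [mem_coe, mem_filter] at hn ⊢
      refine ⟨hn.2, ?_⟩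
      rw [sub_sub_cancel]
      exact hn.1
    · intro n hn
      rw [mem_coe, mem_filter] at hn ⊢
      refine ⟨hn.2, ?_⟩
      rw [sub_sub_cancel]
      exact hn.1
    · intro n _
      simp
    · intro n _
      simp
  have hS3u : ∑ n ∈ B₃, ind (A₃ ∩ B₃) (2 * y - n) ≤ ((A₃ ∩ B₃).card : ℝ) := by
    rw [hS3]
    exact_mod_cast card_filter_le _ _
  have hS3l : ((A₃ ∩ B₃).card : ℝ) - E ≤ ∑ n ∈ B₃, ind (A₃ ∩ B₃) (2 * y - n) := by
    rw [hS3, hE]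
    have h4 := card_filter_add_card_filter_not (s := A₃ ∩ B₃) (fun x => 2 * y - x ∈ B₃)
    have h5 : ((A₃ ∩ B₃).filter (fun x => ¬ 2 * y - x ∈ B₃)).card ≤
        (B₃.filter (fun n => 2 * y - n ∉ B₃)).card :=
      card_le_card (filter_subset_filter _ hX3)
    have h4' : (((A₃ ∩ B₃).filter (fun x => 2 * y - x ∈ B₃)).card : ℝ) +
        (((A₃ ∩ B₃).filter (fun x => ¬ 2 * y - x ∈ B₃)).card : ℝ) = ((A₃ ∩ B₃).card : ℝ) := by
      exact_mod_cast h4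
    have h5' : (((A₃ ∩ B₃).filter (fun x => ¬ 2 * y - x ∈ B₃)).card : ℝ) ≤
        ((B₃.filter (fun n => 2 * y - n ∉ B₃)).card : ℝ) := by
      exact_mod_cast h5
    linarith
  -- the main term
  have hR : ∑ n ∈ B₃, ind (A₁ ∩ B₃) n * ind (A₃ ∩ B₃) (2 * y - n) =
      ((B₃.filter (fun n => n ∈ A₁ ∧ 2 * y - n ∈ A₃ ∩ B₃)).card : ℝ) := by
    rw [card_filter]
    push_cast
    refine sum_congr rfl fun n hn => ?_
    unfold ind
    by_cases h : n ∈ A₁ <;> by_cases h' : 2 * y - n ∈ A₃ ∩ B₃ <;> simp [h, h', hn]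
  have hLR : ((B₃.filter (fun k => y - k ∈ A₁ ∧ y + k ∈ A₃)).card : ℝ) ≤
      ((B₃.filter (fun n => n ∈ A₁ ∧ 2 * y - n ∈ A₃ ∩ B₃)).card : ℝ) + 2 * e₁ * b := by
    have h4 : B₃.filter (fun k => y - k ∈ A₁ ∧ y + k ∈ A₃) ⊆
        ((B₃.filter (fun n => n ∈ A₁ ∧ 2 * y - n ∈ A₃ ∩ B₃)).image (fun n => y - n)) ∪
          (B₃.filter (fun n => n + y ∉ B₃) ∪ B₃.filter (fun n => n - y ∉ B₃)) := by
      intro k hk
      rw [mem_filter] at hk
      rw [mem_union, mem_union, mem_filter, mem_filter, mem_image]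
      by_cases h5 : k + y ∈ B₃
      · by_cases h6 : k - y ∈ B₃
        · left
          refine ⟨y - k, ?_, by ring⟩
          rw [mem_filter, mem_inter]
          have h7 : y - k ∈ B₃ := by
            have := hsym _ h6
            rwa [neg_sub] at this
          have h8 : 2 * y - (y - k) = y + k := by ring
          rw [h8]
          exact ⟨h7, hk.2.1, hk.2.2, by rwa [add_comm]⟩
        · exact Or.inr (Or.inr ⟨hk.1, h6⟩)
      · exact Or.inr (Or.inl ⟨hk.1, h5⟩)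
    have h5 : (B₃.filter (fun k => y - k ∈ A₁ ∧ y + k ∈ A₃)).card ≤
        (B₃.filter (fun n => n ∈ A₁ ∧ 2 * y - n ∈ A₃ ∩ B₃)).card +
          ((B₃.filter (fun n => n + y ∉ B₃)).card + (B₃.filter (fun n => n - y ∉ B₃)).card) :=
      (card_le_card h4).trans ((card_union_le _ _).trans
        (add_le_add card_image_le (card_union_le _ _)))
    have h6 : ((B₃.filter (fun k => y - k ∈ A₁ ∧ y + k ∈ A₃)).card : ℝ) ≤
        ((B₃.filter (fun n => n ∈ A₁ ∧ 2 * y - n ∈ A₃ ∩ B₃)).card : ℝ) +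
          (((B₃.filter (fun n => n + y ∉ B₃)).card : ℝ) +
            ((B₃.filter (fun n => n - y ∉ B₃)).card : ℝ)) := by
      exact_mod_cast h5
    rw [← hb] at h1 h2
    linarith
  have hRL : ((B₃.filter (fun n => n ∈ A₁ ∧ 2 * y - n ∈ A₃ ∩ B₃)).card : ℝ) ≤
      ((B₃.filter (fun k => y - k ∈ A₁ ∧ y + k ∈ A₃)).card : ℝ) + e₁ * b := by
    have h4 : B₃.filter (fun n => n ∈ A₁ ∧ 2 * y - n ∈ A₃ ∩ B₃) ⊆
        ((B₃.filter (fun k => y - k ∈ A₁ ∧ y + k ∈ A₃)).image (fun n => y - n)) ∪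
          B₃.filter (fun n => n - y ∉ B₃) := by
      intro n hn
      rw [mem_filter, mem_inter] at hn
      rw [mem_union, mem_filter, mem_image]
      by_cases h6 : n - y ∈ B₃
      · left
        refine ⟨y - n, ?_, by ring⟩
        rw [mem_filter]
        have h7 : y - n ∈ B₃ := by
          have := hsym _ h6
          rwa [neg_sub] at this
        have h8 : y - (y - n) = n := by ring
        have h9 : y + (y - n) = 2 * y - n := by ring
        rw [h8, h9]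
        exact ⟨h7, hn.2.1, hn.2.2.1⟩
      · exact Or.inr ⟨hn.1, h6⟩
    have h5 : (B₃.filter (fun n => n ∈ A₁ ∧ 2 * y - n ∈ A₃ ∩ B₃)).card ≤
        (B₃.filter (fun k => y - k ∈ A₁ ∧ y + k ∈ A₃)).card +
          (B₃.filter (fun n => n - y ∉ B₃)).card :=
      (card_le_card h4).trans ((card_union_le _ _).trans
        (add_le_add card_image_le le_rfl))
    have h6 : ((B₃.filter (fun n => n ∈ A₁ ∧ 2 * y - n ∈ A₃ ∩ B₃)).card : ℝ) ≤
        ((B₃.filter (fun k => y - k ∈ A₁ ∧ y + k ∈ A₃)).card : ℝ) +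
          ((B₃.filter (fun n => n - y ∉ B₃)).card : ℝ) := by
      exact_mod_cast h5
    rw [← hb] at h2
    linarith
  rw [hR, hS0]
  rw [← hE, ← hb] at h3
  rw [← hb]
  generalize ((B₃.filter (fun n => n ∈ A₁ ∧ 2 * y - n ∈ A₃ ∩ B₃)).card : ℝ) = R at *
  generalize ((B₃.filter (fun k => y - k ∈ A₁ ∧ y + k ∈ A₃)).card : ℝ) = L at *
  generalize ∑ n ∈ B₃, ind (A₃ ∩ B₃) (2 * y - n) = S3 at *
  generalize ∑ n ∈ B₃, ind (A₁ ∩ B₃) n * ind B₃ (2 * y - n) = S1 at *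
  generalize ((A₁ ∩ B₃).card : ℝ) = x1 at *
  generalize ((A₃ ∩ B₃).card : ℝ) = x3 at *
  have he1b : 0 ≤ e₁ * b := mul_nonneg he hb0
  have hαe : α * (e₁ * b) ≤ e₁ * b := by nlinarith
  have hαE : α * E ≤ α * (e₁ * b) := mul_le_mul_of_nonneg_left h3 hα.le
  have hα2E : α ^ 2 * E ≤ e₁ * b := by
    have : α ^ 2 ≤ 1 := by nlinarith
    nlinarith
  have hα2E0 : 0 ≤ α ^ 2 * E := by positivity
  have a1 : α * S1 ≤ α * x1 := mul_le_mul_of_nonneg_left hS1u hα.le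
  have a2 : α * (x1 - E) ≤ α * S1 := mul_le_mul_of_nonneg_left hS1l hα.le
  have a3 : α * S3 ≤ α * x3 := mul_le_mul_of_nonneg_left hS3u hα.le
  have a4 : α * (x3 - E) ≤ α * S3 := mul_le_mul_of_nonneg_left hS3l hα.le
  have key : |L - (α * x1 + α * x3 - α ^ 2 * b) - (R - α * S3 - α * S1 + α ^ 2 * (b - E))| ≤
      3 * e₁ * b := by
    rw [abs_le]
    constructor <;> nlinarith
  have := abs_sub_abs_le_abs_sub (L - (α * x1 + α * x3 - α ^ 2 * b))
    (R - α * S3 - α * S1 + α ^ 2 * (b - E))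
  linarith

private theorem local_lct (A₁ A₂ A₃ B₂ B₃ : Finset ℤ) : lct A₁ A₂ A₃ B₂ B₃ =
    ∑ y ∈ A₂ ∩ B₂, ((B₃.filter (fun k => y - k ∈ A₁ ∧ y + k ∈ A₃)).card : ℝ) := by
  have hC : A₂ ∩ B₂ = B₂.filter (fun y => y ∈ A₂) := by
    ext y
    rw [mem_inter, mem_filter]
    exact and_comm
  rw [lct, card_filter, sum_product, hC, sum_filter]
  push_cast
  refine sum_congr rfl fun y _ => ?_
  by_cases h : y ∈ A₂
  · rw [if_pos h, card_filter]
    push_cast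
    refine sum_congr rfl fun k _ => ?_
    simp [h]
  · rw [if_neg h]
    refine sum_eq_zero fun k _ => ?_
    simp [h]

private theorem local_abs_le (h K : ℝ) (hK : 0 < K) (j : ℕ) (hj : 1 ≤ j) :
    |h| ≤ 2 * K + h ^ (2 * j) / (2 * K) ^ (2 * j - 1) := by
  have hh : h ^ (2 * j) = |h| ^ (2 * j) := (Even.pow_abs ⟨j, by ring⟩ h).symm
  rw [hh]
  have hp : 0 < (2 * K) ^ (2 * j - 1) := by positivity
  by_cases h1 : |h| ≤ 2 * K
  · have : 0 ≤ |h| ^ (2 * j) / (2 * K) ^ (2 * j - 1) := by positivity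
    linarith
  · push Not at h1
    have h2 : |h| ≤ |h| ^ (2 * j) / (2 * K) ^ (2 * j - 1) := by
      rw [le_div_iff₀ hp]
      have h3 : |h| ^ (2 * j) = |h| * |h| ^ (2 * j - 1) := by
        rw [← pow_succ']
        congr 1
        omega
      rw [h3]
      exact mul_le_mul_of_nonneg_left (pow_le_pow_left₀ (by positivity) h1.le _) (abs_nonneg _)
    linarith

private theorem local_four (α : ℝ) (hα : 0 < α) (hα1 : α ≤ 1) (j : ℕ)
    (hj : 4 * Real.log (2 / α) ≤ j) : 1 ≤ 4 ^ j * α := by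
  have h0 : 0 ≤ Real.log (2 / α) := Real.log_nonneg (by rw [le_div_iff₀ hα]; linarith)
  have h1 : Real.log (2 / α) ≤ j := by linarith
  have h2 : 2 / α ≤ Real.exp j := by
    rw [← Real.log_le_iff_le_exp (by positivity)]
    exact h1
  have h3 : Real.exp j ≤ 4 ^ j := by
    rw [← Real.exp_one_pow]
    refine pow_le_pow_left₀ (Real.exp_pos 1).le ?_ _
    have := Real.exp_one_lt_d9
    linarith
  have h4 : 2 / α ≤ 4 ^ j := h2.trans h3
  rw [div_le_iff₀ hα] at h4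
  linarith

theorem p_local : S_dec → S_smooth → S_local := by
  intro hdec hsm A₁ A₂ A₃ B₂ B₂p B₃ B₄ B₅ α e₁ K j hB4 hB5 hB3 hsym hα hα1 he hK hj h1 h2 h3 hsh
    hB2p hC hjα hm1 hm3
  set f1 := bal (A₁ ∩ B₃) B₃ α with hf1
  set f3 := bal (A₃ ∩ B₃) B₃ α with hf3
  have hf1s : (Function.support f1).Finite :=
    B₃.finite_toSet.subset (local_bal_support _ _ inter_subset_right α)
  have hf3s : (Function.support f3).Finite :=
    B₃.finite_toSet.subset (local_bal_support _ _ inter_subset_right α)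
  have heven : ∀ x : ℝ, |x| ^ (2 * j) = x ^ (2 * j) := fun x => Even.pow_abs ⟨j, by ring⟩ x
  simp only [heven] at hm1 hm3
  have henv : ∀ t : ℤ, Env B₄ B₅ (fun v => con f1 f3 (t + v) ^ (2 * j)) ≤ K ^ (2 * j) :=
    fun t => hdec B₄ B₅ f1 f3 j t (K ^ (2 * j)) hf1s hf3s (by positivity) hm1 hm3
  have hsum := hsm B₂ B₂p B₄ B₅ (fun x => con f1 f3 x ^ (2 * j)) (K ^ (2 * j)) hB4 hB5
    (fun x => (even_two_mul j).pow_nonneg _) hsh hB2p henv
  have hCle : ((A₂ ∩ B₂).card : ℝ) ≤ B₂.card := by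
    exact_mod_cast card_le_card inter_subset_right
  obtain ⟨b2, hb2⟩ : ∃ b : ℝ, b = (B₂.card : ℝ) := ⟨_, rfl⟩
  obtain ⟨b3, hb3⟩ : ∃ b : ℝ, b = (B₃.card : ℝ) := ⟨_, rfl⟩
  obtain ⟨cc, hcc⟩ : ∃ b : ℝ, b = ((A₂ ∩ B₂).card : ℝ) := ⟨_, rfl⟩
  have hb20 : 0 ≤ b2 := by rw [hb2]; positivity
  have hb30 : 0 ≤ b3 := by rw [hb3]; positivity
  have hcc0 : 0 ≤ cc := by rw [hcc]; positivity
  -- step 1
  have s1 : |lct A₁ A₂ A₃ B₂ B₃ - ((A₂ ∩ B₂).card : ℝ) * (α * ((A₁ ∩ B₃).card : ℝ) +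
      α * ((A₃ ∩ B₃).card : ℝ) - α ^ 2 * B₃.card)| ≤
      ∑ y ∈ A₂ ∩ B₂, (|con f1 f3 (2 * y)| + 3 * e₁ * B₃.card) := by
    rw [local_lct, ← nsmul_eq_mul, ← sum_const, ← sum_sub_distrib]
    refine (abs_sum_le_sum_abs _ _).trans (sum_le_sum fun y hy => ?_)
    have hyB : y ∈ B₂ := (mem_inter.1 hy).2
    exact local_point A₁ A₃ B₃ α e₁ hsym hα hα1 he y (h1 y hyB) (h2 y hyB) (h3 y hyB)
  refine s1.trans ?_
  rw [sum_add_distrib, sum_const, nsmul_eq_mul]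
  -- step 2
  have hp : 0 < (2 * K) ^ (2 * j - 1) := by positivity
  have s2 : ∑ y ∈ A₂ ∩ B₂, |con f1 f3 (2 * y)| ≤
      cc * (2 * K) + (∑ y ∈ B₂, con f1 f3 (2 * y) ^ (2 * j)) / (2 * K) ^ (2 * j - 1) := by
    calc ∑ y ∈ A₂ ∩ B₂, |con f1 f3 (2 * y)|
        ≤ ∑ y ∈ A₂ ∩ B₂, (2 * K + con f1 f3 (2 * y) ^ (2 * j) / (2 * K) ^ (2 * j - 1)) :=
          sum_le_sum fun y _ => local_abs_le _ K hK j hj
      _ = cc * (2 * K) + (∑ y ∈ A₂ ∩ B₂, con f1 f3 (2 * y) ^ (2 * j)) / (2 * K) ^ (2 * j - 1) := by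
          rw [sum_add_distrib, sum_const, nsmul_eq_mul, sum_div, hcc]
      _ ≤ cc * (2 * K) + (∑ y ∈ B₂, con f1 f3 (2 * y) ^ (2 * j)) / (2 * K) ^ (2 * j - 1) := by
          have : ∑ y ∈ A₂ ∩ B₂, con f1 f3 (2 * y) ^ (2 * j) ≤
              ∑ y ∈ B₂, con f1 f3 (2 * y) ^ (2 * j) :=
            sum_le_sum_of_subset_of_nonneg inter_subset_right
              (fun y _ _ => (even_two_mul j).pow_nonneg _)
          have := div_le_div_of_nonneg_right this hp.le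
          linarith
  have s3 : (∑ y ∈ B₂, con f1 f3 (2 * y) ^ (2 * j)) / (2 * K) ^ (2 * j - 1) ≤
      4 * α * b2 * K := by
    rw [div_le_iff₀ hp]
    refine hsum.trans ?_
    have h4 := local_four α hα hα1 j hjα
    have h5 : (2 * K) ^ (2 * j - 1) * (2 * K) = (4 : ℝ) ^ j * K ^ (2 * j) := by
      rw [← pow_succ, show 2 * j - 1 + 1 = 2 * j by omega, mul_pow, pow_mul, pow_mul]
      norm_num
    have h6 : 4 * α * b2 * K * (2 * K) ^ (2 * j - 1) =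
        2 * α * b2 * ((2 * K) ^ (2 * j - 1) * (2 * K)) := by ring
    rw [h6, h5, ← hb2]
    have h7 : 0 ≤ b2 * K ^ (2 * j) := by positivity
    have h8 : 2 * α * b2 * (4 ^ j * K ^ (2 * j)) = 2 * (b2 * K ^ (2 * j)) * (4 ^ j * α) := by ring
    rw [h8]
    nlinarith
  rw [← hb2] at hC hCle ⊢
  rw [← hcc] at hC hCle ⊢
  rw [← hb3]
  have s4 : cc * (2 * K) ≤ 4 * α * b2 * K := by nlinarith
  have s5 : cc * (3 * e₁ * b3) ≤ 3 * (e₁ * b2 * b3) := by
    have : 0 ≤ e₁ * b3 := mul_nonneg he hb30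
    nlinarith
  have s6 : 0 ≤ e₁ * b2 * b3 := by positivity
  have s7 : 0 ≤ α * b2 * K := by positivity
  nlinarith

end Pool.Agent.APP
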