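import Pool.Agent.Lib.MP_8a4e59_co.A.StmB

set_option autoImplicit false

namespace Pool.Agent.APP

open Finset

private lemma mom_filter {P : Finset ℤ} {e : ℝ} (S : Finset ℤ) (hS : S ⊆ P) (p : ℤ → Prop)
    [DecidablePred p] (h : ((P.filter (fun n => ¬ p n)).card : ℝ) ≤ e) :
    ((S.filter p).card : ℝ) ≤ S.card ∧ (S.card : ℝ) - e ≤ ((S.filter p).card : ℝ) := by
  constructor
  · exact_mod_cast Finset.card_filter_le S p
  · have h1 := Finset.card_filter_add_card_filter_not (s := S) p
    have h2 : (S.filter (fun n => ¬ p n)).card ≤ (P.filter (fun n => ¬ p n)).card :=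
      Finset.card_le_card (Finset.filter_subset_filter _ hS)
    have h3 : (((S.filter p).card + (S.filter (fun n => ¬ p n)).card : ℕ) : ℝ) = S.card := by
      exact_mod_cast h1
    have h4 : ((S.filter (fun n => ¬ p n)).card : ℝ) ≤ ((P.filter (fun n => ¬ p n)).card : ℝ) := by
      exact_mod_cast h2
    push_cast at h3
    linarith

/-- the autocorrelation of the balanced function -/
theorem mom_cor {P X : Finset ℤ} {α e₁ : ℝ} {v : ℤ} (hX : X ⊆ P) (hα0 : 0 ≤ α) (hα1 : α ≤ 1)
    (he : 0 ≤ e₁)
    (h1 : ((P.filter (fun n => n + v ∉ P)).card : ℝ) ≤ e₁ * P.card)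
    (h2 : ((P.filter (fun n => n - v ∉ P)).card : ℝ) ≤ e₁ * P.card) :
    |cor (bal X P α) (bal X P α) v - (rr X v - 2 * α * X.card + α ^ 2 * P.card)| ≤
      4 * α * e₁ * P.card := by
  classical
  -- the finite sum
  have hsupp : ∀ y, y ∉ P → bal X P α y = 0 := by
    intro y hy
    have hy' : y ∉ X := fun h => hy (hX h)
    simp [bal, ind, hy, hy']
  have hcor : cor (bal X P α) (bal X P α) v =
      ∑ y ∈ P, bal X P α y * bal X P α (y + v) := by
    unfold cor
    apply finsum_eq_sum_of_support_subset
    intro y hy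
    rw [Function.mem_support] at hy
    rw [Finset.mem_coe]
    by_contra h
    apply hy
    rw [hsupp y h, zero_mul]
  -- the four counts
  have hsum : ∑ y ∈ P, bal X P α y * bal X P α (y + v) =
      ((X.filter (fun y => y + v ∈ X)).card : ℝ) - α * ((X.filter (fun y => y + v ∈ P)).card : ℝ)
      - α * ((P.filter (fun y => y + v ∈ X)).card : ℝ)
      + α ^ 2 * ((P.filter (fun y => y + v ∈ P)).card : ℝ) := by
    have e1 : ((X.filter (fun y => y + v ∈ X)).card : ℝ) = ∑ y ∈ P, ind X y * ind X (y + v) := by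
      rw [Finset.card_filter]
      push_cast
      rw [← Finset.sum_subset hX]
      · apply Finset.sum_congr rfl
        intro y hy
        simp [ind, hy]
      · intro y _ hy
        simp [ind, hy]
    have e2 : ((X.filter (fun y => y + v ∈ P)).card : ℝ) = ∑ y ∈ P, ind X y * ind P (y + v) := by
      rw [Finset.card_filter]
      push_cast
      rw [← Finset.sum_subset hX]
      · apply Finset.sum_congr rfl
        intro y hy
        simp [ind, hy]
      · intro y _ hy
        simp [ind, hy]
    have e3 : ((P.filter (fun y => y + v ∈ X)).card : ℝ) = ∑ y ∈ P, ind P y * ind X (y + v) := by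
      rw [Finset.card_filter]
      push_cast
      apply Finset.sum_congr rfl
      intro y hy
      simp [ind, hy]
    have e4 : ((P.filter (fun y => y + v ∈ P)).card : ℝ) = ∑ y ∈ P, ind P y * ind P (y + v) := by
      rw [Finset.card_filter]
      push_cast
      apply Finset.sum_congr rfl
      intro y hy
      simp [ind, hy]
    rw [e1, e2, e3, e4, Finset.mul_sum, Finset.mul_sum, Finset.mul_sum, ← Finset.sum_sub_distrib,
      ← Finset.sum_sub_distrib, ← Finset.sum_add_distrib]
    apply Finset.sum_congr rfl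
    intro y _
    unfold bal
    ring
  -- the third count
  have h3 : ((P.filter (fun y => y + v ∈ X)).card : ℝ) =
      ((X.filter (fun x => x - v ∈ P)).card : ℝ) := by
    have : (P.filter (fun y => y + v ∈ X)).card = (X.filter (fun x => x - v ∈ P)).card := by
      apply Finset.card_bij (fun y _ => y + v)
      · intro y hy
        rw [Finset.mem_filter] at hy ⊢
        exact ⟨hy.2, by rw [add_sub_cancel_right]; exact hy.1⟩
      · intro a _ b _ h
        exact add_right_cancel h
      · intro x hx
        rw [Finset.mem_filter] at hx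
        refine ⟨x - v, ?_, by ring⟩
        rw [Finset.mem_filter]
        exact ⟨hx.2, by rw [sub_add_cancel]; exact hx.1⟩
    exact_mod_cast this
  obtain ⟨a1, a2⟩ := mom_filter X hX (fun y => y + v ∈ P) h1
  obtain ⟨b1, b2⟩ := mom_filter X hX (fun y => y - v ∈ P) h2
  obtain ⟨c1, c2⟩ := mom_filter P (Finset.Subset.refl P) (fun y => y + v ∈ P) h1
  rw [hcor, hsum, h3]
  unfold rr
  set n1 := ((X.filter (fun y => y + v ∈ P)).card : ℝ) with hn1
  set n2 := ((X.filter (fun x => x - v ∈ P)).card : ℝ) with hn2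
  set n3 := ((P.filter (fun y => y + v ∈ P)).card : ℝ) with hn3
  set E := e₁ * (P.card : ℝ) with hE
  have hE0 : 0 ≤ E := by positivity
  have m1 : 0 ≤ α * ((X.card : ℝ) - n1) := mul_nonneg hα0 (by linarith)
  have m1' : α * ((X.card : ℝ) - n1) ≤ α * E := mul_le_mul_of_nonneg_left (by linarith) hα0
  have m2 : 0 ≤ α * ((X.card : ℝ) - n2) := mul_nonneg hα0 (by linarith)
  have m2' : α * ((X.card : ℝ) - n2) ≤ α * E := mul_le_mul_of_nonneg_left (by linarith) hα0
  have m3 : 0 ≤ α ^ 2 * ((P.card : ℝ) - n3) := mul_nonneg (by positivity) (by linarith)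
  have m3' : α ^ 2 * ((P.card : ℝ) - n3) ≤ α * E := by
    have : α ^ 2 ≤ α := by nlinarith
    calc α ^ 2 * ((P.card : ℝ) - n3) ≤ α ^ 2 * E := mul_le_mul_of_nonneg_left (by linarith)
          (by positivity)
      _ ≤ α * E := mul_le_mul_of_nonneg_right this hE0
  have hαE : 0 ≤ α * E := mul_nonneg hα0 hE0
  have e5 : 4 * α * e₁ * (P.card : ℝ) = 4 * (α * E) := by rw [hE]; ring
  rw [e5, abs_le]
  constructor <;> nlinarith

end Pool.Agent.APP
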