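import Pool.Agent.Lib.MP_8a4e59_co.A.StmB
import Pool.Agent.Lib.MP_8a4e59_co.A.P.momCor

set_option autoImplicit false

namespace Pool.Agent.APP

open Finset

/-- the shift given by an index -/
private def momA_v (i : (ℤ × ℤ) × (ℤ × ℤ)) : ℤ := 2 * ((i.1.1 + i.1.2) - (i.2.1 + i.2.2))

private lemma momA_env (B₄ B₅ : Finset ℤ) (G : ℤ → ℝ) :
    Env B₄ B₅ G = (∑ i ∈ (B₄ ×ˢ B₅) ×ˢ (B₄ ×ˢ B₅), G (momA_v i)) /
      (((B₄ ×ˢ B₅) ×ˢ (B₄ ×ˢ B₅)).card : ℝ) := by
  unfold Env momA_v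
  rw [Finset.sum_product (s := B₄ ×ˢ B₅) (t := B₄ ×ˢ B₅)]
  congr 1
  rw [Finset.card_product, Finset.card_product]
  push_cast
  ring

theorem p_momA (h : S_pm) : S_momA := by
  intro B₄ B₅ P X α η ε e₁ p q h4 h5 hPn hX hα0 hα1 hη0 hη1 hε0 hε1 he0 he1 hA hXc hE hp hpq
  set Ω := (B₄ ×ˢ B₅) ×ˢ (B₄ ×ˢ B₅) with hΩ
  have hΩn : Ω.Nonempty := (h4.product h5).product (h4.product h5)
  have hΩc : (0 : ℝ) < Ω.card := by exact_mod_cast hΩn.card_pos
  have hPc : (0 : ℝ) < P.card := by exact_mod_cast hPn.card_pos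
  set T : ℝ := α ^ 2 * P.card with hT
  have hT0 : 0 < T := by positivity
  set K : ℝ := (1 + η) ^ 2 * (1 + ε) * α ^ 2 * P.card with hK
  have hKT : K = (1 + η) ^ 2 * (1 + ε) * T := by rw [hK, hT]; ring
  have hK0 : 0 < K := by positivity
  have hK1 : K ≤ 1.331 * T := by
    rw [hKT]
    apply mul_le_mul_of_nonneg_right _ hT0.le
    have h1 : (1 + η) ^ 2 ≤ 1.21 := by nlinarith
    have h2 : (1 + η) ^ 2 * (1 + ε) ≤ 1.21 * 1.1 :=
      mul_le_mul h1 (by linarith) (by linarith) (by norm_num)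
    linarith
  -- moments of rr
  have hrr0 : ∀ v, 0 ≤ rr X v := fun v => by
    unfold rr
    positivity
  rw [momA_env] at hE ⊢
  rw [← hΩ] at hE ⊢
  rw [div_le_iff₀ hΩc] at hE ⊢
  have hmom : ∑ i ∈ Ω, rr X (momA_v i) ^ p ≤ K ^ p * Ω.card :=
    h _ Ω (fun i => rr X (momA_v i)) K p q (fun i _ => hrr0 _) hK0 hp hpq hE
  -- pointwise bound
  have hpt : ∀ i ∈ Ω, |cor (bal X P α) (bal X P α) (momA_v i)| ≤
      rr X (momA_v i) + 1.6 * T := by
    intro i hi
    rw [hΩ, Finset.mem_product] at hi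
    have h1 := hA i.1 hi.1 i.2 hi.2
    have h2 := hA i.2 hi.2 i.1 hi.1
    have h2' : ((P.filter (fun n => n - momA_v i ∉ P)).card : ℝ) ≤ e₁ * P.card := by
      refine le_trans (le_of_eq ?_) h2
      congr 2
      apply Finset.filter_congr
      intro n _
      have : n - momA_v i = n + 2 * ((i.2.1 + i.2.2) - (i.1.1 + i.1.2)) := by
        unfold momA_v
        ring
      rw [this]
    have h3 := mom_cor (v := momA_v i) hX hα0.le hα1 he0 h1 h2'
    rw [abs_le] at h3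
    have hr := hrr0 (momA_v i)
    have hx0 : (0 : ℝ) ≤ X.card := Nat.cast_nonneg _
    have e1 : 4 * α * e₁ * (P.card : ℝ) ≤ 0.4 * T := by
      rw [hT]
      have : 4 * α * e₁ * (P.card : ℝ) ≤ 4 * α * (α / 10) * P.card := by gcongr
      linarith
    have e2 : 2 * α * (X.card : ℝ) ≤ 2.2 * T := by
      have : 2 * α * (X.card : ℝ) ≤ 2 * α * ((1 + η) * α * P.card) := by gcongr
      have h4 : 2 * α * ((1 + η) * α * P.card) = 2 * (1 + η) * T := by rw [hT]; ring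
      have h5 : 2 * (1 + η) * T ≤ 2.2 * T := mul_le_mul_of_nonneg_right (by linarith) hT0.le
      linarith
    have e3 : 0 ≤ 2 * α * (X.card : ℝ) := by positivity
    rw [abs_le]
    constructor <;> linarith [h3.1, h3.2]
  have hfin : (2 : ℝ) ^ p * (K ^ p + (1.6 * T) ^ p) ≤ (8 * T) ^ p := by
    have h1 : K ^ p ≤ (1.331 * T) ^ p := pow_le_pow_left₀ hK0.le hK1 p
    have h2 : (1.331 * T) ^ p + (1.6 * T) ^ p ≤ (1.331 * T + 1.6 * T) ^ p :=
      pow_add_pow_le (by positivity) (by positivity) (by omega)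
    calc (2 : ℝ) ^ p * (K ^ p + (1.6 * T) ^ p) ≤ 2 ^ p * (1.331 * T + 1.6 * T) ^ p := by
          gcongr
          linarith
      _ = (2 * (1.331 * T + 1.6 * T)) ^ p := by rw [mul_pow]
      _ ≤ (8 * T) ^ p := by
        apply pow_le_pow_left₀ (by positivity)
        linarith
  calc ∑ i ∈ Ω, |cor (bal X P α) (bal X P α) (momA_v i)| ^ p
      ≤ ∑ i ∈ Ω, 2 ^ p * (rr X (momA_v i) ^ p + (1.6 * T) ^ p) := by
        apply Finset.sum_le_sum
        intro i hi
        calc |cor (bal X P α) (bal X P α) (momA_v i)| ^ p ≤ (rr X (momA_v i) + 1.6 * T) ^ p :=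
              pow_le_pow_left₀ (abs_nonneg _) (hpt i hi) p
          _ ≤ 2 ^ (p - 1) * (rr X (momA_v i) ^ p + (1.6 * T) ^ p) :=
              add_pow_le (hrr0 _) (by positivity) p
          _ ≤ 2 ^ p * (rr X (momA_v i) ^ p + (1.6 * T) ^ p) := by
              have := hrr0 (momA_v i)
              gcongr
              · norm_num
              · omega
    _ = 2 ^ p * (∑ i ∈ Ω, rr X (momA_v i) ^ p + Ω.card * (1.6 * T) ^ p) := by
        rw [← Finset.mul_sum, Finset.sum_add_distrib, Finset.sum_const, nsmul_eq_mul]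
    _ ≤ 2 ^ p * (K ^ p * Ω.card + Ω.card * (1.6 * T) ^ p) := by gcongr
    _ = (2 ^ p * (K ^ p + (1.6 * T) ^ p)) * Ω.card := by ring
    _ ≤ (8 * T) ^ p * Ω.card := by gcongr
    _ = (8 * α ^ 2 * P.card) ^ p * Ω.card := by rw [hT]; ring_nf

end Pool.Agent.APP
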