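import Pool.Agent.Lib.MP_8a4e59_co.A.StmB

set_option autoImplicit false

/-! Moments of balanced functions, fine bound (piece momB of part A). -/

namespace Pool.Agent.APP

open Finset

theorem momB_supp (X P : Finset ℤ) (α : ℝ) (hXP : X ⊆ P) :
    Function.support (bal X P α) ⊆ (P : Set ℤ) := by
  intro n hn
  by_contra h
  apply hn
  have h1 : n ∉ P := fun h' => h (by exact_mod_cast h')
  have h2 : n ∉ X := fun h' => h1 (hXP h')
  simp [bal, ind, h1, h2]

/-- comparison of the correlation of a balanced function with the representation count -/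
theorem momB_cor (X P : Finset ℤ) (α e₁ : ℝ) (v : ℤ) (hXP : X ⊆ P) (hα : 0 < α) (hα1 : α ≤ 1)
    (h1 : ((P.filter (fun n => n + v ∉ P)).card : ℝ) ≤ e₁ * P.card)
    (h2 : ((P.filter (fun n => n - v ∉ P)).card : ℝ) ≤ e₁ * P.card) :
    |cor (bal X P α) (bal X P α) v - (rr X v - 2 * α * X.card + α ^ 2 * P.card)| ≤
      4 * α * e₁ * P.card := by
  classical
  have hsum : cor (bal X P α) (bal X P α) v =
      ∑ y ∈ P, (ind X y - α) * (ind X (y + v) - α * ind P (y + v)) := by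
    rw [cor, finsum_eq_sum_of_support_subset (s := P)]
    · refine sum_congr rfl fun y hy => ?_
      simp only [bal]
      congr 2
      simp [ind, hy]
    · intro y hy
      have : y ∈ Function.support (bal X P α) := by
        intro h
        apply hy
        simp [h]
      exact momB_supp X P α hXP this
  have e1 : ∑ y ∈ P, ind X y * ind X (y + v) = rr X v := by
    rw [rr]
    rw [card_filter]
    push_cast
    rw [← sum_subset hXP]
    · refine sum_congr rfl fun y hy => ?_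
      simp [ind, hy]
    · intro y _ hy
      simp [ind, hy]
  have e2 : ∑ y ∈ P, ind X y * ind P (y + v) =
      X.card - ((X.filter (fun n => n + v ∉ P)).card : ℝ) := by
    have : ((X.filter (fun n => n + v ∈ P)).card : ℝ) + ((X.filter (fun n => n + v ∉ P)).card : ℝ)
        = X.card := by
      exact_mod_cast card_filter_add_card_filter_not (s := X) (fun n => n + v ∈ P)
    rw [← this, add_sub_cancel_right, card_filter]
    push_cast
    rw [← sum_subset hXP]
    · refine sum_congr rfl fun y hy => ?_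
      simp [ind, hy]
    · intro y _ hy
      simp [ind, hy]
  have e3 : ∑ y ∈ P, ind X (y + v) = X.card - ((X.filter (fun n => n - v ∉ P)).card : ℝ) := by
    have : ((X.filter (fun n => n - v ∈ P)).card : ℝ) + ((X.filter (fun n => n - v ∉ P)).card : ℝ)
        = X.card := by
      exact_mod_cast card_filter_add_card_filter_not (s := X) (fun n => n - v ∈ P)
    rw [← this, add_sub_cancel_right]
    simp only [ind]
    rw [← Finset.natCast_card_filter]
    norm_cast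
    refine card_bij (fun y _ => y + v) ?_ ?_ ?_
    · intro y hy
      rw [mem_filter] at hy ⊢
      exact ⟨hy.2, by simpa using hy.1⟩
    · intro y _ z _ h
      simpa using h
    · intro y hy
      rw [mem_filter] at hy
      exact ⟨y - v, mem_filter.2 ⟨hy.2, by simpa using hy.1⟩, by simp⟩
  have e4 : ∑ y ∈ P, ind P (y + v) = P.card - ((P.filter (fun n => n + v ∉ P)).card : ℝ) := by
    have : ((P.filter (fun n => n + v ∈ P)).card : ℝ) + ((P.filter (fun n => n + v ∉ P)).card : ℝ)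
        = P.card := by
      exact_mod_cast card_filter_add_card_filter_not (s := P) (fun n => n + v ∈ P)
    rw [← this, add_sub_cancel_right]
    simp only [ind]
    rw [← Finset.natCast_card_filter]
  have hexp : cor (bal X P α) (bal X P α) v = rr X v
      - α * (X.card - ((X.filter (fun n => n + v ∉ P)).card : ℝ))
      - α * (X.card - ((X.filter (fun n => n - v ∉ P)).card : ℝ))
      + α ^ 2 * (P.card - ((P.filter (fun n => n + v ∉ P)).card : ℝ)) := by
    rw [hsum, ← e1, ← e2, ← e3, ← e4, mul_sum, mul_sum, mul_sum, ← sum_sub_distrib,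
      ← sum_sub_distrib, ← sum_add_distrib]
    refine sum_congr rfl fun y _ => ?_
    ring
  have b1 : ((X.filter (fun n => n + v ∉ P)).card : ℝ) ≤ e₁ * P.card := by
    refine le_trans ?_ h1
    exact_mod_cast card_le_card (filter_subset_filter _ hXP)
  have b2 : ((X.filter (fun n => n - v ∉ P)).card : ℝ) ≤ e₁ * P.card := by
    refine le_trans ?_ h2
    exact_mod_cast card_le_card (filter_subset_filter _ hXP)
  set a := ((X.filter (fun n => n + v ∉ P)).card : ℝ)
  set b := ((X.filter (fun n => n - v ∉ P)).card : ℝ)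
  set c := ((P.filter (fun n => n + v ∉ P)).card : ℝ)
  have ha : 0 ≤ a := Nat.cast_nonneg _
  have hb : 0 ≤ b := Nat.cast_nonneg _
  have hc : 0 ≤ c := Nat.cast_nonneg _
  have hd : cor (bal X P α) (bal X P α) v - (rr X v - 2 * α * X.card + α ^ 2 * P.card) =
      α * (a + b) - α ^ 2 * c := by
    rw [hexp]; ring
  rw [hd, abs_le]
  have h3 : α ^ 2 * c ≤ α * (e₁ * P.card) := by
    have : α ^ 2 ≤ α := by nlinarith
    calc α ^ 2 * c ≤ α * c := mul_le_mul_of_nonneg_right this hc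
      _ ≤ _ := mul_le_mul_of_nonneg_left h1 hα.le
  have h4 : α * a ≤ α * (e₁ * P.card) := mul_le_mul_of_nonneg_left b1 hα.le
  have h5 : α * b ≤ α * (e₁ * P.card) := mul_le_mul_of_nonneg_left b2 hα.le
  have h6 : 0 ≤ α * a := mul_nonneg hα.le ha
  have h7 : 0 ≤ α * b := mul_nonneg hα.le hb
  have h8 : 0 ≤ α ^ 2 * c := by positivity
  constructor <;> nlinarith

theorem momB_env (B₄ B₅ : Finset ℤ) (G : ℤ → ℝ) :
    Env B₄ B₅ G = (∑ x ∈ (B₄ ×ˢ B₅) ×ˢ (B₄ ×ˢ B₅),
      G (2 * ((x.1.1 + x.1.2) - (x.2.1 + x.2.2)))) / ((B₄.card : ℝ) * B₅.card) ^ 2 := by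
  rw [Env, sum_product (s := B₄ ×ˢ B₅) (t := B₄ ×ˢ B₅)]

/-- power mean version of the triangle inequality -/
theorem momB_mink {ι : Type} (Ω : Finset ι) (Y : ι → ℝ) (K c : ℝ) (m : ℕ) (hY : ∀ i ∈ Ω, 0 ≤ Y i)
    (hK : 0 < K) (hc : 0 ≤ c) (h : ∑ i ∈ Ω, Y i ^ m ≤ K ^ m * Ω.card) :
    ∑ i ∈ Ω, (Y i + c) ^ m ≤ (K + c) ^ m * Ω.card := by
  have hKc : 0 < K + c := by linarith
  have key : ∀ i ∈ Ω, (Y i + c) ^ m ≤ (K + c) ^ m * (K / (K + c) * (Y i / K) ^ m + c / (K + c)) := by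
    intro i hi
    have hconv := (convexOn_pow m : ConvexOn ℝ (Set.Ici 0) fun x : ℝ => x ^ m)
    have hx : Y i / K ∈ Set.Ici (0 : ℝ) := div_nonneg (hY i hi) hK.le
    have hy : (1 : ℝ) ∈ Set.Ici (0 : ℝ) := Set.mem_Ici.2 zero_le_one
    have ha : 0 ≤ K / (K + c) := by positivity
    have hb : 0 ≤ c / (K + c) := by positivity
    have hab : K / (K + c) + c / (K + c) = 1 := by
      rw [← add_div, div_self hKc.ne']
    have h1 := hconv.2 hx hy ha hb hab
    simp only [smul_eq_mul, one_pow, mul_one] at h1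
    have h2 : K / (K + c) * (Y i / K) + c / (K + c) = (Y i + c) / (K + c) := by
      field_simp
    rw [h2] at h1
    have h3 : (Y i + c) ^ m = (K + c) ^ m * ((Y i + c) / (K + c)) ^ m := by
      rw [← mul_pow]
      congr 1
      field_simp
    rw [h3]
    exact mul_le_mul_of_nonneg_left h1 (by positivity)
  refine (sum_le_sum key).trans ?_
  rw [← mul_sum, sum_add_distrib, ← mul_sum, sum_const, nsmul_eq_mul]
  refine mul_le_mul_of_nonneg_left ?_ (by positivity)
  have h4 : ∑ i ∈ Ω, (Y i / K) ^ m ≤ Ω.card := by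
    have : ∑ i ∈ Ω, (Y i / K) ^ m = (∑ i ∈ Ω, Y i ^ m) / K ^ m := by
      rw [sum_div]
      exact sum_congr rfl fun i _ => div_pow _ _ _
    rw [this, div_le_iff₀ (by positivity)]
    linarith
  have h5 : K / (K + c) * ∑ i ∈ Ω, (Y i / K) ^ m ≤ K / (K + c) * Ω.card :=
    mul_le_mul_of_nonneg_left h4 (by positivity)
  have h6 : K / (K + c) * (Ω.card : ℝ) + Ω.card * (c / (K + c)) = Ω.card := by
    field_simp
  linarith

theorem momB_cmp (r C x α P β η e₁ : ℝ) (hr : 0 ≤ r) (hα : 0 < α) (hP0 : 0 < P) (_he : 0 ≤ e₁)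
    (hX1 : x ≤ (1 + η) * α * P) (hX2 : (1 - β) * α * P ≤ x) (_hβ : 0 ≤ β) (_hη : 0 ≤ η)
    (hcor : |C - (r - 2 * α * x + α ^ 2 * P)| ≤ 4 * α * e₁ * P) :
    |1 + C / (α ^ 2 * P)| ≤ r / (α ^ 2 * P) + (2 * (β + η) + 4 * e₁ / α) := by
  have hM0 : 0 < α ^ 2 * P := by positivity
  have h1 : 1 + C / (α ^ 2 * P) = r / (α ^ 2 * P) + 2 * (1 - x / (α * P)) +
      (C - (r - 2 * α * x + α ^ 2 * P)) / (α ^ 2 * P) := by
    field_simp
    ring
  have h2 : |1 - x / (α * P)| ≤ β + η := by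
    have hαP : 0 < α * P := by positivity
    rw [abs_le]
    constructor
    · have : x / (α * P) ≤ 1 + η := by
        rw [div_le_iff₀ hαP]
        linarith
      linarith
    · have : 1 - β ≤ x / (α * P) := by
        rw [le_div_iff₀ hαP]
        linarith
      linarith
  have h3 : |(C - (r - 2 * α * x + α ^ 2 * P)) / (α ^ 2 * P)| ≤ 4 * e₁ / α := by
    rw [abs_div, abs_of_pos hM0, div_le_div_iff₀ hM0 hα]
    calc _ ≤ 4 * α * e₁ * P * α := mul_le_mul_of_nonneg_right hcor hα.le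
      _ = _ := by ring
  rw [h1]
  have h4 : 0 ≤ r / (α ^ 2 * P) := div_nonneg hr hM0.le
  rw [abs_le] at h2 h3 ⊢
  generalize (C - (r - 2 * α * x + α ^ 2 * P)) / (α ^ 2 * P) = E at h3 ⊢
  generalize x / (α * P) = E' at h2 ⊢
  generalize r / (α ^ 2 * P) = y at h4 ⊢
  obtain ⟨h21, h22⟩ := h2
  obtain ⟨h31, h32⟩ := h3
  constructor <;> linarith

theorem momB_lt (η β ε a ζ : ℝ) (hη : 0 ≤ η) (hη1 : η ≤ 1 / 10) (hε : 0 ≤ ε) (_hε1 : ε ≤ 1 / 10)
    (hβ : 0 ≤ β) (ha : 0 ≤ a) (hζ : 0 < ζ) (hζ2 : 16 * (2 * ε + 4 * η + 2 * β + a) ≤ ζ) :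
    (1 + η) ^ 2 * (1 + ε) + (2 * (β + η) + a) < 1 + ζ / 4 := by
  have h1 : (1 + η) ^ 2 * (1 + ε) ≤ 1 + 21 / 10 * η + 121 / 100 * ε := by
    have : η * η ≤ 1 / 10 * η := mul_le_mul_of_nonneg_right hη1 hη
    have h2 : (1 + η) ^ 2 ≤ 121 / 100 := by nlinarith
    have h3 : (1 + η) ^ 2 * ε ≤ 121 / 100 * ε := mul_le_mul_of_nonneg_right h2 hε
    nlinarith
  linarith

theorem p_momB (hpm : S_pm) (hunbal : S_unbal) (hpos : S_pos) : S_momB := by
  classical
  intro B₄ B₅ P X α η β ε e₁ ζ p q hB₄ hB₅ hP hXP hα hα1 hη hη1 hε hε1 hβ he he1 hAI hX1 hX2 hq hp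
    hζ hζ1 hζ2 hpq
  by_contra hcon
  rw [not_le] at hcon
  set Ω := (B₄ ×ˢ B₅) ×ˢ (B₄ ×ˢ B₅) with hΩ
  set vv : (ℤ × ℤ) × (ℤ × ℤ) → ℤ := fun x => 2 * ((x.1.1 + x.1.2) - (x.2.1 + x.2.2)) with hvv
  have hP0 : (0 : ℝ) < P.card := by exact_mod_cast hP.card_pos
  have hcard : ((B₄.card : ℝ) * B₅.card) ^ 2 = (Ω.card : ℝ) := by
    rw [hΩ, card_product, card_product]
    push_cast
    ring
  have hΩne : Ω.Nonempty := (hB₄.product hB₅).product (hB₄.product hB₅)
  have hn : (0 : ℝ) < Ω.card := by exact_mod_cast hΩne.card_pos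
  set M : ℝ := α ^ 2 * P.card with hM
  have hM0 : 0 < M := by positivity
  set f := bal X P α with hf
  set F : (ℤ × ℤ) × (ℤ × ℤ) → ℝ := fun x => cor f f (vv x) / M with hF
  set Y : (ℤ × ℤ) × (ℤ × ℤ) → ℝ := fun x => rr X (vv x) / M with hY
  set K : ℝ := (1 + η) ^ 2 * (1 + ε) with hK
  have hK0 : 0 < K := by positivity
  set c : ℝ := 2 * (β + η) + 4 * e₁ / α with hc
  have hc0 : 0 ≤ c := by positivity
  set p' : ℕ := ⌈8 * (p + 5) / ζ * Real.log (6 / ζ)⌉₊ with hp'
  have hlog : 0 < Real.log (6 / ζ) := by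
    apply Real.log_pos
    rw [lt_div_iff₀ hζ]
    linarith
  have hpos' : 0 < 8 * (p + 5) / ζ * Real.log (6 / ζ) := by positivity
  have hp'1 : 1 ≤ p' := Nat.one_le_iff_ne_zero.2 (Nat.ceil_pos.2 hpos').ne'
  have hp'q : p' ≤ q := by
    have h1 := Nat.ceil_lt_add_one hpos'.le
    have h2 : (p' : ℝ) < q + 1 := by
      rw [hp']
      linarith
    have h3 : p' < q + 1 := by exact_mod_cast h2
    omega
  -- the moment of `F`
  have hFp : ζ ^ p * Ω.card ≤ ∑ i ∈ Ω, |F i| ^ p := by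
    rw [momB_env, hcard, lt_div_iff₀ hn] at hcon
    have h1 : ∑ i ∈ Ω, |F i| ^ p = (∑ x ∈ Ω, |cor f f (vv x)| ^ p) / M ^ p := by
      rw [sum_div]
      refine sum_congr rfl fun i _ => ?_
      rw [hF]
      simp only
      rw [abs_div, abs_of_pos hM0, div_pow]
    rw [h1, le_div_iff₀ (by positivity)]
    have h2 : ζ ^ p * Ω.card * M ^ p = (ζ * α ^ 2 * P.card) ^ p * Ω.card := by
      rw [hM]
      rw [mul_right_comm, ← mul_pow, ← mul_assoc]
    rw [h2]
    exact hcon.le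
  have hodd : ∀ k, Odd k → 0 ≤ ∑ i ∈ Ω, F i ^ k := by
    intro k _
    have h1 := hpos B₄ B₅ f k ((P.finite_toSet).subset (momB_supp X P α hXP))
    rw [momB_env, hcard, le_div_iff₀ hn, zero_mul] at h1
    have h2 : ∑ i ∈ Ω, F i ^ k = (∑ x ∈ Ω, cor f f (vv x) ^ k) / M ^ k := by
      rw [sum_div]
      exact sum_congr rfl fun i _ => div_pow _ _ _
    rw [h2]
    exact div_nonneg h1 (by positivity)
  have hlow := hunbal _ Ω F ζ p p' hΩne hζ hζ1 hp hodd hFp (Nat.le_ceil _)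
  -- the moment of `Y`
  have hY0 : ∀ i ∈ Ω, 0 ≤ Y i := fun i _ => div_nonneg (Nat.cast_nonneg _) hM0.le
  have hYq : ∑ i ∈ Ω, Y i ^ q ≤ K ^ q * Ω.card := by
    rw [momB_env, hcard, div_le_iff₀ hn] at hq
    have h1 : ∑ i ∈ Ω, Y i ^ q = (∑ x ∈ Ω, rr X (vv x) ^ q) / M ^ q := by
      rw [sum_div]
      exact sum_congr rfl fun i _ => div_pow _ _ _
    rw [h1, div_le_iff₀ (by positivity)]
    have h2 : K ^ q * Ω.card * M ^ q = ((1 + η) ^ 2 * (1 + ε) * α ^ 2 * P.card) ^ q * Ω.card := by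
      rw [hM, hK]
      rw [mul_right_comm, ← mul_pow, ← mul_assoc]
    rw [h2]
    exact hq
  have hYp := hpm _ Ω Y K p' q hY0 hK0 hp'1 hp'q hYq
  have hmink := momB_mink Ω Y K c p' hY0 hK0 hc0 hYp
  -- comparison
  have hcmp : ∀ i ∈ Ω, |1 + F i| ≤ Y i + c := by
    intro i hi
    rw [hΩ, mem_product] at hi
    have a1 := hAI i.1 hi.1 i.2 hi.2
    have a2 := hAI i.2 hi.2 i.1 hi.1
    have hneg : ∀ n : ℤ, n + 2 * (i.2.1 + i.2.2 - (i.1.1 + i.1.2)) = n - vv i := by
      intro n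
      rw [hvv]
      ring
    simp only [hneg] at a2
    have hcor := momB_cor X P α e₁ (vv i) hXP hα hα1 a1 a2
    exact momB_cmp (rr X (vv i)) (cor f f (vv i)) X.card α P.card β η e₁ (Nat.cast_nonneg _) hα hP0
      he hX1 hX2 hβ hη hcor
  have hup : ∑ i ∈ Ω, |1 + F i| ^ p' ≤ (K + c) ^ p' * Ω.card := by
    refine le_trans (sum_le_sum fun i hi => ?_) hmink
    exact pow_le_pow_left₀ (abs_nonneg _) (hcmp i hi) _
  have hlt : K + c < 1 + ζ / 4 := momB_lt η β ε (4 * e₁ / α) ζ hη hη1 hε hε1 hβ (by positivity) hζ hζ2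
  have hpow : (K + c) ^ p' < (1 + ζ / 4) ^ p' :=
    pow_lt_pow_left₀ hlt (by positivity) (by omega)
  exact absurd (hlow.trans hup) (not_le.2 (mul_lt_mul_of_pos_right hpow hn))

end Pool.Agent.APP
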