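import Pool.Agent.Lib.MP_8a4e59_co.A.StmB

set_option autoImplicit false

/-! Piece pos (A6a): positivity of the moments of `f ∘ f`. (helper42) -/

namespace Pool.Agent.APP

open Finset

/-- The expansion of the `k`-th powers. -/
lemma pos_identity {α β : Type*} (U : Finset α) (W : Finset β) (D : Finset ℤ) (s : α → ℤ)
    (s' : β → ℤ) (f g : ℤ → ℝ) (k : ℕ) :
    ∑ u ∈ U, ∑ w ∈ W, (∑ z ∈ D, f (z - 2 * s u) * g (z - 2 * s' w)) ^ k =
      ∑ z ∈ Fintype.piFinset (fun _ : Fin k => D),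
        (∑ u ∈ U, ∏ i, f (z i - 2 * s u)) * (∑ w ∈ W, ∏ i, g (z i - 2 * s' w)) := by
  have h1 : ∀ u w, (∑ z ∈ D, f (z - 2 * s u) * g (z - 2 * s' w)) ^ k =
      ∑ z ∈ Fintype.piFinset (fun _ : Fin k => D),
        (∏ i, f (z i - 2 * s u)) * ∏ i, g (z i - 2 * s' w) := by
    intro u w
    rw [Finset.sum_pow']
    exact Finset.sum_congr rfl fun z _ => Finset.prod_mul_distrib
  simp only [h1]
  calc ∑ u ∈ U, ∑ w ∈ W, ∑ z ∈ Fintype.piFinset (fun _ : Fin k => D),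
        (∏ i, f (z i - 2 * s u)) * ∏ i, g (z i - 2 * s' w)
      = ∑ u ∈ U, ∑ z ∈ Fintype.piFinset (fun _ : Fin k => D), ∑ w ∈ W,
        (∏ i, f (z i - 2 * s u)) * ∏ i, g (z i - 2 * s' w) :=
        Finset.sum_congr rfl fun u _ => Finset.sum_comm
    _ = ∑ z ∈ Fintype.piFinset (fun _ : Fin k => D), ∑ u ∈ U, ∑ w ∈ W,
        (∏ i, f (z i - 2 * s u)) * ∏ i, g (z i - 2 * s' w) := Finset.sum_comm
    _ = _ := Finset.sum_congr rfl fun z _ => (Finset.sum_mul_sum _ _ _ _).symm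

/-- `f ∘ g` at `2 (a - b)` as a finite sum. -/
lemma pos_cor_eq (f g : ℤ → ℝ) (D : Finset ℤ) (a b : ℤ)
    (hD : ∀ z : ℤ, f (z - 2 * a) ≠ 0 → z ∈ D) :
    cor f g (2 * (a - b)) = ∑ z ∈ D, f (z - 2 * a) * g (z - 2 * b) := by
  unfold cor
  rw [← finsum_comp_equiv (Equiv.subRight (2 * a))]
  have h1 : ∀ z : ℤ, f ((Equiv.subRight (2 * a)) z) *
      g ((Equiv.subRight (2 * a)) z + 2 * (a - b)) = f (z - 2 * a) * g (z - 2 * b) := by
    intro z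
    rw [Equiv.subRight_apply]
    congr 2
    ring
  rw [finsum_congr h1]
  apply finsum_eq_sum_of_support_subset
  intro z hz
  rw [Function.mem_support] at hz
  exact hD z (left_ne_zero_of_mul hz)

/-- A finite set of `z` that supports all the shifts of `f`. -/
lemma pos_exists_D {α : Type*} (U : Finset α) (s : α → ℤ) (f : ℤ → ℝ)
    (hf : (Function.support f).Finite) :
    ∃ D : Finset ℤ, ∀ u ∈ U, ∀ z : ℤ, f (z - 2 * s u) ≠ 0 → z ∈ D := by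
  classical
  refine ⟨(hf.toFinset ×ˢ U).image (fun c => c.1 + 2 * s c.2), fun u hu z hz => ?_⟩
  rw [Finset.mem_image]
  refine ⟨(z - 2 * s u, u), ?_, by ring⟩
  rw [Finset.mem_product]
  exact ⟨by rw [Set.Finite.mem_toFinset]; exact hz, hu⟩

theorem p_pos : S_pos := by
  intro B₄ B₅ f k hf
  unfold Env
  refine div_nonneg ?_ (sq_nonneg _)
  obtain ⟨D, hD⟩ := pos_exists_D (B₄ ×ˢ B₅) (fun u : ℤ × ℤ => u.1 + u.2) f hf
  have h1 : ∑ u ∈ B₄ ×ˢ B₅, ∑ w ∈ B₄ ×ˢ B₅, cor f f (2 * ((u.1 + u.2) - (w.1 + w.2))) ^ k =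
      ∑ u ∈ B₄ ×ˢ B₅, ∑ w ∈ B₄ ×ˢ B₅,
        (∑ z ∈ D, f (z - 2 * (u.1 + u.2)) * f (z - 2 * (w.1 + w.2))) ^ k := by
    refine Finset.sum_congr rfl fun u hu => Finset.sum_congr rfl fun w _ => ?_
    rw [pos_cor_eq f f D (u.1 + u.2) (w.1 + w.2) (hD u hu)]
  have h2 := pos_identity (B₄ ×ˢ B₅) (B₄ ×ˢ B₅) D (fun u : ℤ × ℤ => u.1 + u.2)
    (fun u : ℤ × ℤ => u.1 + u.2) f f k
  change 0 ≤ ∑ u ∈ B₄ ×ˢ B₅, ∑ w ∈ B₄ ×ˢ B₅, cor f f (2 * ((u.1 + u.2) - (w.1 + w.2))) ^ k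
  rw [h1, h2]
  exact Finset.sum_nonneg fun z _ => mul_self_nonneg _

end Pool.Agent.APP
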