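import Pool.Agent.Lib.MP_8a4e59_co.A.StmB

set_option autoImplicit false

/-! Sifting (Kelley-Meka): `p_sift : S_sift`. -/

namespace Pool.Agent.APP

open Finset

lemma sift_count (p : ℕ) (E : Finset ℤ) (R : ℤ → Prop) [DecidablePred R] :
    (((Fintype.piFinset (fun _ : Fin p => E)).filter (fun s => ∀ i, R (s i))).card : ℝ) =
      ((E.filter R).card : ℝ) ^ p := by
  have h : (Fintype.piFinset (fun _ : Fin p => E)).filter (fun s => ∀ i, R (s i)) =
      Fintype.piFinset (fun _ : Fin p => E.filter R) := by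
    ext s
    simp only [mem_filter, Fintype.mem_piFinset]
    constructor
    · rintro ⟨h1, h2⟩ i
      exact ⟨h1 i, h2 i⟩
    · intro h
      exact ⟨fun i => (h i).1, fun i => (h i).2⟩
  rw [h, Fintype.card_piFinset]
  simp

lemma sift_double {α β : Type} (Q : Finset α) (C : Finset β) (rel : α → β → Prop)
    [∀ s c, Decidable (rel s c)] :
    ∑ s ∈ Q, ((C.filter (rel s)).card : ℝ) = ∑ c ∈ C, ((Q.filter (fun s => rel s c)).card : ℝ) := by
  simp only [card_filter, Nat.cast_sum]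
  exact sum_comm

/-- the number of shifts is the correlation -/
lemma sift_rr (X B₅ : Finset ℤ) (z : ℤ) (E : Finset ℤ)
    (hE : ∀ b' ∈ B₅, ∀ e : ℤ, e + 2 * b' ∈ X → e ∈ E) (b b' : ℤ) (hb' : b' ∈ B₅) :
    ((E.filter (fun e => e + 2 * z + 2 * b ∈ X ∧ e + 2 * b' ∈ X)).card : ℝ) =
      rr X (2 * (z + (b - b'))) := by
  rw [rr]
  congr 1
  refine card_nbij' (fun e => e + 2 * b') (fun y => y - 2 * b') ?_ ?_ ?_ ?_
  · intro e he
    rw [mem_coe, mem_filter] at he ⊢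
    refine ⟨he.2.2, ?_⟩
    have : e + 2 * b' + 2 * (z + (b - b')) = e + 2 * z + 2 * b := by ring
    simp only
    rw [this]
    exact he.2.1
  · intro y hy
    rw [mem_coe, mem_filter] at hy ⊢
    simp only
    refine ⟨hE b' hb' _ (by simpa using hy.1), ?_, by simpa using hy.1⟩
    have : y - 2 * b' + 2 * z + 2 * b = y + 2 * (z + (b - b')) := by ring
    rw [this]
    exact hy.2
  · intro e _
    simp
  · intro y _
    simp

lemma sift_one (X : Finset ℤ) (E : Finset ℤ) (t : ℤ) (hE : ∀ e : ℤ, e + t ∈ X → e ∈ E) :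
    ((E.filter (fun e => e + t ∈ X)).card : ℝ) = X.card := by
  congr 1
  refine card_nbij' (fun e => e + t) (fun y => y - t) ?_ ?_ ?_ ?_
  · intro e he
    rw [mem_coe, mem_filter] at he
    exact he.2
  · intro y hy
    rw [mem_coe] at hy
    rw [mem_coe, mem_filter]
    simp only
    exact ⟨hE _ (by simpa using hy), by simpa using hy⟩
  · intro e _
    simp
  · intro y _
    simp

/-- the numerical inequality -/
lemma sift_num (ε : ℝ) (p : ℕ) (hε : 0 < ε) (hε1 : ε ≤ 1) (hp : 4 / ε * Real.log (80 / ε) ≤ p) :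
    (1 + ε / 2) ^ p ≤ ε / 80 * (1 + ε) ^ p := by
  have h1 : 1 + ε / 2 ≤ (1 - ε / 4) * (1 + ε) := by nlinarith
  have h0 : 0 ≤ 1 - ε / 4 := by linarith
  calc (1 + ε / 2) ^ p ≤ ((1 - ε / 4) * (1 + ε)) ^ p := pow_le_pow_left₀ (by linarith) h1 p
    _ = (1 - ε / 4) ^ p * (1 + ε) ^ p := mul_pow _ _ _
    _ ≤ ε / 80 * (1 + ε) ^ p := by
        refine mul_le_mul_of_nonneg_right ?_ (pow_nonneg (by linarith) p)
        have h2 : 1 - ε / 4 ≤ Real.exp (-(ε / 4)) := by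
          have := Real.one_sub_le_exp_neg (ε / 4)
          linarith
        calc (1 - ε / 4) ^ p ≤ Real.exp (-(ε / 4)) ^ p := pow_le_pow_left₀ h0 h2 p
          _ = Real.exp (-(ε / 4) * p) := by rw [← Real.exp_nat_mul]; ring_nf
          _ ≤ Real.exp (-Real.log (80 / ε)) := by
              apply Real.exp_le_exp.2
              have h3 : ε / 4 * (4 / ε * Real.log (80 / ε)) ≤ ε / 4 * p :=
                mul_le_mul_of_nonneg_left hp (by positivity)
              have h4 : ε / 4 * (4 / ε * Real.log (80 / ε)) = Real.log (80 / ε) := by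
                field_simp
              linarith
          _ = ε / 80 := by
              rw [Real.exp_neg, Real.exp_log (by positivity)]
              field_simp

theorem p_sift : S_sift := by
  classical
  intro X B₄ B₅ ε D p hB₄ hB₅ hX hε hε1 hD hD1 hp hpl hL
  have n4 : (0 : ℝ) < B₄.card := by exact_mod_cast hB₄.card_pos
  have n5 : (0 : ℝ) < B₅.card := by exact_mod_cast hB₅.card_pos
  have nX : (0 : ℝ) < X.card := by exact_mod_cast hX.card_pos
  set L : ℝ := Env B₄ B₅ (fun v => rr X v ^ p) with hLdef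
  -- step 1: averaging
  obtain ⟨z, hz⟩ : ∃ z : ℤ, (B₄.card : ℝ) * B₅.card * L ≤
      ∑ c ∈ B₄ ×ˢ B₅, rr X (2 * (z + (c.1 - c.2))) ^ p := by
    have htot : ∑ _c ∈ B₄ ×ˢ B₅, (B₄.card : ℝ) * B₅.card * L ≤
        ∑ d ∈ B₄ ×ˢ B₅, ∑ c ∈ B₄ ×ˢ B₅, rr X (2 * ((d.2 - d.1) + (c.1 - c.2))) ^ p := by
      have e1 : ∑ _c ∈ B₄ ×ˢ B₅, (B₄.card : ℝ) * B₅.card * L =
          ∑ u ∈ B₄ ×ˢ B₅, ∑ w ∈ B₄ ×ˢ B₅, rr X (2 * ((u.1 + u.2) - (w.1 + w.2))) ^ p := by
        rw [sum_const, card_product, nsmul_eq_mul, hLdef, Env]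
        push_cast
        field_simp
      rw [e1, sum_product, sum_product]
      simp only [sum_product]
      -- sum over b1, b2, c1, c2 ; sum over c1, b2, b1, c2
      apply le_of_eq
      calc ∑ b1 ∈ B₄, ∑ b2 ∈ B₅, ∑ c1 ∈ B₄, ∑ c2 ∈ B₅,
            rr X (2 * ((b1 + b2) - (c1 + c2))) ^ p
          = ∑ b1 ∈ B₄, ∑ c1 ∈ B₄, ∑ b2 ∈ B₅, ∑ c2 ∈ B₅,
            rr X (2 * ((b1 + b2) - (c1 + c2))) ^ p := sum_congr rfl fun b1 _ => sum_comm
        _ = ∑ c1 ∈ B₄, ∑ b1 ∈ B₄, ∑ b2 ∈ B₅, ∑ c2 ∈ B₅,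
            rr X (2 * ((b1 + b2) - (c1 + c2))) ^ p := sum_comm
        _ = ∑ c1 ∈ B₄, ∑ b2 ∈ B₅, ∑ b1 ∈ B₄, ∑ c2 ∈ B₅,
            rr X (2 * ((b1 + b2) - (c1 + c2))) ^ p := sum_congr rfl fun c1 _ => sum_comm
        _ = _ := by
            refine sum_congr rfl fun c1 _ => sum_congr rfl fun b2 _ => sum_congr rfl fun b1 _ =>
              sum_congr rfl fun c2 _ => ?_
            congr 2
            ring
    obtain ⟨d, -, hd⟩ := exists_le_of_sum_le (hB₄.product hB₅) htot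
    exact ⟨d.2 - d.1, hd⟩
  -- the box
  set E : Finset ℤ := (B₅ ×ˢ X).image (fun c => c.2 - 2 * c.1) ∪
    (B₄ ×ˢ X).image (fun c => c.2 - 2 * z - 2 * c.1) with hE
  have hE5 : ∀ b' ∈ B₅, ∀ e : ℤ, e + 2 * b' ∈ X → e ∈ E := by
    intro b' hb' e he
    refine mem_union_left _ (mem_image.2 ⟨(b', e + 2 * b'), mem_product.2 ⟨hb', he⟩, ?_⟩)
    ring
  have hE4 : ∀ b ∈ B₄, ∀ e : ℤ, e + (2 * z + 2 * b) ∈ X → e ∈ E := by
    intro b hb e he
    refine mem_union_right _ (mem_image.2 ⟨(b, e + (2 * z + 2 * b)), mem_product.2 ⟨hb, he⟩, ?_⟩)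
    ring
  set Q : Finset (Fin p → ℤ) := Fintype.piFinset (fun _ : Fin p => E) with hQ
  set D₁ : (Fin p → ℤ) → Finset ℤ := fun s => B₄.filter (fun b => ∀ i, s i + 2 * z + 2 * b ∈ X)
    with hD₁
  set D₂ : (Fin p → ℤ) → Finset ℤ := fun s => B₅.filter (fun b' => ∀ i, s i + 2 * b' ∈ X)
    with hD₂
  set rel : (Fin p → ℤ) → ℤ × ℤ → Prop := fun s c => ∀ i, (s i + 2 * z + 2 * c.1 ∈ X ∧
    s i + 2 * c.2 ∈ X) with hrel
  have hprod : ∀ s, D₁ s ×ˢ D₂ s = (B₄ ×ˢ B₅).filter (rel s) := by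
    intro s
    ext c
    simp only [hD₁, hD₂, hrel, mem_product, mem_filter, forall_and]
    tauto
  have hQr : ∀ c ∈ B₄ ×ˢ B₅, ((Q.filter (fun s => rel s c)).card : ℝ) =
      rr X (2 * (z + (c.1 - c.2))) ^ p := by
    intro c hc
    have h := sift_count p E (fun e => e + 2 * z + 2 * c.1 ∈ X ∧ e + 2 * c.2 ∈ X)
    rw [sift_rr X B₅ z E hE5 c.1 c.2 (mem_product.1 hc).2] at h
    exact h
  -- the four sums
  set T : ℝ := ∑ c ∈ B₄ ×ˢ B₅, rr X (2 * (z + (c.1 - c.2))) ^ p with hT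
  have hT1 : ∑ s ∈ Q, ((D₁ s).card : ℝ) * (D₂ s).card = T := by
    have : ∀ s ∈ Q, ((D₁ s).card : ℝ) * (D₂ s).card = (((B₄ ×ˢ B₅).filter (rel s)).card : ℝ) := by
      intro s _
      rw [← hprod, card_product]
      push_cast
      ring
    rw [sum_congr rfl this, sift_double]
    exact sum_congr rfl hQr
  have hS1 : ∑ s ∈ Q, ((D₁ s).card : ℝ) = B₄.card * (X.card : ℝ) ^ p := by
    rw [hD₁]
    simp only
    rw [sift_double Q B₄ (fun s b => ∀ i, s i + 2 * z + 2 * b ∈ X)]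
    rw [← nsmul_eq_mul, ← sum_const]
    refine sum_congr rfl fun b hb => ?_
    have := sift_count p E (fun e => e + (2 * z + 2 * b) ∈ X)
    rw [sift_one X E _ (hE4 b hb)] at this
    rw [← this]
    congr 2
    ext s
    simp only [add_assoc]
    exact Iff.rfl
  have hS2 : ∑ s ∈ Q, ((D₂ s).card : ℝ) = B₅.card * (X.card : ℝ) ^ p := by
    rw [hD₂]
    simp only
    rw [sift_double Q B₅ (fun s b' => ∀ i, s i + 2 * b' ∈ X)]
    rw [← nsmul_eq_mul, ← sum_const]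
    refine sum_congr rfl fun b' hb' => ?_
    have := sift_count p E (fun e => e + 2 * b' ∈ X)
    rw [sift_one X E _ (hE5 b' hb')] at this
    rw [← this]
  -- bad pairs
  set bad : ℤ × ℤ → Prop := fun c => rr X (2 * (z + (c.1 - c.2))) < (1 + ε / 2) * D * X.card
    with hbad
  have hB1 : ∑ s ∈ Q, (((D₁ s ×ˢ D₂ s).filter bad).card : ℝ) ≤
      ε / 80 * ((B₄.card : ℝ) * B₅.card * L) := by
    have e1 : ∀ s ∈ Q, (((D₁ s ×ˢ D₂ s).filter bad).card : ℝ) =
        ((((B₄ ×ˢ B₅).filter bad).filter (rel s)).card : ℝ) := by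
      intro s _
      rw [hprod, filter_comm]
    rw [sum_congr rfl e1, sift_double]
    calc ∑ c ∈ (B₄ ×ˢ B₅).filter bad, ((Q.filter (fun s => rel s c)).card : ℝ)
        ≤ ∑ c ∈ (B₄ ×ˢ B₅).filter bad, ((1 + ε / 2) * D * X.card) ^ p := by
          refine sum_le_sum fun c hc => ?_
          rw [mem_filter] at hc
          rw [hQr c hc.1]
          exact pow_le_pow_left₀ (by rw [rr]; positivity) hc.2.le p
      _ ≤ ∑ c ∈ B₄ ×ˢ B₅, ((1 + ε / 2) * D * X.card) ^ p :=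
          sum_le_sum_of_subset_of_nonneg (filter_subset _ _) fun _ _ _ => by positivity
      _ = (B₄.card : ℝ) * B₅.card * ((1 + ε / 2) ^ p * (D * X.card) ^ p) := by
          rw [sum_const, card_product, nsmul_eq_mul, mul_assoc, mul_pow]
          push_cast
          ring
      _ ≤ (B₄.card : ℝ) * B₅.card * ((ε / 80 * (1 + ε) ^ p) * (D * X.card) ^ p) := by
          have := sift_num ε p hε hε1 hpl
          gcongr
      _ = ε / 80 * ((B₄.card : ℝ) * B₅.card * ((1 + ε) * D * X.card) ^ p) := by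
          rw [mul_assoc (1 + ε) D, mul_pow (1 + ε)]
          ring
      _ ≤ _ := by
          gcongr
  -- the good set
  set τ : ℝ := D ^ p / 4 with hτ
  set G : Finset (Fin p → ℤ) := Q.filter (fun s => τ * (B₄.card : ℝ) ≤ (D₁ s).card ∧
    τ * (B₅.card : ℝ) ≤ (D₂ s).card) with hG
  have hτ0 : 0 < τ := by positivity
  have hcomp : ∑ s ∈ Q, ((D₁ s).card : ℝ) * (D₂ s).card ≤
      ∑ s ∈ G, ((D₁ s).card : ℝ) * (D₂ s).card + (τ * B₄.card * (B₅.card * (X.card : ℝ) ^ p) +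
        τ * B₅.card * (B₄.card * (X.card : ℝ) ^ p)) := by
    rw [← hS1, ← hS2, mul_sum, mul_sum, ← sum_add_distrib, hG, sum_filter, ← sum_add_distrib]
    refine sum_le_sum fun s _ => ?_
    have p1 : (0 : ℝ) ≤ (D₁ s).card := by positivity
    have p2 : (0 : ℝ) ≤ (D₂ s).card := by positivity
    split_ifs with h
    · have : 0 ≤ τ * B₄.card * ((D₂ s).card : ℝ) + τ * B₅.card * ((D₁ s).card : ℝ) := by positivity
      linarith
    · rw [not_and_or, not_le, not_le] at h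
      rcases h with h | h
      · have h1 : ((D₁ s).card : ℝ) * (D₂ s).card ≤ τ * B₄.card * (D₂ s).card :=
          mul_le_mul_of_nonneg_right h.le p2
        have h2 : 0 ≤ τ * B₅.card * ((D₁ s).card : ℝ) := by positivity
        linarith
      · have h1 : ((D₁ s).card : ℝ) * (D₂ s).card ≤ (D₁ s).card * (τ * B₅.card) :=
          mul_le_mul_of_nonneg_left h.le p1
        have h2 : 0 ≤ τ * B₄.card * ((D₂ s).card : ℝ) := by positivity
        nlinarith
  have hLD : D ^ p * (X.card : ℝ) ^ p ≤ L := by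
    refine le_trans ?_ hL.le
    rw [← mul_pow]
    refine pow_le_pow_left₀ (by positivity) ?_ p
    nlinarith [mul_pos hD nX, mul_pos (mul_pos hε hD) nX]
  have hL0 : 0 < L := lt_of_lt_of_le (by positivity) hLD
  have hM : 0 < (B₄.card : ℝ) * B₅.card * L := by positivity
  have hG1 : T / 2 ≤ ∑ s ∈ G, ((D₁ s).card : ℝ) * (D₂ s).card := by
    rw [hT1] at hcomp
    have h1 : τ * B₄.card * (B₅.card * (X.card : ℝ) ^ p) +
        τ * B₅.card * (B₄.card * (X.card : ℝ) ^ p) =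
        (B₄.card : ℝ) * B₅.card * (D ^ p * (X.card : ℝ) ^ p) / 2 := by
      rw [hτ]; ring
    have h2 : (B₄.card : ℝ) * B₅.card * (D ^ p * (X.card : ℝ) ^ p) ≤
        (B₄.card : ℝ) * B₅.card * L := mul_le_mul_of_nonneg_left hLD (by positivity)
    linarith
  have hGpos : 0 < ∑ s ∈ G, ((D₁ s).card : ℝ) * (D₂ s).card := by linarith
  have hGne : G.Nonempty := by
    by_contra h
    rw [not_nonempty_iff_eq_empty] at h
    rw [h, sum_empty] at hGpos
    exact lt_irrefl _ hGpos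
  have hfin : ∑ s ∈ G, (((D₁ s ×ˢ D₂ s).filter bad).card : ℝ) ≤
      ∑ s ∈ G, ε / 20 * (((D₁ s).card : ℝ) * (D₂ s).card) := by
    calc ∑ s ∈ G, (((D₁ s ×ˢ D₂ s).filter bad).card : ℝ)
        ≤ ∑ s ∈ Q, (((D₁ s ×ˢ D₂ s).filter bad).card : ℝ) :=
          sum_le_sum_of_subset_of_nonneg (filter_subset _ _) fun _ _ _ => by positivity
      _ ≤ ε / 80 * ((B₄.card : ℝ) * B₅.card * L) := hB1
      _ ≤ ε / 80 * T := by gcongr
      _ ≤ ε / 20 * (T / 2) := by nlinarith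
      _ ≤ ε / 20 * ∑ s ∈ G, ((D₁ s).card : ℝ) * (D₂ s).card := by gcongr
      _ = _ := by rw [mul_sum]
  obtain ⟨s, hsG, hs⟩ := exists_le_of_sum_le hGne hfin
  rw [hG, mem_filter] at hsG
  exact ⟨z, D₁ s, D₂ s, filter_subset _ _, filter_subset _ _, hsG.2.1, hsG.2.2, hs⟩

end Pool.Agent.APP
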