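import Pool.Agent.Lib.MP_8a4e59_co.A.StmB

set_option autoImplicit false

/-! Piece (A7) smoothing. (helper81) -/

namespace Pool.Agent.APP

open Finset

lemma smooth_inj (B₂ B₂p : Finset ℤ) (ψ : ℤ → ℝ) (x : ℤ) (h0 : ∀ x, 0 ≤ ψ x)
    (h : ∀ y ∈ B₂, y - x ∈ B₂p) :
    ∑ y ∈ B₂, ψ (2 * y) ≤ ∑ y ∈ B₂p, ψ (2 * y + 2 * x) := by
  have hinj : Function.Injective (fun y : ℤ => y - x) := fun a b hab => by
    simpa using hab
  calc ∑ y ∈ B₂, ψ (2 * y) = ∑ y ∈ B₂.image (fun y : ℤ => y - x), ψ (2 * y + 2 * x) := by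
        rw [Finset.sum_image fun a _ b _ hab => hinj hab]
        refine Finset.sum_congr rfl fun y _ => ?_
        congr 1; ring
    _ ≤ ∑ y ∈ B₂p, ψ (2 * y + 2 * x) := by
        refine Finset.sum_le_sum_of_subset_of_nonneg ?_ fun _ _ _ => h0 _
        intro z hz
        rw [Finset.mem_image] at hz
        obtain ⟨y, hy, rfl⟩ := hz
        exact h y hy

theorem p_smooth : S_smooth := by
  intro B₂ B₂p B₄ B₅ ψ M h4 h5 h0 hsub hcard hM
  have hn4 : (0 : ℝ) < B₄.card := by exact_mod_cast h4.card_pos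
  have hn5 : (0 : ℝ) < B₅.card := by exact_mod_cast h5.card_pos
  set U : Finset (ℤ × ℤ) := B₄ ×ˢ B₅ with hU
  set n : ℝ := ((B₄.card : ℝ) * B₅.card) ^ 2 with hn
  have hn0 : 0 < n := by positivity
  have hUc : (U.card : ℝ) * U.card = n := by
    rw [hU, Finset.card_product, hn]; push_cast; ring
  have hEnv : ∀ t : ℤ, ∑ u ∈ U, ∑ w ∈ U, ψ (t + 2 * ((u.1 + u.2) - (w.1 + w.2))) ≤ n * M := by
    intro t
    have h := hM t
    unfold Env at h
    rw [div_le_iff₀ hn0] at h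
    linarith [h]
  have hM0 : 0 ≤ M := by
    have h := hEnv 0
    have h1 : 0 ≤ ∑ u ∈ U, ∑ w ∈ U, ψ (0 + 2 * ((u.1 + u.2) - (w.1 + w.2))) :=
      Finset.sum_nonneg fun _ _ => Finset.sum_nonneg fun _ _ => h0 _
    by_contra hneg
    push Not at hneg
    nlinarith
  have key : n * ∑ y ∈ B₂, ψ (2 * y) ≤ n * ((B₂p.card : ℝ) * M) := by
    calc n * ∑ y ∈ B₂, ψ (2 * y) = ∑ u ∈ U, ∑ w ∈ U, ∑ y ∈ B₂, ψ (2 * y) := by
          rw [Finset.sum_const, Finset.sum_const, nsmul_eq_mul, nsmul_eq_mul, ← hUc]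
          ring
      _ ≤ ∑ u ∈ U, ∑ w ∈ U, ∑ y ∈ B₂p, ψ (2 * y + 2 * ((u.1 + u.2) - (w.1 + w.2))) :=
          Finset.sum_le_sum fun u hu => Finset.sum_le_sum fun w hw =>
            smooth_inj B₂ B₂p ψ _ h0 fun y hy => hsub y hy u hu w hw
      _ = ∑ y ∈ B₂p, ∑ u ∈ U, ∑ w ∈ U, ψ (2 * y + 2 * ((u.1 + u.2) - (w.1 + w.2))) := by
          rw [Finset.sum_comm]
          rw [show (∑ w ∈ U, ∑ u ∈ U, ∑ y ∈ B₂p, ψ (2 * y + 2 * ((u.1 + u.2) - (w.1 + w.2)))) =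
            ∑ w ∈ U, ∑ y ∈ B₂p, ∑ u ∈ U, ψ (2 * y + 2 * ((u.1 + u.2) - (w.1 + w.2))) from
            Finset.sum_congr rfl fun w _ => Finset.sum_comm]
          rw [Finset.sum_comm]
          exact Finset.sum_congr rfl fun y _ => Finset.sum_comm
      _ ≤ ∑ _y ∈ B₂p, n * M := Finset.sum_le_sum fun y _ => hEnv (2 * y)
      _ = n * ((B₂p.card : ℝ) * M) := by
          rw [Finset.sum_const, nsmul_eq_mul]; ring
  have h1 := le_of_mul_le_mul_left key hn0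
  exact h1.trans (mul_le_mul_of_nonneg_right hcard hM0)

end Pool.Agent.APP
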