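import Pool.Agent.Lib.MP_8a4e59_co.IfaceA
import Pool.Agent.Lib.MP_8a4e59_co.A.StmA

set_option autoImplicit false

/-! Stable stage (A10): the density increment iteration. (helper45) -/

namespace Pool.Agent.APP

open Finset

/-- State after `n` steps. -/
def StageSt (A : Finset ℤ) (N₁ E : ℕ) (α₀ η ε₀ P G : ℝ) (n : ℕ) : Prop :=
  ∃ (W : ℕ) (Θ : Finset ℝ) (ρ α : ℝ) (x₀ : ℤ), 1 ≤ W ∧ W ≤ E ^ n ∧ (Θ.card : ℝ) ≤ n * P ∧
    Real.exp (-(n * G + 2)) ≤ ρ ∧ ρ ≤ 1 ∧ α₀ / 2 * (1 + η) ^ n ≤ α ∧ α ≤ 1 ∧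
    Reg ε₀ ((N₁ : ℝ) / W) Θ ρ ∧
    α * ((bohr ((N₁ : ℝ) / W) Θ ρ).card : ℝ) ≤ cnt A x₀ W (bohr ((N₁ : ℝ) / W) Θ ρ)

lemma stage_cnt_le (A : Finset ℤ) (x : ℤ) (e : ℕ) (S : Finset ℤ) : cnt A x e S ≤ (S.card : ℝ) := by
  unfold cnt
  exact_mod_cast Finset.card_filter_le _ _

lemma stage_base (hreg : S_reg) (A : Finset ℤ) (N₁ E : ℕ) (α₀ η ε₀ P G : ℝ)
    (hα₀ : 0 < α₀) (hα₁ : α₀ ≤ 1) (hε : 0 < ε₀) (hε1 : ε₀ ≤ 1)
    (hA : A ⊆ Finset.Icc 1 (N₁ : ℤ)) (hAc : α₀ * N₁ ≤ A.card) (hN : 1 ≤ N₁) :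
    StageSt A N₁ E α₀ η ε₀ P G 0 := by
  have hNpos : (0:ℝ) < N₁ := by exact_mod_cast hN
  obtain ⟨ρ, hρ1, hρ2, hρ⟩ := hreg (N₁ : ℝ) ∅ (1 / 2) ε₀ hNpos (by norm_num) hε hε1
  set B := bohr (N₁ : ℝ) ∅ ρ with hB
  have hρ0 : 0 < ρ := by linarith
  set M := ⌊ρ * N₁⌋ with hM
  have hMnn : 0 ≤ M := Int.floor_nonneg.2 (by positivity)
  have hM2 : 2 * (M:ℝ) ≤ N₁ := by
    have h1 : (M:ℝ) ≤ ρ * N₁ := Int.floor_le _
    nlinarith
  have hBM : ∀ n ∈ B, -M ≤ n ∧ n ≤ M := by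
    intro n hn
    rw [hB, mem_bohr] at hn
    have h1 := abs_le.1 hn.1
    constructor
    · have : -n ≤ M := Int.le_floor.2 (by push_cast; linarith)
      omega
    · exact Int.le_floor.2 h1.2
  -- averaging
  have hsum : ∑ x ∈ Finset.Icc (1 - M) (N₁ + M), cnt A x 1 B = (A.card : ℝ) * B.card := by
    unfold cnt
    have e1 : ∀ x : ℤ, (((B.filter (fun n => x + ((1:ℕ) : ℤ) * n ∈ A)).card : ℕ) : ℝ) =
        ∑ n ∈ B, (if x + n ∈ A then (1:ℝ) else 0) := by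
      intro x
      rw [Finset.sum_boole]
      simp
    rw [Finset.sum_congr rfl (fun x _ => e1 x), Finset.sum_comm]
    have e2 : ∀ n ∈ B, ∑ x ∈ Finset.Icc (1 - M) (N₁ + M), (if x + n ∈ A then (1:ℝ) else 0) = A.card := by
      intro n hn
      rw [Finset.sum_boole]
      congr 1
      apply Finset.card_bij (fun x _ => x + n)
      · intro x hx; exact (Finset.mem_filter.1 hx).2
      · intro x _ y _ h; omega
      · intro a ha
        have h1 := Finset.mem_Icc.1 (hA ha)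
        have h2 := hBM n hn
        refine ⟨a - n, ?_, by omega⟩
        rw [Finset.mem_filter, Finset.mem_Icc]
        refine ⟨⟨by omega, by omega⟩, by rw [sub_add_cancel]; exact ha⟩
    rw [Finset.sum_congr rfl e2, Finset.sum_const, nsmul_eq_mul, mul_comm]
  have hex : ∃ x : ℤ, α₀ / 2 * (B.card : ℝ) ≤ cnt A x 1 B := by
    by_contra hcon
    push Not at hcon
    have hne : (Finset.Icc (1 - M) (N₁ + M)).Nonempty := ⟨1, by rw [Finset.mem_Icc]; omega⟩
    have h1 := Finset.sum_lt_sum_of_nonempty hne (fun x _ => hcon x)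
    rw [hsum, Finset.sum_const, nsmul_eq_mul, Int.card_Icc] at h1
    have h2 : (((((N₁:ℤ) + M + 1 - (1 - M)).toNat : ℕ)) : ℝ) = N₁ + 2 * M := by
      have : (((((N₁:ℤ) + M + 1 - (1 - M)).toNat : ℕ)) : ℤ) = N₁ + 2 * M := by
        rw [Int.toNat_of_nonneg (by omega)]; ring
      exact_mod_cast this
    rw [h2] at h1
    have h3 : (0:ℝ) ≤ B.card := Nat.cast_nonneg _
    have h4 : ((N₁:ℝ) + 2 * M) * (α₀ / 2 * B.card) ≤ (2 * N₁) * (α₀ / 2 * B.card) :=
      mul_le_mul_of_nonneg_right (by linarith) (by positivity)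
    have h5 : α₀ * N₁ * B.card ≤ A.card * B.card := mul_le_mul_of_nonneg_right hAc h3
    nlinarith
  obtain ⟨x, hx⟩ := hex
  refine ⟨1, ∅, ρ, α₀ / 2, x, le_rfl, by simp, by simp, ?_, by linarith, by simp, by linarith, ?_, ?_⟩
  · refine le_trans ?_ (show (1/4:ℝ) ≤ ρ by linarith)
    simp only [Nat.cast_zero, zero_mul, zero_add]
    rw [Real.exp_neg]
    have h3 : (4:ℝ) ≤ Real.exp 2 := by
      have := Real.add_one_le_exp (1:ℝ)
      have h4 : Real.exp 2 = Real.exp 1 * Real.exp 1 := by rw [← Real.exp_add]; norm_num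
      rw [h4]; nlinarith
    rw [one_div]
    exact inv_anti₀ (by norm_num) h3
  · simpa using hρ
  · simpa using hx

theorem p_stage (hreg : S_reg) : S_stage := by
  intro C hC A N₁ E α₀ η ε₀ hE hα₀ hα₁ hη hη1 hε hε1 hA hAc hN J Λ hJ hΛ
  have hε2 : ε₀ ≤ 1 / 10000 := by
    refine hε1.trans ?_
    have h1 : α₀ ^ 4 ≤ 1 := pow_le_one₀ hα₀.le hα₁
    have h2 : α₀ ^ 4 * η ≤ 1 * (1 / 100) := mul_le_mul h1 hη1 hη.le (by norm_num)
    linarith
  have hN1 : 1 ≤ N₁ := by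
    by_contra h
    have : N₁ = 0 := by omega
    rw [this] at hN
    have : 0 < 100 / ε₀ := by positivity
    push_cast at hN
    linarith
  have hNpos : (0:ℝ) < N₁ := by exact_mod_cast hN1
  set L := Real.log (2 / ε₀) / η with hL
  have hL1 : 1 ≤ L := by
    rw [hL, le_div_iff₀ hη]
    have h1 : Real.log 2 ≤ Real.log (2 / ε₀) := by
      apply Real.log_le_log (by norm_num)
      rw [le_div_iff₀ hε]; linarith
    have h2 := Real.log_two_gt_d9
    linarith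
  set P := L ^ C with hP
  have hP1 : 1 ≤ P := one_le_pow₀ hL1
  have hPΛ : P ≤ Λ := by linarith
  have hLP : L ≤ P := by
    calc L = L ^ 1 := (pow_one L).symm
      _ ≤ L ^ C := pow_le_pow_right₀ hL1 hC
  set G := ((J * Λ : ℝ) + 1 + Λ) ^ C with hG
  have hG0 : 0 ≤ G := by positivity
  by_contra hcon
  have key : ∀ n : ℕ, n ≤ J → StageSt A N₁ E α₀ η ε₀ P G n := by
    intro n
    induction n with
    | zero => intro _; exact stage_base hreg A N₁ E α₀ η ε₀ P G hα₀ hα₁ hε (by linarith) hA hAc hN1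
    | succ n ih =>
      intro hn
      obtain ⟨W, Θ, ρ, α, x₀, hW1, hWE, hΘ, hρ1, hρ2, hα1, hα2, hR, hd⟩ := ih (by omega)
      have hnJ : (n:ℝ) ≤ J := by exact_mod_cast (by omega : n ≤ J)
      have hn0 : (0:ℝ) ≤ n := Nat.cast_nonneg _
      have hα1' : α₀ / 2 ≤ α := by
        refine le_trans ?_ hα1
        have : 1 ≤ (1 + η) ^ n := one_le_pow₀ (by linarith)
        nlinarith
      have hαpos : 0 < α := by linarith
      have hρpos : 0 < ρ := lt_of_lt_of_le (Real.exp_pos _) hρ1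
      have hΛ0 : (0:ℝ) ≤ Λ := Nat.cast_nonneg _
      have hJ0 : (0:ℝ) ≤ J := Nat.cast_nonneg _
      have hΘ' : (Θ.card : ℝ) ≤ J * Λ := hΘ.trans (mul_le_mul hnJ hPΛ (by positivity) hJ0)
      -- the negation of the conclusion
      have hno : ¬ (∀ e : ℕ, 1 ≤ e → e ≤ E → ∀ (Θ' : Finset ℝ) (ρ' : ℝ),
        (Θ'.card : ℝ) ≤ Θ.card + (Real.log (2 / ε₀) / η) ^ C →
        ρ * Real.exp (-(((Θ.card : ℝ) + 1 + Real.log (2 / ε₀) / η) ^ C)) ≤ ρ' → ρ' ≤ ρ →
        Reg ε₀ ((N₁ : ℝ) / (W * e : ℕ)) Θ' ρ' → ∀ x : ℤ,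
        cnt A x (W * e) (bohr ((N₁ : ℝ) / (W * e : ℕ)) Θ' ρ') ≤
          (1 + η) * α * ((bohr ((N₁ : ℝ) / (W * e : ℕ)) Θ' ρ').card : ℝ)) := by
        intro hyes
        apply hcon
        refine ⟨W, Θ, ρ, α, x₀, hW1, ?_, hΘ', ?_, hρ2, hα1', hα2, hR, hd, hyes⟩
        · exact hWE.trans (Nat.pow_le_pow_right hE (by omega))
        · refine le_trans (Real.exp_le_exp.2 ?_) hρ1
          have h1 : (n:ℝ) * G ≤ J * G := mul_le_mul_of_nonneg_right hnJ hG0
          have h2 : (1:ℝ) ≤ J := by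
            have h3 : 1 ≤ J := by omega
            exact_mod_cast h3
          linarith
      push Not at hno
      obtain ⟨e, he1, heE, Θ', ρ', hΘ'', hρ'1, hρ'2, hReg', x, hx⟩ := hno
      have hWe : 1 ≤ W * e := Nat.mul_pos hW1 he1
      have hWeR : (0:ℝ) < ((W * e : ℕ) : ℝ) := by exact_mod_cast hWe
      have hN' : 0 ≤ (N₁ : ℝ) / ((W * e : ℕ) : ℝ) := by positivity
      have hρ'pos : 0 < ρ' := lt_of_lt_of_le (by positivity) hρ'1
      set B := bohr ((N₁ : ℝ) / ((W * e : ℕ) : ℝ)) Θ' ρ' with hB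
      have hBc : 0 < (B.card : ℝ) := bohr_card_pos hN' hρ'pos.le
      refine ⟨W * e, Θ', ρ', (1 + η) * α, x, hWe, ?_, ?_, ?_, hρ'2.trans hρ2, ?_, ?_, hReg', hx.le⟩
      · rw [pow_succ]; exact Nat.mul_le_mul hWE heE
      · push_cast
        have : (Θ'.card : ℝ) ≤ n * P + P := hΘ''.trans (by rw [← hL, ← hP]; linarith)
        linarith
      · refine le_trans ?_ hρ'1
        have h1 : ((Θ.card : ℝ) + 1 + Real.log (2 / ε₀) / η) ^ C ≤ G := by
          rw [hG, ← hL]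
          apply pow_le_pow_left₀ (by positivity)
          linarith
        have h2 : Real.exp (-(((n + 1 : ℕ) : ℝ) * G + 2)) = Real.exp (-(n * G + 2)) * Real.exp (-G) := by
          rw [← Real.exp_add]; congr 1; push_cast; ring
        rw [h2]
        apply mul_le_mul hρ1 _ (Real.exp_nonneg _) hρpos.le
        exact Real.exp_le_exp.2 (by linarith)
      · rw [pow_succ]
        nlinarith
      · have h1 := stage_cnt_le A x (W * e) B
        have h2 : (1 + η) * α * (B.card : ℝ) < 1 * B.card := by linarith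
        exact (lt_of_mul_lt_mul_right h2 hBc.le).le
  obtain ⟨W, Θ, ρ, α, x₀, -, -, -, -, -, hα1, hα2, -, -⟩ := key J le_rfl
  have h1 : Real.log (4 / α₀) ≤ J * Real.log (1 + η) := by
    have h2 : η / 2 ≤ Real.log (1 + η) := by
      have h3 := Real.one_sub_inv_le_log_of_pos (show 0 < 1 + η by linarith)
      have h4 : η / 2 ≤ 1 - (1 + η)⁻¹ := by
        rw [div_le_iff₀ (by norm_num)]
        have h5 : 1 - (1 + η)⁻¹ = η / (1 + η) := by field_simp; ring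
        rw [h5, div_mul_eq_mul_div, le_div_iff₀ (by linarith)]
        nlinarith
      linarith
    have h6 : 2 * Real.log (4 / α₀) / η ≤ J := by linarith
    have h7 : 2 * Real.log (4 / α₀) ≤ J * η := by
      rw [div_le_iff₀ hη] at h6; exact h6
    have h8 : (J:ℝ) * (η / 2) ≤ J * Real.log (1 + η) := mul_le_mul_of_nonneg_left h2 (Nat.cast_nonneg _)
    linarith
  have h9 : 4 / α₀ ≤ (1 + η) ^ J := by
    have h10 : Real.log (4 / α₀) ≤ Real.log ((1 + η) ^ J) := by rw [Real.log_pow]; exact h1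
    exact (Real.log_le_log_iff (by positivity) (by positivity)).1 h10
  have h11 : α₀ / 2 * (4 / α₀) ≤ α₀ / 2 * (1 + η) ^ J := mul_le_mul_of_nonneg_left h9 (by positivity)
  have h12 : α₀ / 2 * (4 / α₀) = 2 := by field_simp; norm_num
  linarith

end Pool.Agent.APP
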