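import Pool.Agent.Lib.MP_8a4e59_co.A.StmB

set_option autoImplicit false

/-! Piece unbal (A5): unbalancing. (helper42) -/

namespace Pool.Agent.APP

open Finset

lemma unbal_ratio (ζ : ℝ) (h0 : 0 < ζ) (h1 : ζ ≤ 1) (P p' : ℕ)
    (hp' : 8 * (P : ℝ) / ζ * Real.log (6 / ζ) ≤ p') :
    (1 + ζ / 4) ^ p' ≤ (ζ / 6) ^ (2 * P) * (1 + 3 * ζ / 4) ^ p' := by
  have hx1 : Real.exp (ζ / 4) * (1 - ζ / 4) ≤ 1 := by
    have h2 := Real.add_one_le_exp (-(ζ / 4))
    have h3 : Real.exp (ζ / 4) * Real.exp (-(ζ / 4)) = 1 := by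
      rw [← Real.exp_add, add_neg_cancel, Real.exp_zero]
    have h4 := Real.exp_pos (ζ / 4)
    nlinarith
  have hx2 : (1 + ζ / 4) * Real.exp (ζ / 4) ≤ 1 + 3 * ζ / 4 := by
    have h4 := Real.exp_pos (ζ / 4)
    have h5 : 0 < 1 - ζ / 4 := by linarith
    have h6 : (1 + ζ / 4) * Real.exp (ζ / 4) * (1 - ζ / 4) ≤ (1 + 3 * ζ / 4) * (1 - ζ / 4) := by
      calc (1 + ζ / 4) * Real.exp (ζ / 4) * (1 - ζ / 4)
          = (1 + ζ / 4) * (Real.exp (ζ / 4) * (1 - ζ / 4)) := by ring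
        _ ≤ (1 + ζ / 4) * 1 := mul_le_mul_of_nonneg_left hx1 (by linarith)
        _ ≤ (1 + 3 * ζ / 4) * (1 - ζ / 4) := by nlinarith
    exact le_of_mul_le_mul_right h6 h5
  have hexp : (6 / ζ) ^ (2 * P) ≤ Real.exp (ζ / 4) ^ p' := by
    have h7 : (6 / ζ) ^ (2 * P) = Real.exp ((2 * P : ℕ) * Real.log (6 / ζ)) := by
      rw [Real.exp_nat_mul, Real.exp_log (by positivity)]
    rw [h7, ← Real.exp_nat_mul]
    apply Real.exp_le_exp.2
    have h8 : (2 * P : ℝ) * Real.log (6 / ζ) = (8 * (P : ℝ) / ζ * Real.log (6 / ζ)) * (ζ / 4) := by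
      field_simp
      ring
    push_cast
    rw [h8]
    exact mul_le_mul_of_nonneg_right hp' (by positivity)
  have h9 : (1 + ζ / 4) ^ p' * Real.exp (ζ / 4) ^ p' ≤ (1 + 3 * ζ / 4) ^ p' := by
    rw [← mul_pow]
    exact pow_le_pow_left₀ (by positivity) hx2 p'
  have h10 : (ζ / 6) ^ (2 * P) * (6 / ζ) ^ (2 * P) = 1 := by
    rw [← mul_pow]
    have : ζ / 6 * (6 / ζ) = 1 := by field_simp
    rw [this, one_pow]
  calc (1 + ζ / 4) ^ p' = (ζ / 6) ^ (2 * P) * ((1 + ζ / 4) ^ p' * (6 / ζ) ^ (2 * P)) := by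
        rw [mul_comm ((1 + ζ / 4) ^ p'), ← mul_assoc, h10, one_mul]
    _ ≤ (ζ / 6) ^ (2 * P) * ((1 + ζ / 4) ^ p' * Real.exp (ζ / 4) ^ p') := by
        refine mul_le_mul_of_nonneg_left ?_ (by positivity)
        exact mul_le_mul_of_nonneg_left hexp (by positivity)
    _ ≤ (ζ / 6) ^ (2 * P) * (1 + 3 * ζ / 4) ^ p' :=
        mul_le_mul_of_nonneg_left h9 (by positivity)

lemma unbal_convex (a : ℝ) (ha : 0 ≤ a) (m : ℕ) :
    (a + 1) ^ m ≤ 2 / 3 * (3 / 2 * a) ^ m + 1 / 3 * 3 ^ m := by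
  have hc : ConvexOn ℝ (Set.Ici (0 : ℝ)) (fun x : ℝ => x ^ m) := convexOn_pow m
  have h := hc.2 (Set.mem_Ici.2 (show (0 : ℝ) ≤ 3 / 2 * a by positivity))
    (Set.mem_Ici.2 (show (0 : ℝ) ≤ 3 by norm_num)) (show (0 : ℝ) ≤ 2 / 3 by norm_num)
    (show (0 : ℝ) ≤ 1 / 3 by norm_num) (by norm_num)
  simp only [smul_eq_mul] at h
  have e : (2 / 3 : ℝ) * (3 / 2 * a) + 1 / 3 * 3 = a + 1 := by ring
  rw [e] at h
  exact h

theorem p_unbal (h : S_pm2) : S_unbal := by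
  intro ι Ω F ζ p p' hΩ h0 h1 hp hodd hmom hp'
  classical
  have hn : (0 : ℝ) < Ω.card := by exact_mod_cast hΩ.card_pos
  obtain ⟨P, hPodd, hP5, hpP, hPp⟩ : ∃ P : ℕ, Odd P ∧ 5 ≤ P ∧ p ≤ P ∧ P ≤ p + 5 := by
    rcases Nat.even_or_odd p with he | ho
    · refine ⟨p + 5, ?_, by omega, by omega, by omega⟩
      exact he.add_odd (by decide)
    · refine ⟨p + 4, ?_, by omega, by omega, by omega⟩
      exact ho.add_even (by decide)
  have hlog : 1 ≤ Real.log (6 / ζ) := by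
    rw [Real.le_log_iff_exp_le (by positivity)]
    have h2 := Real.exp_one_lt_d9
    have h3 : (6 : ℝ) ≤ 6 / ζ := by
      rw [le_div_iff₀ h0]; linarith
    linarith
  have hPp' : 8 * (P : ℝ) / ζ * Real.log (6 / ζ) ≤ p' := by
    refine le_trans ?_ hp'
    have h4 : (P : ℝ) ≤ p + 5 := by exact_mod_cast hPp
    have h5 : 8 * (P : ℝ) / ζ ≤ 8 * ((p : ℝ) + 5) / ζ := by
      apply div_le_div_of_nonneg_right _ h0.le
      linarith
    exact mul_le_mul_of_nonneg_right h5 (by linarith)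
  have h8P : 8 * (P : ℝ) ≤ p' := by
    refine le_trans ?_ hPp'
    have h6 : 8 * (P : ℝ) ≤ 8 * (P : ℝ) / ζ := by
      rw [le_div_iff₀ h0]
      have : (0 : ℝ) ≤ P := Nat.cast_nonneg P
      nlinarith
    have h7 : (0 : ℝ) ≤ 8 * (P : ℝ) / ζ := by positivity
    nlinarith
  have h2P : 2 * P ≤ p' := by
    have : (2 * P : ℝ) ≤ p' := by
      have : (0 : ℝ) ≤ P := Nat.cast_nonneg P
      linarith
    exact_mod_cast this
  -- the `P`-th moment
  have hmomP : ζ ^ P * Ω.card ≤ ∑ i ∈ Ω, |F i| ^ P :=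
    h ι Ω (fun i => |F i|) ζ p P (fun i _ => abs_nonneg _) h0 hp hpP hmom
  have hmax : ∀ x : ℝ, |x| ^ P = 2 * (max x 0) ^ P - x ^ P := by
    intro x
    rcases le_total 0 x with hx | hx
    · rw [abs_of_nonneg hx, max_eq_left hx]; ring
    · rw [abs_of_nonpos hx, max_eq_right hx, hPodd.neg_pow, zero_pow (by omega)]; ring
  have hpos : ζ ^ P * Ω.card / 2 ≤ ∑ i ∈ Ω, (max (F i) 0) ^ P := by
    have h8 : ∑ i ∈ Ω, |F i| ^ P = 2 * ∑ i ∈ Ω, (max (F i) 0) ^ P - ∑ i ∈ Ω, F i ^ P := by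
      rw [Finset.mul_sum, ← Finset.sum_sub_distrib]
      exact Finset.sum_congr rfl fun i _ => hmax _
    have h9 := hodd P hPodd
    linarith
  let S : Finset ι := Ω.filter (fun i => 3 * ζ / 4 ≤ F i)
  have hS1 : ζ ^ P * Ω.card / 4 ≤ ∑ i ∈ S, F i ^ P := by
    have h10 : ∑ i ∈ Ω, (max (F i) 0) ^ P = ∑ i ∈ S, (max (F i) 0) ^ P +
        ∑ i ∈ Ω.filter (fun i => ¬ 3 * ζ / 4 ≤ F i), (max (F i) 0) ^ P :=
      (Finset.sum_filter_add_sum_filter_not Ω _ _).symm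
    have h11 : ∑ i ∈ Ω.filter (fun i => ¬ 3 * ζ / 4 ≤ F i), (max (F i) 0) ^ P ≤
        (Ω.card : ℝ) * (3 * ζ / 4) ^ P := by
      calc ∑ i ∈ Ω.filter (fun i => ¬ 3 * ζ / 4 ≤ F i), (max (F i) 0) ^ P
          ≤ ∑ i ∈ Ω.filter (fun i => ¬ 3 * ζ / 4 ≤ F i), (3 * ζ / 4) ^ P := by
            refine Finset.sum_le_sum fun i hi => ?_
            rw [Finset.mem_filter, not_le] at hi
            exact pow_le_pow_left₀ (le_max_right _ _) (max_le hi.2.le (by positivity)) P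
        _ = ((Ω.filter (fun i => ¬ 3 * ζ / 4 ≤ F i)).card : ℝ) * (3 * ζ / 4) ^ P := by
            rw [Finset.sum_const, nsmul_eq_mul]
        _ ≤ (Ω.card : ℝ) * (3 * ζ / 4) ^ P := by
            refine mul_le_mul_of_nonneg_right ?_ (by positivity)
            exact_mod_cast Finset.card_filter_le _ _
    have h12 : (3 * ζ / 4) ^ P ≤ ζ ^ P / 4 := by
      have e : (3 * ζ / 4) ^ P = ζ ^ P * (3 / 4) ^ P := by rw [← mul_pow]; ring
      have h13 : (3 / 4 : ℝ) ^ P ≤ (3 / 4 : ℝ) ^ 5 :=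
        pow_le_pow_of_le_one (by norm_num) (by norm_num) hP5
      have h14 : (3 / 4 : ℝ) ^ 5 ≤ 1 / 4 := by norm_num
      rw [e]
      have h15 : 0 < ζ ^ P := by positivity
      nlinarith
    have h16 : ∑ i ∈ S, (max (F i) 0) ^ P = ∑ i ∈ S, F i ^ P := by
      refine Finset.sum_congr rfl fun i hi => ?_
      rw [Finset.mem_filter] at hi
      rw [max_eq_left (le_trans (by positivity) hi.2)]
    have h17 := mul_le_mul_of_nonneg_left h12 hn.le
    rw [h16] at h10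
    nlinarith
  have hcs : (∑ i ∈ S, F i ^ P) ^ 2 ≤ (S.card : ℝ) * ∑ i ∈ Ω, F i ^ (2 * P) := by
    have h18 := sq_sum_le_card_mul_sum_sq (s := S) (f := fun i => F i ^ P)
    refine h18.trans (mul_le_mul_of_nonneg_left ?_ (Nat.cast_nonneg _))
    have h19 : ∑ i ∈ S, (F i ^ P) ^ 2 = ∑ i ∈ S, F i ^ (2 * P) :=
      Finset.sum_congr rfl fun i _ => by rw [← pow_mul, mul_comm]
    rw [h19]
    refine Finset.sum_le_sum_of_subset_of_nonneg (Finset.filter_subset _ _) fun i _ _ => ?_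
    rw [pow_mul]
    exact pow_nonneg (sq_nonneg _) _
  rcases lt_or_ge ((9 : ℝ) ^ P * Ω.card) (∑ i ∈ Ω, F i ^ (2 * P)) with hc | hc
  · -- large moments
    have h20 : (2 : ℝ) ^ (2 * P) * Ω.card ≤ ∑ i ∈ Ω, |1 + F i| ^ (2 * P) := by
      by_contra hlt
      rw [not_le] at hlt
      have h21 : ∑ i ∈ Ω, F i ^ (2 * P) ≤
          ∑ i ∈ Ω, (2 / 3 * (3 / 2 * |1 + F i|) ^ (2 * P) + 1 / 3 * 3 ^ (2 * P)) := by
        refine Finset.sum_le_sum fun i _ => ?_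
        refine le_trans ?_ (unbal_convex |1 + F i| (abs_nonneg _) (2 * P))
        have h22 : F i ^ (2 * P) = |F i| ^ (2 * P) := by
          rw [pow_mul, pow_mul, sq_abs]
        rw [h22]
        refine pow_le_pow_left₀ (abs_nonneg _) ?_ _
        have h23 : F i = (1 + F i) + (-1) := by ring
        calc |F i| = |(1 + F i) + (-1)| := by rw [← h23]
          _ ≤ |1 + F i| + |(-1 : ℝ)| := abs_add_le _ _
          _ = |1 + F i| + 1 := by rw [abs_neg, abs_one]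
      have h24 : ∑ i ∈ Ω, (2 / 3 * (3 / 2 * |1 + F i|) ^ (2 * P) + 1 / 3 * 3 ^ (2 * P)) =
          2 / 3 * (3 / 2) ^ (2 * P) * ∑ i ∈ Ω, |1 + F i| ^ (2 * P) +
            1 / 3 * 3 ^ (2 * P) * Ω.card := by
        rw [Finset.sum_add_distrib, Finset.sum_const, nsmul_eq_mul, Finset.mul_sum]
        congr 1
        · refine Finset.sum_congr rfl fun i _ => ?_
          rw [mul_pow]; ring
        · ring
      have h25 : (2 / 3 * (3 / 2) ^ (2 * P) : ℝ) * ∑ i ∈ Ω, |1 + F i| ^ (2 * P) ≤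
          2 / 3 * (3 / 2) ^ (2 * P) * ((2 : ℝ) ^ (2 * P) * Ω.card) :=
        mul_le_mul_of_nonneg_left hlt.le (by positivity)
      have h26 : (2 / 3 * (3 / 2) ^ (2 * P) * ((2 : ℝ) ^ (2 * P) * Ω.card)) =
          2 / 3 * (9 ^ P * Ω.card) := by
        have : ((3 / 2 : ℝ)) ^ (2 * P) * 2 ^ (2 * P) = 9 ^ P := by
          rw [← mul_pow, pow_mul]; norm_num
        calc (2 / 3 * (3 / 2) ^ (2 * P) * ((2 : ℝ) ^ (2 * P) * Ω.card))
            = 2 / 3 * (((3 / 2 : ℝ)) ^ (2 * P) * 2 ^ (2 * P)) * Ω.card := by ring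
          _ = _ := by rw [this]; ring
      have h27 : (3 : ℝ) ^ (2 * P) = 9 ^ P := by rw [pow_mul]; norm_num
      rw [h24, h27] at h21
      rw [h26] at h25
      linarith
    have h28 := h ι Ω (fun i => |1 + F i|) 2 (2 * P) p' (fun i _ => abs_nonneg _) (by norm_num)
      (by omega) h2P h20
    refine le_trans ?_ h28
    refine mul_le_mul_of_nonneg_right ?_ hn.le
    exact pow_le_pow_left₀ (by positivity) (by linarith) _
  · -- small moments
    have h30 : (ζ ^ P * Ω.card / 4) ^ 2 ≤ (S.card : ℝ) * (9 ^ P * Ω.card) := by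
      have h31 : (ζ ^ P * Ω.card / 4) ^ 2 ≤ (∑ i ∈ S, F i ^ P) ^ 2 :=
        pow_le_pow_left₀ (by positivity) hS1 2
      exact h31.trans (hcs.trans (mul_le_mul_of_nonneg_left hc (Nat.cast_nonneg _)))
    have h32 : (ζ / 6) ^ (2 * P) * Ω.card ≤ S.card := by
      have h33 : (ζ / 6) ^ (2 * P) * (16 * 9 ^ P) ≤ (ζ ^ P) ^ 2 := by
        have e1 : (ζ / 6) ^ (2 * P) * 36 ^ P = (ζ ^ P) ^ 2 := by
          rw [pow_mul, ← mul_pow, ← pow_mul, mul_comm P 2, pow_mul]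
          congr 1
          ring
        rw [← e1]
        refine mul_le_mul_of_nonneg_left ?_ (by positivity)
        have e2 : (36 : ℝ) ^ P = 4 ^ P * 9 ^ P := by rw [← mul_pow]; norm_num
        rw [e2]
        refine mul_le_mul_of_nonneg_right ?_ (by positivity)
        calc (16 : ℝ) = 4 ^ 2 := by norm_num
          _ ≤ 4 ^ P := pow_le_pow_right₀ (by norm_num) (by omega)
      have h34 : (ζ / 6) ^ (2 * P) * Ω.card * (16 * 9 ^ P * Ω.card) ≤
          (S.card : ℝ) * (16 * 9 ^ P * Ω.card) := by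
        have h35 : (ζ / 6) ^ (2 * P) * (16 * 9 ^ P) * (Ω.card : ℝ) ^ 2 ≤
            (ζ ^ P) ^ 2 * (Ω.card : ℝ) ^ 2 := mul_le_mul_of_nonneg_right h33 (by positivity)
        calc (ζ / 6) ^ (2 * P) * Ω.card * (16 * 9 ^ P * Ω.card)
            = (ζ / 6) ^ (2 * P) * (16 * 9 ^ P) * (Ω.card : ℝ) ^ 2 := by ring
          _ ≤ (ζ ^ P) ^ 2 * (Ω.card : ℝ) ^ 2 := h35
          _ = 16 * (ζ ^ P * Ω.card / 4) ^ 2 := by ring
          _ ≤ 16 * ((S.card : ℝ) * (9 ^ P * Ω.card)) := by linarith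
          _ = (S.card : ℝ) * (16 * 9 ^ P * Ω.card) := by ring
      exact le_of_mul_le_mul_right h34 (by positivity)
    have h36 : (S.card : ℝ) * (1 + 3 * ζ / 4) ^ p' ≤ ∑ i ∈ Ω, |1 + F i| ^ p' := by
      calc (S.card : ℝ) * (1 + 3 * ζ / 4) ^ p' = ∑ i ∈ S, (1 + 3 * ζ / 4) ^ p' := by
            rw [Finset.sum_const, nsmul_eq_mul]
        _ ≤ ∑ i ∈ S, |1 + F i| ^ p' := by
            refine Finset.sum_le_sum fun i hi => ?_
            rw [Finset.mem_filter] at hi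
            refine pow_le_pow_left₀ (by positivity) ?_ _
            refine le_trans ?_ (le_abs_self _)
            linarith [hi.2]
        _ ≤ ∑ i ∈ Ω, |1 + F i| ^ p' :=
            Finset.sum_le_sum_of_subset_of_nonneg (Finset.filter_subset _ _)
              fun i _ _ => pow_nonneg (abs_nonneg _) _
    have h37 := unbal_ratio ζ h0 h1 P p' hPp'
    calc (1 + ζ / 4) ^ p' * Ω.card
        ≤ (ζ / 6) ^ (2 * P) * (1 + 3 * ζ / 4) ^ p' * Ω.card :=
          mul_le_mul_of_nonneg_right h37 hn.le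
      _ = (ζ / 6) ^ (2 * P) * Ω.card * (1 + 3 * ζ / 4) ^ p' := by ring
      _ ≤ (S.card : ℝ) * (1 + 3 * ζ / 4) ^ p' := mul_le_mul_of_nonneg_right h32 (by positivity)
      _ ≤ _ := h36

end Pool.Agent.APP
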