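import Pool.Agent.Lib.MP_8a4e59_co.A.StmC

set_option autoImplicit false

/-!
Part A, piece `avg`: localisation of `∑_k T(d + ek)`.
-/

namespace Pool.Agent.APP

open Finset

/-- `ψ(y) = #{k ∈ B₃ : x₀+y-(d+ek), x₀+y, x₀+y+(d+ek) ∈ A}` -/
private noncomputable def avg_psi (A B₃ : Finset ℤ) (x₀ d : ℤ) (e : ℕ) (y : ℤ) : ℝ :=
  ∑ k ∈ B₃, if x₀ + y - (d + (e : ℤ) * k) ∈ A ∧ x₀ + y ∈ A ∧ x₀ + y + (d + (e : ℤ) * k) ∈ A then
    (1 : ℝ) else 0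

private theorem avg_psi_nonneg (A B₃ : Finset ℤ) (x₀ d : ℤ) (e : ℕ) (y : ℤ) :
    0 ≤ avg_psi A B₃ x₀ d e y := by
  refine sum_nonneg fun k _ => ?_
  split_ifs <;> norm_num

private theorem avg_psi_le (A B₃ : Finset ℤ) (x₀ d : ℤ) (e : ℕ) (y : ℤ) :
    avg_psi A B₃ x₀ d e y ≤ B₃.card := by
  have : avg_psi A B₃ x₀ d e y ≤ ∑ k ∈ B₃, (1 : ℝ) := by
    refine sum_le_sum fun k _ => ?_
    split_ifs <;> norm_num
  simpa using this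

private theorem avg_TT (A B B₃ : Finset ℤ) (x₀ d : ℤ) (e : ℕ) :
    ∑ k ∈ B₃, TT A x₀ B (d + (e : ℤ) * k) = ∑ y ∈ B, avg_psi A B₃ x₀ d e y := by
  unfold avg_psi TT
  rw [sum_comm]
  refine sum_congr rfl fun k _ => ?_
  rw [sum_boole]

private theorem avg_lct (A B₂ B₃ : Finset ℤ) (x₀ d y : ℤ) (e : ℕ) (he : 1 ≤ e) :
    lct (pre A (x₀ + y - d) e) (pre A (x₀ + y) e) (pre A (x₀ + y + d) e) B₂ B₃ =
      ∑ u ∈ B₂, avg_psi A B₃ x₀ d e (y + (e : ℤ) * u) := by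
  unfold lct avg_psi
  rw [← sum_product', ← sum_boole]
  refine sum_congr rfl fun c _ => ?_
  have e1 : x₀ + y - d + (e : ℤ) * (c.1 - c.2) = x₀ + (y + (e : ℤ) * c.1) - (d + (e : ℤ) * c.2) := by
    ring
  have e2 : x₀ + y + (e : ℤ) * c.1 = x₀ + (y + (e : ℤ) * c.1) := by ring
  have e3 : x₀ + y + d + (e : ℤ) * (c.1 + c.2) = x₀ + (y + (e : ℤ) * c.1) + (d + (e : ℤ) * c.2) := by
    ring
  have h : (c.1 - c.2 ∈ pre A (x₀ + y - d) e ∧ c.1 ∈ pre A (x₀ + y) e ∧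
      c.1 + c.2 ∈ pre A (x₀ + y + d) e) ↔ (x₀ + (y + (e : ℤ) * c.1) - (d + (e : ℤ) * c.2) ∈ A ∧
      x₀ + (y + (e : ℤ) * c.1) ∈ A ∧ x₀ + (y + (e : ℤ) * c.1) + (d + (e : ℤ) * c.2) ∈ A) := by
    rw [mem_pre he, mem_pre he, mem_pre he, e1, e2, e3]
  exact if_congr h rfl rfl

/-- sums over a set and over a translate of it -/
private theorem avg_shift (B : Finset ℤ) (b : ℤ) (ψ : ℤ → ℝ) (M E : ℝ) (h0 : ∀ y, 0 ≤ ψ y)
    (hM : ∀ y, ψ y ≤ M) (hM0 : 0 ≤ M)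
    (h1 : ((B.filter (fun n => n - b ∉ B)).card : ℝ) ≤ E)
    (h2 : ((B.filter (fun n => n + b ∉ B)).card : ℝ) ≤ E) :
    |∑ y ∈ B, ψ y - ∑ y ∈ B, ψ (y + b)| ≤ E * M := by
  have s1 := sum_filter_add_sum_filter_not B (fun n => n - b ∈ B) ψ
  have s2 := sum_filter_add_sum_filter_not B (fun n => n + b ∈ B) (fun y => ψ (y + b))
  have s3 : ∑ y ∈ B.filter (fun n => n + b ∈ B), ψ (y + b) =
      ∑ y ∈ B.filter (fun n => n - b ∈ B), ψ y := by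
    refine sum_bij (fun y _ => y + b) ?_ ?_ ?_ ?_
    · intro y hy
      rw [mem_filter] at hy ⊢
      refine ⟨hy.2, ?_⟩
      rw [add_sub_cancel_right]
      exact hy.1
    · intro y _ z _ h
      exact add_right_cancel h
    · intro y hy
      rw [mem_filter] at hy
      refine ⟨y - b, ?_, sub_add_cancel y b⟩
      rw [mem_filter]
      refine ⟨hy.2, ?_⟩
      rw [sub_add_cancel]
      exact hy.1
    · intro y _
      rfl
  have t1 : ∑ y ∈ B.filter (fun n => n - b ∉ B), ψ y ≤ E * M := by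
    refine (sum_le_sum fun y _ => hM y).trans ?_
    rw [sum_const, nsmul_eq_mul]
    exact mul_le_mul_of_nonneg_right h1 hM0
  have t2 : ∑ y ∈ B.filter (fun n => n + b ∉ B), ψ (y + b) ≤ E * M := by
    refine (sum_le_sum fun y _ => hM (y + b)).trans ?_
    rw [sum_const, nsmul_eq_mul]
    exact mul_le_mul_of_nonneg_right h2 hM0
  have t3 : 0 ≤ ∑ y ∈ B.filter (fun n => n - b ∉ B), ψ y := sum_nonneg fun y _ => h0 y
  have t4 : 0 ≤ ∑ y ∈ B.filter (fun n => n + b ∉ B), ψ (y + b) := sum_nonneg fun y _ => h0 _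
  rw [abs_le]
  constructor <;> linarith

theorem p_avg : S_shift → S_avg := by
  intro hshift A B₂ B₃ N Θ ρ ε₀ x₀ d e hN hρ hε0 hε1 he hreg hu
  set B := bohr N Θ ρ with hB
  rw [avg_TT]
  have e1 : ∑ y ∈ B, lct (pre A (x₀ + y - d) e) (pre A (x₀ + y) e) (pre A (x₀ + y + d) e) B₂ B₃ =
      ∑ u ∈ B₂, ∑ y ∈ B, avg_psi A B₃ x₀ d e (y + (e : ℤ) * u) := by
    rw [sum_comm]
    exact sum_congr rfl fun y _ => avg_lct A B₂ B₃ x₀ d y e he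
  have e2 : (B₂.card : ℝ) * ∑ y ∈ B, avg_psi A B₃ x₀ d e y =
      ∑ u ∈ B₂, ∑ y ∈ B, avg_psi A B₃ x₀ d e y := by
    rw [sum_const, nsmul_eq_mul]
  rw [e1, e2, ← sum_sub_distrib]
  refine (abs_sum_le_sum_abs _ _).trans ?_
  have e3 : ∑ u ∈ B₂, |∑ y ∈ B, avg_psi A B₃ x₀ d e y -
      ∑ y ∈ B, avg_psi A B₃ x₀ d e (y + (e : ℤ) * u)| ≤ ∑ u ∈ B₂, ε₀ * (B.card : ℝ) * B₃.card := by
    refine sum_le_sum fun u hu' => ?_
    obtain ⟨h1, h2⟩ := hshift N Θ ρ ε₀ ((e : ℤ) * u) hN hρ hε0 hε1 hreg (hu u hu')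
    exact avg_shift B _ _ _ _ (avg_psi_nonneg A B₃ x₀ d e) (avg_psi_le A B₃ x₀ d e)
      (Nat.cast_nonneg _) h1 h2
  refine e3.trans (le_of_eq ?_)
  rw [sum_const, nsmul_eq_mul]
  ring

end Pool.Agent.APP
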