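import Pool.Agent.Lib.MP_8a4e59_co.A.StmC

set_option autoImplicit false

namespace Pool.Agent.APP

open Finset

lemma few_one {A B : Finset ℤ} {x₀ : ℤ} (v : ℤ) :
    cnt A x₀ 1 B ≤ ((B.filter (fun y => x₀ + y + v ∈ A)).card : ℝ) +
      ((B.filter (fun n => n - v ∉ B)).card : ℝ) := by
  unfold cnt
  have h : (B.filter (fun n => x₀ + ((1 : ℕ) : ℤ) * n ∈ A)) ⊆
      ((B.filter (fun y => x₀ + y + v ∈ A)).image (fun y => y + v)) ∪
        B.filter (fun n => n - v ∉ B) := by
    intro n hn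
    rw [mem_filter] at hn
    rw [mem_union, mem_image, mem_filter]
    by_cases h : n - v ∈ B
    · left
      refine ⟨n - v, ?_, by ring⟩
      rw [mem_filter]
      refine ⟨h, ?_⟩
      have : x₀ + (n - v) + v = x₀ + ((1 : ℕ) : ℤ) * n := by push_cast; ring
      rw [this]
      exact hn.2
    · right
      exact ⟨hn.1, h⟩
  have h2 := (card_le_card h).trans (card_union_le _ _)
  have h3 := h2.trans (Nat.add_le_add_right card_image_le _)
  exact_mod_cast h3

lemma few_swap (A B S : Finset ℤ) (x₀ d : ℤ) (e : ℕ) :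
    ∑ y ∈ B, cnt A (x₀ + y + d) e S =
      ∑ k ∈ S, ((B.filter (fun y => x₀ + y + (d + (e : ℤ) * k) ∈ A)).card : ℝ) := by
  unfold cnt
  simp only [card_filter]
  push_cast
  rw [sum_comm]
  refine sum_congr rfl (fun k _ => sum_congr rfl (fun y _ => ?_))
  have : x₀ + y + d + (e : ℤ) * k = x₀ + y + (d + (e : ℤ) * k) := by ring
  rw [this]

theorem p_few : S_shift → S_few := by
  intro hsh A S N Θ ρ α η β ε₀ x₀ d e hN hρ hε hε1 hα hη hβ hreg hS hden hk hup
  set B := bohr N Θ ρ with hB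
  set bad := B.filter (fun y => cnt A (x₀ + y + d) e S < (1 - β) * α * (S.card : ℝ)) with hbad
  have hs : (0 : ℝ) < (S.card : ℝ) := by exact_mod_cast hS.card_pos
  -- lower bound
  have hlow : (S.card : ℝ) * ((α - ε₀) * (B.card : ℝ)) ≤ ∑ y ∈ B, cnt A (x₀ + y + d) e S := by
    rw [few_swap]
    have h1 : ∀ k ∈ S, (α - ε₀) * (B.card : ℝ) ≤
        ((B.filter (fun y => x₀ + y + (d + (e : ℤ) * k) ∈ A)).card : ℝ) := by
      intro k hkS
      have h2 := few_one (A := A) (B := B) (x₀ := x₀) (d + (e : ℤ) * k)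
      have h3 := (hsh N Θ ρ ε₀ (d + (e : ℤ) * k) hN hρ hε hε1 hreg (hk k hkS)).1
      rw [← hB] at h3
      linarith
    have h4 := Finset.card_nsmul_le_sum S _ _ h1
    rw [nsmul_eq_mul] at h4
    exact h4
  -- upper bound
  have hupp : ∑ y ∈ B, cnt A (x₀ + y + d) e S ≤
      (S.card : ℝ) * ((1 + η) * α * ((B.card : ℝ) - (bad.card : ℝ)) +
        (1 - β) * α * (bad.card : ℝ)) := by
    rw [← Finset.sum_filter_add_sum_filter_not B
      (fun y => cnt A (x₀ + y + d) e S < (1 - β) * α * (S.card : ℝ))]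
    have h1 : ∑ y ∈ bad, cnt A (x₀ + y + d) e S ≤
        (bad.card : ℝ) * ((1 - β) * α * (S.card : ℝ)) := by
      have := Finset.sum_le_card_nsmul bad (fun y => cnt A (x₀ + y + d) e S)
        ((1 - β) * α * (S.card : ℝ)) (fun y hy => (mem_filter.1 hy).2.le)
      rwa [nsmul_eq_mul] at this
    have h2 : ∑ y ∈ B.filter (fun y => ¬ cnt A (x₀ + y + d) e S < (1 - β) * α * (S.card : ℝ)),
        cnt A (x₀ + y + d) e S ≤
        ((B.card : ℝ) - (bad.card : ℝ)) * ((1 + η) * α * (S.card : ℝ)) := by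
      have h3 := Finset.sum_le_card_nsmul
        (B.filter (fun y => ¬ cnt A (x₀ + y + d) e S < (1 - β) * α * (S.card : ℝ)))
        (fun y => cnt A (x₀ + y + d) e S)
        ((1 + η) * α * (S.card : ℝ)) (fun y hy => hup y (mem_filter.1 hy).1)
      rw [nsmul_eq_mul] at h3
      have h4 : ((B.filter (fun y => ¬ cnt A (x₀ + y + d) e S <
          (1 - β) * α * (S.card : ℝ))).card : ℝ) = (B.card : ℝ) - (bad.card : ℝ) := by
        have := Finset.card_filter_add_card_filter_not (s := B)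
          (fun y => cnt A (x₀ + y + d) e S < (1 - β) * α * (S.card : ℝ))
        rw [← hbad] at this
        rw [eq_sub_iff_add_eq']
        exact_mod_cast this
      rw [h4] at h3
      exact h3
    rw [← hbad]
    nlinarith
  have h5 := hlow.trans hupp
  have h6 := le_of_mul_le_mul_left h5 hs
  have hn : (0 : ℝ) ≤ (bad.card : ℝ) := Nat.cast_nonneg _
  have h7 : 0 ≤ η * α * (bad.card : ℝ) := by positivity
  nlinarith

end Pool.Agent.APP
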