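import Pool.Agent.Lib.MP_8a4e59_co.A.StmC

set_option autoImplicit false

namespace Pool.Agent.APP

open Finset

private lemma par1_up {L x c : ℝ} {a : ℕ} (hL : 10000 ≤ L) (hc : c ≤ 10000) (h : x ≤ c * L ^ a) :
    x ≤ L ^ (a + 1) := by
  have h0 : 0 ≤ L ^ a := by positivity
  calc x ≤ c * L ^ a := h
    _ ≤ L * L ^ a := mul_le_mul_of_nonneg_right (hc.trans hL) h0
    _ = L ^ (a + 1) := by rw [pow_succ]; ring

private lemma par1_mono {L : ℝ} (hL : 10000 ≤ L) {a b : ℕ} (h : a ≤ b) : L ^ a ≤ L ^ b :=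
  pow_le_pow_right₀ (by linarith) h

private lemma par1_one {L : ℝ} (hL : 10000 ≤ L) (a : ℕ) : 1 ≤ L ^ a :=
  one_le_pow₀ (by linarith)

private lemma par1_log {x : ℝ} (hx : 0 < x) : -Real.log x ≤ 1 / x := by
  have := Real.log_le_sub_one_of_pos (show 0 < 1 / x by positivity)
  rw [one_div, Real.log_inv] at this
  rw [one_div]
  linarith

theorem p_par1 : S_par1 := by
  refine ⟨42, fun α η ε₀ hα hα1 hη hη1 hε hε1 => ?_⟩
  have hα4 : α ^ 4 ≤ 1 := pow_le_one₀ hα.le hα1
  have hα4' : α ^ 4 ≤ α := by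
    calc α ^ 4 = α ^ 3 * α := by ring
      _ ≤ 1 * α := mul_le_mul_of_nonneg_right (pow_le_one₀ hα.le hα1) hα.le
      _ = α := one_mul α
  have hε2 : ε₀ ≤ η / 100 := by
    refine hε1.trans ?_
    have : α ^ 4 * η ≤ 1 * η := mul_le_mul_of_nonneg_right hα4 hη.le
    linarith
  have hε3 : ε₀ ≤ α := by
    refine hε1.trans ?_
    have : α ^ 4 * η ≤ α * 1 := mul_le_mul hα4' (by linarith) hη.le hα.le
    linarith
  set L0 := Real.log (2 / ε₀) with hL0
  have hL01 : 1 ≤ L0 := by
    rw [hL0, Real.le_log_iff_exp_le (by positivity)]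
    have h1 := Real.exp_one_lt_d9
    rw [le_div_iff₀ hε]
    nlinarith
  set L := L0 / η with hLdef
  have hL1 : 1 / η ≤ L := div_le_div_of_nonneg_right hL01 hη.le
  have hL : 10000 ≤ L := by
    refine le_trans ?_ hL1
    rw [le_div_iff₀ hη]
    linarith
  have hL0L : L0 ≤ L := by
    rw [hLdef, le_div_iff₀ hη]
    nlinarith
  have hLp : 0 < L := by linarith
  have hl2 : Real.log 2 ≤ 1 := by
    have := Real.log_le_sub_one_of_pos (show (0 : ℝ) < 2 by norm_num)
    linarith
  have hl2' : 0 ≤ Real.log 2 := Real.log_nonneg (by norm_num)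
  have hl4 : Real.log 4 ≤ 3 := by
    have := Real.log_le_sub_one_of_pos (show (0 : ℝ) < 4 by norm_num)
    linarith
  have hl8 : Real.log 8 ≤ 7 := by
    have := Real.log_le_sub_one_of_pos (show (0 : ℝ) < 8 by norm_num)
    linarith
  have hl16 : Real.log 16 ≤ 15 := by
    have := Real.log_le_sub_one_of_pos (show (0 : ℝ) < 16 by norm_num)
    linarith
  -- log (2/α)
  have hlα0 : 0 ≤ Real.log (2 / α) := Real.log_nonneg (by rw [le_div_iff₀ hα]; linarith)
  have hlα : Real.log (2 / α) ≤ L := by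
    refine le_trans ?_ hL0L
    apply Real.log_le_log (by positivity)
    exact div_le_div_of_nonneg_left (by norm_num) hε hε3
  have hlα' : -Real.log α ≤ L := by
    rw [Real.log_div (by norm_num) hα.ne'] at hlα
    linarith
  -- jj
  have hjj : (jj α : ℝ) ≤ L ^ 2 := by
    have h1 : (jj α : ℝ) < 4 * Real.log (2 / α) + 1 := Nat.ceil_lt_add_one (by positivity)
    apply par1_up hL (c := 5) (a := 1) (by norm_num)
    rw [pow_one]
    linarith
  -- qq
  have hqq : (qq α η : ℝ) ≤ L ^ 4 := by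
    have h1 : (qq α η : ℝ) < (1000 + 10 * (jj α : ℝ)) / η + 1 := Nat.ceil_lt_add_one (by positivity)
    have h2 : (1000 + 10 * (jj α : ℝ)) / η ≤ (1000 + 10 * L ^ 2) * L := by
      rw [div_eq_mul_one_div]
      gcongr
    apply par1_up hL (c := 1011) (a := 3) (by norm_num)
    have h3 : (1000 + 10 * L ^ 2) * L = 1000 * L ^ 1 + 10 * L ^ 3 := by ring
    have h4 := par1_mono hL (show 1 ≤ 3 by norm_num)
    have h5 := par1_one hL 3
    linarith
  -- D
  have hD1 : DD α η ≤ 1 := min_le_left _ _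
  have hDα : α ≤ DD α η := by
    unfold DD
    apply le_min hα1
    nlinarith
  have hD0 : 0 < DD α η := lt_of_lt_of_le hα hDα
  have hlD : -Real.log (DD α η) ≤ L := by
    have := Real.log_le_log hα hDα
    linarith
  have hlD0 : 0 ≤ -Real.log (DD α η) := by
    have := Real.log_nonpos hD0.le hD1
    linarith
  -- τ
  set τ := tq α η with hτ
  have hτ0 : 0 < τ := by
    rw [hτ, tq]
    positivity
  have hτ1 : τ ≤ 1 / 4 := by
    rw [hτ, tq]
    have := pow_le_one₀ (n := qq α η) hD0.le hD1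
    linarith
  have hlτ : -Real.log τ ≤ L ^ 6 := by
    have h1 : Real.log τ = (qq α η : ℝ) * Real.log (DD α η) - Real.log 4 := by
      rw [hτ, tq, Real.log_div (by positivity) (by norm_num), Real.log_pow]
    have h2 : (qq α η : ℝ) * (-Real.log (DD α η)) ≤ L ^ 4 * L := by gcongr
    apply par1_up hL (c := 4) (a := 5) (by norm_num)
    have h3 : L ^ 4 * L = L ^ 5 := by ring
    have h4 := par1_one hL 5
    rw [h1]
    linarith
  have hlτ0 : 0 ≤ -Real.log τ := by
    have := Real.log_nonpos hτ0.le (by linarith)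
    linarith
  -- δ
  set δ := dq η with hδ
  have hsq0 : 0 < Real.sqrt η := Real.sqrt_pos.2 hη
  have hsq1 : η ≤ Real.sqrt η := by
    apply Real.le_sqrt_of_sq_le
    nlinarith
  have hsq2 : Real.sqrt η ≤ 1 := by
    rw [Real.sqrt_le_one]
    linarith
  have hδ0 : 0 < δ := by
    rw [hδ, dq]
    positivity
  have hδ1 : δ ≤ 1 := by
    rw [hδ, dq]
    linarith
  have h1δ : 1 / δ ≤ L ^ 2 := by
    apply par1_up hL (c := 20) (a := 1) (by norm_num)
    rw [pow_one]
    have h1 : 1 / δ = 20 * (1 / Real.sqrt η) := by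
      rw [hδ, dq]
      field_simp
    have h2 : 1 / Real.sqrt η ≤ 1 / η := one_div_le_one_div_of_le hη hsq1
    rw [h1]
    linarith
  have hlδ : -Real.log δ ≤ L ^ 2 := (par1_log hδ0).trans h1δ
  have hlδ0 : 0 ≤ -Real.log δ := by
    have := Real.log_nonpos hδ0.le hδ1
    linarith
  -- ℓ
  have hlog16 : Real.log (16 / (τ * δ)) = Real.log 16 - Real.log τ - Real.log δ := by
    rw [Real.log_div (by norm_num) (by positivity), Real.log_mul hτ0.ne' hδ0.ne']
    ring
  have hl16' : 0 < Real.log 16 := Real.log_pos (by norm_num)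
  have hpl : (pl τ δ : ℝ) ≤ L ^ 7 := by
    have h1 : (pl τ δ : ℝ) < Real.log (16 / (τ * δ)) + 1 :=
      Nat.ceil_lt_add_one (by rw [hlog16]; linarith)
    rw [hlog16] at h1
    apply par1_up hL (c := 18) (a := 6) (by norm_num)
    have h2 := par1_mono hL (show 2 ≤ 6 by norm_num)
    have h3 := par1_one hL 6
    linarith
  have hpl1 : (1 : ℝ) ≤ pl τ δ := by
    have h1 : 0 < pl τ δ := by
      unfold pl
      apply Nat.ceil_pos.2
      rw [hlog16]
      linarith
    exact_mod_cast h1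
  -- d₁
  set d := pd τ δ with hd
  have hd0 : 0 < d := by
    rw [hd, pd]
    positivity
  have hd1 : d ≤ 1 := by
    rw [hd, pd, div_le_one (by positivity)]
    linarith
  have h1d : 1 / d ≤ L ^ 10 := by
    apply par1_up hL (c := 8) (a := 9) (by norm_num)
    have h1 : 1 / d = 8 * ((pl τ δ : ℝ) * (1 / δ)) := by
      rw [hd, pd]
      field_simp
    have h2 : (pl τ δ : ℝ) * (1 / δ) ≤ L ^ 7 * L ^ 2 := by gcongr
    have h3 : L ^ 7 * L ^ 2 = L ^ 9 := by ring
    rw [h1]
    linarith
  have hld : -Real.log d ≤ L ^ 10 := (par1_log hd0).trans h1d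
  have hld0 : 0 ≤ -Real.log d := by
    have := Real.log_nonpos hd0.le hd1
    linarith
  -- k
  have hlog8 : Real.log (8 / (τ * d)) = Real.log 8 - Real.log τ - Real.log d := by
    rw [Real.log_div (by norm_num) (by positivity), Real.log_mul hτ0.ne' hd0.ne']
    ring
  have hl8' : 0 < Real.log 8 := Real.log_pos (by norm_num)
  have hk : (pk τ δ : ℝ) ≤ L ^ 32 := by
    have h0 : 0 ≤ Real.log (8 / (τ * d)) := by rw [hlog8]; linarith
    have h1 : (pk τ δ : ℝ) < 4 / d ^ 2 * Real.log (8 / (τ * d)) + 1 :=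
      Nat.ceil_lt_add_one (by positivity)
    have h2 : Real.log (8 / (τ * d)) ≤ L ^ 11 := by
      rw [hlog8]
      apply par1_up hL (c := 9) (a := 10) (by norm_num)
      have h2 := par1_mono hL (show 6 ≤ 10 by norm_num)
      have h3 := par1_one hL 10
      linarith
    have h3 : 4 / d ^ 2 ≤ 4 * L ^ 20 := by
      have e1 : 4 / d ^ 2 = 4 * (1 / d) ^ 2 := by
        field_simp
      have e2 : (1 / d) ^ 2 ≤ (L ^ 10) ^ 2 := pow_le_pow_left₀ (by positivity) h1d 2
      have e3 : (L ^ 10) ^ 2 = L ^ 20 := by ring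
      rw [e1]
      linarith
    have h4 : 4 / d ^ 2 * Real.log (8 / (τ * d)) ≤ 4 * L ^ 20 * L ^ 11 := by gcongr
    apply par1_up hL (c := 5) (a := 31) (by norm_num)
    have h5 : 4 * L ^ 20 * L ^ 11 = 4 * L ^ 31 := by ring
    have h6 := par1_one hL 31
    linarith
  -- τ'
  have hpt0 : 0 < pt τ δ := by
    unfold pt
    positivity
  have hlogpt : Real.log (2 / pt τ δ) = 2 * Real.log 2 + pk τ δ * (Real.log 2 - Real.log τ) := by
    unfold pt
    rw [Real.log_div (by norm_num) (by positivity), Real.log_mul (by norm_num) (by positivity),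
      Real.log_pow, Real.log_div hτ0.ne' (by norm_num), Real.log_div (by norm_num) (by norm_num),
      Real.log_one]
    ring
  have hlogpt0 : 0 ≤ Real.log (2 / pt τ δ) := by
    rw [hlogpt]
    have : 0 ≤ (pk τ δ : ℝ) * (Real.log 2 - Real.log τ) :=
      mul_nonneg (Nat.cast_nonneg _) (by linarith)
    linarith
  have hlogpt1 : Real.log (2 / pt τ δ) ≤ L ^ 39 := by
    rw [hlogpt]
    have h1 : (pk τ δ : ℝ) * (Real.log 2 - Real.log τ) ≤ L ^ 32 * (2 * L ^ 6) := by
      have h2 : Real.log 2 - Real.log τ ≤ 2 * L ^ 6 := by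
        have := par1_one hL 6
        linarith
      have h3 : 0 ≤ Real.log 2 - Real.log τ := by linarith
      gcongr
    apply par1_up hL (c := 4) (a := 38) (by norm_num)
    have h3 : L ^ 32 * (2 * L ^ 6) = 2 * L ^ 38 := by ring
    have h4 := par1_one hL 38
    linarith
  have hpm : (pm τ δ : ℝ) ≤ L ^ 40 := by
    have h1 : (pm τ δ : ℝ) < 8 * Real.log (2 / pt τ δ) + 1 :=
      Nat.ceil_lt_add_one (by positivity)
    apply par1_up hL (c := 9) (a := 39) (by norm_num)
    have h4 := par1_one hL 39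
    linarith
  refine ⟨hpl.trans (par1_mono hL (by norm_num)), hpm.trans (par1_mono hL (by norm_num)), ?_, ?_⟩
  · have hpe0 : 0 < pe τ δ := by
      unfold pe
      positivity
    rw [← Real.le_log_iff_exp_le hpe0]
    have h1 : Real.log (pe τ δ) = Real.log δ + Real.log τ - (pm τ δ + 1) - Real.log 16 := by
      unfold pe
      rw [Real.log_div (by positivity) (by norm_num), Real.log_mul (by positivity) (by positivity),
        Real.log_mul hδ0.ne' hτ0.ne', Real.log_exp]
      ring
    rw [h1]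
    have h2 : (19 : ℝ) * L ^ 40 ≤ L ^ 41 := par1_up hL (c := 19) (a := 40) (by norm_num) le_rfl
    have h3 := par1_mono hL (show 41 ≤ 42 by norm_num)
    have h4 := par1_one hL 40
    have h5 := par1_mono hL (show 2 ≤ 40 by norm_num)
    have h6 := par1_mono hL (show 6 ≤ 40 by norm_num)
    linarith
  · rw [← Real.le_log_iff_exp_le (by positivity), Real.log_mul hδ0.ne' hτ0.ne']
    have h2 : (2 : ℝ) * L ^ 6 ≤ L ^ 7 := par1_up hL (c := 2) (a := 6) (by norm_num) le_rfl
    have h3 := par1_mono hL (show 7 ≤ 42 by norm_num)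
    have h5 := par1_mono hL (show 2 ≤ 6 by norm_num)
    linarith

end Pool.Agent.APP
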