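import Pool.Agent.Lib.MP_8a4e59_co.A.StmC

set_option autoImplicit false

/-! [APP-A par2] the final radius bound (helper18) -/

namespace Pool.Agent.APP

open Finset

private lemma par2_num : (128 : ℝ) ≤ Real.exp 5 ∧ (8192 : ℝ) ≤ Real.exp 10 := by
  have h1 : (2.7 : ℝ) ≤ Real.exp 1 := by
    have := Real.exp_one_gt_d9
    linarith
  constructor
  · have h2 : Real.exp 5 = Real.exp 1 ^ 5 := by
      rw [← Real.exp_nat_mul]
      norm_num
    rw [h2]
    calc (128 : ℝ) ≤ 2.7 ^ 5 := by norm_num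
      _ ≤ Real.exp 1 ^ 5 := pow_le_pow_left₀ (by norm_num) h1 5
  · have h2 : Real.exp 10 = Real.exp 1 ^ 10 := by
      rw [← Real.exp_nat_mul]
      norm_num
    rw [h2]
    calc (8192 : ℝ) ≤ 2.7 ^ 10 := by norm_num
      _ ≤ Real.exp 1 ^ 10 := pow_le_pow_left₀ (by norm_num) h1 10

/-- lower bound of `kap` -/
private lemma par2_kap (R : ℕ) {ε x : ℝ} (h : Real.exp (-x) ≤ ε) :
    Real.exp (-(x + R + 5)) ≤ kap R ε := by
  unfold kap
  rw [le_div_iff₀ (by positivity)]
  have h1 : (R : ℝ) + 1 ≤ Real.exp R := Real.add_one_le_exp _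
  have h2 : 100 * ((R : ℝ) + 1) ≤ Real.exp (R + 5) := by
    rw [Real.exp_add, mul_comm (Real.exp (R : ℝ))]
    have h3 := par2_num.1
    have h4 : (0 : ℝ) ≤ (R : ℝ) + 1 := by positivity
    exact mul_le_mul (by linarith) h1 h4 (Real.exp_pos _).le
  calc Real.exp (-(x + R + 5)) * (100 * ((R : ℝ) + 1))
      ≤ Real.exp (-(x + R + 5)) * Real.exp (R + 5) :=
        mul_le_mul_of_nonneg_left h2 (Real.exp_pos _).le
    _ = Real.exp (-x) := by
        rw [← Real.exp_add]
        congr 1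
        ring
    _ ≤ ε := h

theorem p_par2 : S_par1 → S_par2 := by
  rintro ⟨C₂, hpar⟩
  refine ⟨max 10000 (C₂ + 10), le_max_left _ _, ?_⟩
  intro C hC R α η ε₀ ρY ρt ρ₃ ρ₆ hα hα1 hη hη1 hε hε1 hY hY1
  obtain ⟨hpl, hpm, hpe, hdt⟩ := hpar α η ε₀ hα hα1 hη hη1 hε hε1
  have hCC : C₂ + 10 ≤ C := (le_max_right _ _).trans hC
  obtain ⟨τ, hτ⟩ : ∃ τ, τ = tq α η := ⟨_, rfl⟩
  obtain ⟨δ, hδ⟩ : ∃ δ, δ = dq η := ⟨_, rfl⟩
  rw [← hτ, ← hδ] at hpl hpm hpe hdt ⊢
  obtain ⟨l, hl⟩ : ∃ l, l = Real.log (2 / ε₀) := ⟨_, rfl⟩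
  obtain ⟨L, hL⟩ : ∃ L, L = Real.log (2 / ε₀) / η := ⟨_, rfl⟩
  rw [← hL] at hpl hpm hpe hdt ⊢
  -- sizes
  have hε2 : ε₀ ≤ 1 / 1000000 := by
    have h1 : α ^ 4 ≤ 1 := pow_le_one₀ hα.le hα1
    have h2 : α ^ 4 * η ≤ 1 * (1 / 10000) := mul_le_mul h1 hη1 hη.le (by norm_num)
    linarith
  have hl1 : 1 ≤ l := by
    rw [hl, Real.le_log_iff_exp_le (by positivity)]
    have h1 : Real.exp 1 ≤ 3 := by
      have := Real.exp_one_lt_d9
      linarith
    rw [le_div_iff₀ hε]
    nlinarith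
  have hLl : L = l / η := by rw [hL, hl]
  have hL1 : 10000 ≤ L := by
    rw [hLl, le_div_iff₀ hη]
    nlinarith
  have hlL : l ≤ L := by
    rw [hLl, le_div_iff₀ hη]
    nlinarith
  obtain ⟨Z, hZ⟩ : ∃ Z, Z = (R : ℝ) + 1 + L := ⟨_, rfl⟩
  have hR0 : (0 : ℝ) ≤ R := by positivity
  have hZ1 : 10000 ≤ Z := by rw [hZ]; linarith
  rw [← hZ]
  obtain ⟨P, hP⟩ : ∃ P, P = L ^ C₂ := ⟨_, rfl⟩
  have hP0 : 0 ≤ P := by rw [hP]; positivity
  have hPZ : P ≤ Z ^ C₂ := by
    rw [hP]
    exact pow_le_pow_left₀ (by linarith) (by rw [hZ]; linarith) _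
  rw [← hP] at hpl hpm hpe hdt
  have hZC : Z ^ (C₂ + 2) ≤ Z ^ C := pow_le_pow_right₀ (by linarith) (by omega)
  have hZ1' : (1 : ℝ) ≤ Z ^ C₂ := one_le_pow₀ (by linarith)
  have hbig : 2 * P + 5 * R + 4 * L + 35 ≤ Z ^ C / 2 := by
    have h1 : 5 * (R : ℝ) + 4 * L + 35 ≤ 6 * Z := by rw [hZ]; linarith
    have h2 : Z ^ (C₂ + 2) = Z ^ C₂ * Z * Z := by ring
    have h3 : Z ≤ Z ^ C₂ * Z := le_mul_of_one_le_left (by linarith) hZ1'
    have h4 : Z ^ C₂ ≤ Z ^ C₂ * Z := le_mul_of_one_le_right (by linarith) (by linarith)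
    have h5 : Z ^ C₂ * Z * 16 ≤ Z ^ C₂ * Z * Z := by
      apply mul_le_mul_of_nonneg_left (by linarith)
      have : 0 ≤ Z := by linarith
      positivity
    rw [h2] at hZC
    linarith
  refine ⟨hpm.trans ?_, ?_⟩
  · rw [hP]
    exact pow_le_pow_right₀ (by linarith) (by omega)
  intro ht h3 h6
  obtain ⟨Y, hYd⟩ : ∃ Y, Y = Real.exp (-(Z ^ C / 2)) := ⟨_, rfl⟩
  have hY0 : 0 < Y := by rw [hYd]; exact Real.exp_pos _
  have hYle : Y ≤ 1 := by
    rw [hYd]
    apply Real.exp_le_one_iff.2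
    have : 0 ≤ Z ^ C := by
      have : 0 ≤ Z := by linarith
      positivity
    linarith
  have hYY : Real.exp (-(Z ^ C)) = Y * Y := by
    rw [hYd, ← Real.exp_add]
    congr 1
    ring
  have ht' : ρY * Y ≤ ρt := by
    rw [hYd, show -(Z ^ C / 2) = -(Z ^ C) / 2 by ring]
    exact ht
  rw [hYY]
  unfold pr
  have hP1 : P + 1 ≤ Real.exp P := Real.add_one_le_exp _
  have hmin : 2 * (ρY * (Y * Y)) ≤ min (kap R (pe τ δ) * ρ₆) (δ * τ / (64 * (pm τ δ + 1))) := by
    apply le_min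
    · -- first member
      have hk1 : Real.exp (-(P + R + 5)) ≤ kap R (pe τ δ) := par2_kap R hpe
      have he0 : Real.exp (-L) ≤ ε₀ := by
        have h1 : Real.exp (-l) = ε₀ / 2 := by
          rw [hl, Real.exp_neg, Real.exp_log (by positivity), inv_div]
        have h2 : Real.exp (-L) ≤ Real.exp (-l) := Real.exp_le_exp.2 (by linarith)
        linarith
      have hk2 : Real.exp (-(L + R + 5)) ≤ kap R ε₀ := par2_kap R he0
      have hk3 : Real.exp (-(4 * (L + R + 5))) ≤ kap R ε₀ ^ 4 := by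
        have := pow_le_pow_left₀ (Real.exp_pos _).le hk2 4
        rw [← Real.exp_nat_mul] at this
        refine le_trans (le_of_eq ?_) this
        congr 1
        push_cast
        ring
      have hρ3 : ρY * Y / 2 ≤ ρ₃ := by linarith
      have hρ30 : 0 ≤ ρY * Y / 2 := by positivity
      have hden : 2048 * ((pl τ δ : ℝ) + 1) ≤ 2048 * Real.exp P := by linarith
      have hρ6 : Real.exp (-(4 * (L + R + 5))) * (ρY * Y / 2) / (2048 * Real.exp P) ≤ ρ₆ := by
        refine le_trans ?_ h6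
        apply div_le_div₀
        · exact mul_nonneg (pow_nonneg ((Real.exp_pos _).le.trans hk2) 4) (hρ30.trans hρ3)
        · exact mul_le_mul hk3 hρ3 hρ30 (pow_nonneg ((Real.exp_pos _).le.trans hk2) 4)
        · positivity
        · exact hden
      have hρ60 : 0 ≤ Real.exp (-(4 * (L + R + 5))) * (ρY * Y / 2) / (2048 * Real.exp P) := by
        positivity
      have hfin := mul_le_mul hk1 hρ6 hρ60 ((Real.exp_pos _).le.trans hk1)
      refine le_trans ?_ hfin
      have hYs : 8192 * Y ≤ Real.exp (-(2 * P + 5 * R + 4 * L + 25)) := by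
        calc 8192 * Y ≤ Real.exp 10 * Y := mul_le_mul_of_nonneg_right par2_num.2 hY0.le
          _ = Real.exp (10 - Z ^ C / 2) := by
              rw [hYd, ← Real.exp_add]
              congr 1
          _ ≤ _ := Real.exp_le_exp.2 (by linarith)
      have hrew : Real.exp (-(P + R + 5)) *
          (Real.exp (-(4 * (L + R + 5))) * (ρY * Y / 2) / (2048 * Real.exp P)) =
          Real.exp (-(2 * P + 5 * R + 4 * L + 25)) * (ρY * Y / 4096) := by
        have h1 : Real.exp (-(2 * P + 5 * R + 4 * L + 25)) =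
            Real.exp (-(P + R + 5)) * Real.exp (-(4 * (L + R + 5))) * (Real.exp P)⁻¹ := by
          rw [← Real.exp_neg P, ← Real.exp_add, ← Real.exp_add]
          congr 1
          ring
        rw [h1]
        field_simp
        ring
      rw [hrew]
      have h9 := mul_le_mul_of_nonneg_right hYs (by positivity : 0 ≤ ρY * Y / 4096)
      refine le_trans (le_of_eq ?_) h9
      ring
    · -- second member
      rw [le_div_iff₀ (by positivity)]
      have h1 : (pm τ δ : ℝ) + 1 ≤ Real.exp P := by linarith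
      have h2 : ρY * (Y * Y) ≤ Y := by
        have h3 : Y * Y ≤ Y := mul_le_of_le_one_left hY0.le hYle
        have h4 : ρY * (Y * Y) ≤ 1 * (Y * Y) := mul_le_mul_of_nonneg_right hY1 (by positivity)
        linarith
      have h5 : 128 * Y ≤ Real.exp (-(2 * P)) := by
        calc 128 * Y ≤ Real.exp 5 * Y := mul_le_mul_of_nonneg_right par2_num.1 hY0.le
          _ = Real.exp (5 - Z ^ C / 2) := by
              rw [hYd, ← Real.exp_add]
              congr 1
          _ ≤ _ := Real.exp_le_exp.2 (by linarith)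
      have h6' : Real.exp (-(2 * P)) * Real.exp P = Real.exp (-P) := by
        rw [← Real.exp_add]
        congr 1
        ring
      have h7 : 128 * Y * Real.exp P ≤ Real.exp (-P) := by
        rw [← h6']
        exact mul_le_mul_of_nonneg_right h5 (Real.exp_pos _).le
      calc 2 * (ρY * (Y * Y)) * (64 * ((pm τ δ : ℝ) + 1))
          = (128 * (ρY * (Y * Y))) * ((pm τ δ : ℝ) + 1) := by ring
        _ ≤ (128 * Y) * Real.exp P := by
            apply mul_le_mul (by linarith) h1 (by positivity) (by positivity)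
        _ ≤ Real.exp (-P) := h7
        _ ≤ δ * τ := hdt
  linarith

end Pool.Agent.APP
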