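import Pool.Agent.Lib.MP_8a4e59_co.A.StmC

set_option autoImplicit false

/-! The local count at one point. (helper45) -/

namespace Pool.Agent.APP

open Finset

lemma point_jj {α : ℝ} (hα : 0 < α) (hα1 : α ≤ 1) : 1 ≤ jj α := by
  unfold jj
  apply Nat.ceil_pos.2
  have h1 : 0 < Real.log (2 / α) := by
    apply Real.log_pos
    rw [lt_div_iff₀ hα]; linarith
  linarith

lemma point_DD_pos {α η : ℝ} (hα : 0 < α) (hη : 0 < η) : 0 < DD α η := by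
  unfold DD
  exact lt_min one_pos (by positivity)

lemma point_DD_le {α η : ℝ} : DD α η ≤ 1 := min_le_left _ _

lemma point_DD_le' {α η : ℝ} : DD α η ≤ (1 + η) * α := min_le_right _ _

lemma point_qq {α η : ℝ} : (1000 + 10 * (jj α : ℝ)) / η ≤ qq α η := Nat.le_ceil _

lemma point_sq {η : ℝ} (hη : 0 < η) : Real.sqrt η * Real.sqrt η = η := Real.mul_self_sqrt hη.le

lemma point_sqrt_le {η : ℝ} (hη1 : η ≤ 1 / 10000) : Real.sqrt η ≤ 1 / 100 := by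
  have : Real.sqrt η ≤ Real.sqrt (1 / 10000) := Real.sqrt_le_sqrt hη1
  refine this.trans (le_of_eq ?_)
  rw [show (1 / 10000 : ℝ) = (1 / 100) ^ 2 by norm_num, Real.sqrt_sq (by norm_num)]

lemma point_le_sqrt {η : ℝ} (hη : 0 < η) (hη1 : η ≤ 1 / 10000) : η ≤ Real.sqrt η / 100 := by
  have h1 := point_sq hη
  have h2 := point_sqrt_le hη1
  have h3 : 0 ≤ Real.sqrt η := Real.sqrt_nonneg _
  nlinarith

lemma point_cnt_pre {A : Finset ℤ} {x y : ℤ} {e : ℕ} (he : 1 ≤ e) (S : Finset ℤ) :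
    cnt (pre A x e) y 2 S = cnt A (x + e * y) (2 * e) S := by
  unfold cnt
  congr 2
  ext n
  simp only [Finset.mem_filter]
  rw [mem_pre he]
  have : x + (e : ℤ) * (y + ((2:ℕ) : ℤ) * n) = x + e * y + ((2 * e : ℕ) : ℤ) * n := by
    push_cast; ring
  rw [this]

lemma point_cnt_le (A : Finset ℤ) (x : ℤ) (e : ℕ) (S : Finset ℤ) : cnt A x e S ≤ (S.card : ℝ) := by
  unfold cnt
  exact_mod_cast Finset.card_filter_le _ _

lemma point_two {N : ℝ} {Θ : Finset ℝ} {ρ : ℝ} {y : ℤ} (h : y ∈ bohr N Θ ρ) :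
    2 * y ∈ bohr N Θ (2 * ρ) := by
  have := add_mem_bohr h h
  rwa [← two_mul y, ← two_mul ρ] at this

lemma point_env (hcore : S_core) (A : Finset ℤ) (N : ℝ) (Θ : Finset ℝ) (ρ₂ ρ₃ ρ₄ ρ₅ ρ₆ α η ε₀ : ℝ) (x : ℤ)
    (e : ℕ) (hN : 0 < N) (hα : 0 < α) (hα1 : α ≤ 1) (hη : 0 < η) (hη1 : η ≤ 1 / 10000)
    (hε : 0 < ε₀) (hε1 : ε₀ ≤ 1) (he : 1 ≤ e)
    (hs : Scales N Θ ε₀ (tq α η) (dq η) ρ₃ ρ₂ ρ₄ ρ₅ ρ₆)
    (h3 : ∀ x : ℤ, cnt A x e (bohr N Θ ρ₃) ≤ (1 + η) * α * ((bohr N Θ ρ₃).card : ℝ))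
    (hH : ∀ (Θ' : Finset ℝ) (ρ' : ℝ), Θ ⊆ Θ' → Θ'.card ≤ Θ.card + pm (tq α η) (dq η) →
      pr Θ.card (tq α η) (dq η) ρ₆ ≤ ρ' → ρ' ≤ 2 * pr Θ.card (tq α η) (dq η) ρ₆ →
      Reg ε₀ (N / 2) Θ' ρ' → ∀ x : ℤ,
      cnt A x (2 * e) (bohr (N / 2) Θ' ρ') ≤ (1 + η) * α * ((bohr (N / 2) Θ' ρ').card : ℝ)) :
    Env (bohr N Θ ρ₄) (bohr N Θ ρ₅) (fun v => rr (pre A x e ∩ bohr N Θ ρ₃) v ^ qq α η) ≤
      ((1 + η) ^ 2 * (1 + Real.sqrt η) * α ^ 2 * ((bohr N Θ ρ₃).card : ℝ)) ^ qq α η := by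
  have hsq := point_sqrt_le hη1
  have hsqp : 0 < Real.sqrt η := Real.sqrt_pos.2 hη
  have hqq : 1 ≤ qq α η := by
    unfold qq
    apply Nat.ceil_pos.2
    positivity
  have hlog : 4 / Real.sqrt η * Real.log (80 / Real.sqrt η) ≤ qq α η := by
    refine le_trans ?_ point_qq
    have h1 : Real.log (80 / Real.sqrt η) ≤ 80 / Real.sqrt η := by
      have := Real.log_le_sub_one_of_pos (show 0 < 80 / Real.sqrt η by positivity)
      linarith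
    have h2 : 4 / Real.sqrt η * Real.log (80 / Real.sqrt η) ≤ 4 / Real.sqrt η * (80 / Real.sqrt η) :=
      mul_le_mul_of_nonneg_left h1 (by positivity)
    refine h2.trans ?_
    rw [div_mul_div_comm, point_sq hη]
    apply div_le_div_of_nonneg_right _ hη.le
    have : (0:ℝ) ≤ jj α := Nat.cast_nonneg _
    linarith
  have key := hcore (pre A x e) (pre A x e ∩ bohr N Θ ρ₃) N Θ ρ₄ ρ₅ ρ₆ (Real.sqrt η) (DD α η) ε₀ (qq α η)
    Finset.inter_subset_left hN hs.h6 hs.h65 hs.h54 hsqp (by linarith) (point_DD_pos hα hη) point_DD_le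
    hε hε1 hqq hlog hs.c4 hs.c5 hs.r6 (by
      intro Θ' ρ' hΘ hc h1 h2 hr y
      rw [point_cnt_pre he]
      have k1 := hH Θ' ρ' hΘ hc h1 h2 hr (x + e * y)
      have k2 := point_cnt_le A (x + e * y) (2 * e) (bohr (N / 2) Θ' ρ')
      unfold DD
      rcases le_total 1 ((1 + η) * α) with h | h
      · rw [min_eq_left h, one_mul]; exact k2
      · rw [min_eq_right h]; exact k1)
  refine key.trans ?_
  apply pow_le_pow_left₀
  · have := point_DD_pos hα hη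
    positivity
  · have k1 : ((pre A x e ∩ bohr N Θ ρ₃).card : ℝ) ≤ (1 + η) * α * ((bohr N Θ ρ₃).card : ℝ) := by
      rw [← cnt_eq_pre _ he]; exact h3 x
    have k2 : DD α η * ((pre A x e ∩ bohr N Θ ρ₃).card : ℝ) ≤
        ((1 + η) * α) * ((1 + η) * α * ((bohr N Θ ρ₃).card : ℝ)) :=
      mul_le_mul point_DD_le' k1 (Nat.cast_nonneg _) (by positivity)
    have k3 := mul_le_mul_of_nonneg_left k2 (show 0 ≤ 1 + Real.sqrt η by positivity)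
    calc (1 + Real.sqrt η) * DD α η * ((pre A x e ∩ bohr N Θ ρ₃).card : ℝ)
        = (1 + Real.sqrt η) * (DD α η * ((pre A x e ∩ bohr N Θ ρ₃).card : ℝ)) := by ring
      _ ≤ _ := k3
      _ = _ := by ring

/-- final numerics, part (a) -/
lemma point_numA {α l C X₁ X₃ b₂ b₃ ε₀ : ℝ} (hα : 0 < α) (hα1 : α ≤ 1) (hb2 : 0 ≤ b₂) (hb3 : 0 ≤ b₃)
    (hε : ε₀ ≤ α ^ 3 / 10) (hε0 : 0 ≤ ε₀) (hC0 : 0 ≤ C) (hC : C ≤ 11 / 10 * α * b₂)
    (h1 : X₁ ≤ 11 / 10 * α * b₃) (h3 : X₃ ≤ 11 / 10 * α * b₃)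
    (h : |l - C * (α * X₁ + α * X₃ - α ^ 2 * b₃)| ≤ 12 * α * b₂ * (8 * α ^ 2 * b₃) + 10 * ε₀ * b₂ * b₃) :
    l ≤ 200 * α ^ 3 * b₂ * b₃ := by
  have h0 := (abs_le.1 h).2
  have k1 : α * X₁ + α * X₃ - α ^ 2 * b₃ ≤ 12 / 10 * α ^ 2 * b₃ := by nlinarith
  have k2 : C * (α * X₁ + α * X₃ - α ^ 2 * b₃) ≤ C * (12 / 10 * α ^ 2 * b₃) :=
    mul_le_mul_of_nonneg_left k1 hC0
  have k3 : C * (12 / 10 * α ^ 2 * b₃) ≤ (11 / 10 * α * b₂) * (12 / 10 * α ^ 2 * b₃) :=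
    mul_le_mul_of_nonneg_right hC (by positivity)
  have k4 : 10 * ε₀ * b₂ * b₃ ≤ α ^ 3 * b₂ * b₃ := by
    have : 10 * ε₀ ≤ α ^ 3 := by linarith
    have := mul_le_mul_of_nonneg_right this (mul_nonneg hb2 hb3)
    linarith
  have k5 : 0 ≤ α ^ 3 * b₂ * b₃ := by positivity
  nlinarith

/-- final numerics, part (b) -/
lemma point_numB {α η s l C X₁ X₃ b₂ b₃ ε₀ : ℝ} (hα : 0 < α) (hs0 : 0 ≤ s) (hs1 : s ≤ 1 / 100)
    (hb2 : 0 ≤ b₂) (hb3 : 0 ≤ b₃) (hηs : η ≤ s / 100)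
    (hε : ε₀ ≤ α ^ 3 * s / 100)
    (hC : C ≤ (1 + η) * α * b₂) (hC' : (1 - s) * α * b₂ ≤ C)
    (h1 : X₁ ≤ (1 + η) * α * b₃) (h1' : (1 - s) * α * b₃ ≤ X₁)
    (h3 : X₃ ≤ (1 + η) * α * b₃) (h3' : (1 - s) * α * b₃ ≤ X₃)
    (h : |l - C * (α * X₁ + α * X₃ - α ^ 2 * b₃)| ≤ 12 * α * b₂ * (80 * s * α ^ 2 * b₃) + 10 * ε₀ * b₂ * b₃) :
    |l - α ^ 3 * b₂ * b₃| ≤ 2000 * s * α ^ 3 * b₂ * b₃ := by
  have h0 := abs_le.1 h
  set Z := α * X₁ + α * X₃ - α ^ 2 * b₃ with hZ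
  have z1 : Z ≤ (1 + 2 * η) * (α ^ 2 * b₃) := by nlinarith
  have z2 : (1 - 2 * s) * (α ^ 2 * b₃) ≤ Z := by nlinarith
  have hb : 0 ≤ α ^ 2 * b₃ := by positivity
  have hab : 0 ≤ α * b₂ := by positivity
  have hZ0 : 0 ≤ Z := le_trans (mul_nonneg (by linarith) hb) z2
  have u1 : C * Z ≤ ((1 + η) * α * b₂) * Z := mul_le_mul_of_nonneg_right hC hZ0
  have hη1 : 0 ≤ 1 + η ∨ 1 + η < 0 := le_or_gt 0 (1 + η)
  have q : 0 ≤ α ^ 3 * b₂ * b₃ := by positivity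
  have u0 : (1 - s) * α * b₂ * Z ≤ C * Z := mul_le_mul_of_nonneg_right hC' hZ0
  have u2 : (1 - s) * α * b₂ * ((1 - 2 * s) * (α ^ 2 * b₃)) ≤ (1 - s) * α * b₂ * Z :=
    mul_le_mul_of_nonneg_left z2 (by
      have : 0 ≤ 1 - s := by linarith
      positivity)
  have u3 : C * Z ≤ ((1 + s) * α * b₂) * ((1 + 2 * s) * (α ^ 2 * b₃)) := by
    have a1 : (1 + η) * α * b₂ ≤ (1 + s) * α * b₂ := by nlinarith
    have a2 : Z ≤ (1 + 2 * s) * (α ^ 2 * b₃) := by nlinarith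
    refine u1.trans (mul_le_mul a1 a2 hZ0 (by positivity))
  have k4 : 10 * ε₀ * b₂ * b₃ ≤ s * (α ^ 3 * b₂ * b₃) := by
    have h1 : 10 * ε₀ ≤ α ^ 3 * s := by
      have : 0 ≤ α ^ 3 * s := by positivity
      linarith
    have := mul_le_mul_of_nonneg_right h1 (mul_nonneg hb2 hb3)
    linarith
  have w1 : (1 + s) * α * b₂ * ((1 + 2 * s) * (α ^ 2 * b₃)) = (1 + 3 * s + 2 * s ^ 2) * (α ^ 3 * b₂ * b₃) := by
    ring
  have w2 : (1 - s) * α * b₂ * ((1 - 2 * s) * (α ^ 2 * b₃)) = (1 - 3 * s + 2 * s ^ 2) * (α ^ 3 * b₂ * b₃) := by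
    ring
  have w3 : 12 * α * b₂ * (80 * s * α ^ 2 * b₃) = 960 * s * (α ^ 3 * b₂ * b₃) := by ring
  rw [w3] at h0
  rw [w1] at u3
  rw [w2] at u2
  have s2 : s ^ 2 ≤ s / 100 := by nlinarith
  have t1 : (1 + 3 * s + 2 * s ^ 2) * (α ^ 3 * b₂ * b₃) ≤ (1 + 4 * s) * (α ^ 3 * b₂ * b₃) :=
    mul_le_mul_of_nonneg_right (by nlinarith) q
  have t2 : (1 - 4 * s) * (α ^ 3 * b₂ * b₃) ≤ (1 - 3 * s + 2 * s ^ 2) * (α ^ 3 * b₂ * b₃) :=
    mul_le_mul_of_nonneg_right (by nlinarith) q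
  have t3 : 0 ≤ s * (α ^ 3 * b₂ * b₃) := by positivity
  rw [abs_le]
  constructor
  · linarith [h0.1]
  · linarith [h0.2]

set_option maxHeartbeats 1000000 in
theorem p_point : S_core → S_momA → S_momB → S_local → S_shift → S_point := by
  intro hcore hmomA hmomB hlocal hshift A N Θ ρ₂ ρ₃ ρ₄ ρ₅ ρ₆ α η ε₀ x₁ x₂ x₃ e hN hρ3 hα hα1 hη hη1 hε hε1 he
    hR hs h2 h3 hH
  have hsq := point_sqrt_le hη1
  have hsqp : 0 < Real.sqrt η := Real.sqrt_pos.2 hη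
  have hss := point_sq hη
  have hηs := point_le_sqrt hη hη1
  have hα3 : 0 < α ^ 3 := by positivity
  have hα31 : α ^ 3 ≤ 1 := pow_le_one₀ hα.le hα1
  have hα4 : α ^ 4 ≤ α ^ 3 := by
    have : α ^ 4 = α ^ 3 * α := by ring
    rw [this]; nlinarith
  have hε2 : ε₀ ≤ α ^ 3 * Real.sqrt η / 100 := by
    have : α ^ 4 * η ≤ α ^ 3 * Real.sqrt η := mul_le_mul hα4 (by linarith) hη.le hα3.le
    linarith
  have hε3 : ε₀ ≤ α ^ 3 / 10 := by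
    have : α ^ 3 * Real.sqrt η ≤ α ^ 3 * 1 := mul_le_mul_of_nonneg_left (by linarith) hα3.le
    linarith
  have hεα : ε₀ / α ≤ η / 100 := by
    rw [div_le_iff₀ hα]
    have h4 : α ^ 4 ≤ α := by
      have : α ^ 4 = α * α ^ 3 := by ring
      rw [this]; nlinarith
    have : α ^ 4 * η ≤ α * η := mul_le_mul_of_nonneg_right h4 hη.le
    linarith
  have hεα' : ε₀ ≤ α / 10 := by
    rw [div_le_iff₀ hα] at hεα
    nlinarith
  have hε1' : ε₀ ≤ 1 := by linarith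
  have hρ5 : 0 < ρ₅ := lt_of_lt_of_le hs.h6 hs.h65
  have hρ4 : 0 < ρ₄ := lt_of_lt_of_le hρ5 hs.h54
  have hρ2 : 0 < ρ₂ := by have := hs.h42; linarith
  have h54 := hs.h54
  have h42 := hs.h42
  have h23 := hs.h23
  have hj1 := point_jj hα hα1
  have hjR : (1:ℝ) ≤ jj α := by exact_mod_cast hj1
  have hq := point_qq (α := α) (η := η)
  have hq2 : 2 * jj α ≤ qq α η := by
    have h1 : (2 * jj α : ℝ) ≤ qq α η := by
      refine le_trans ?_ hq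
      rw [le_div_iff₀ hη]
      nlinarith
    exact_mod_cast h1
  set B₂ := bohr N Θ ρ₂ with hB2
  set B₃ := bohr N Θ ρ₃ with hB3
  set B₄ := bohr N Θ ρ₄ with hB4
  set B₅ := bohr N Θ ρ₅ with hB5
  have n3 : B₃.Nonempty := bohr_nonempty hN.le hρ3.le
  have n4 : B₄.Nonempty := bohr_nonempty hN.le hρ4.le
  have n5 : B₅.Nonempty := bohr_nonempty hN.le hρ5.le
  have c2 : 0 < (B₂.card : ℝ) := bohr_card_pos hN.le hρ2.le
  have c3 : 0 < (B₃.card : ℝ) := bohr_card_pos hN.le hρ3.le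
  -- shifts
  have hdiff : ∀ u ∈ B₄ ×ˢ B₅, ∀ w ∈ B₄ ×ˢ B₅,
      (u.1 + u.2) - (w.1 + w.2) ∈ bohr N Θ (2 * ρ₄ + 2 * ρ₅) := by
    intro u hu w hw
    rw [Finset.mem_product] at hu hw
    have h := sub_mem_bohr (add_mem_bohr hu.1 hu.2) (add_mem_bohr hw.1 hw.2)
    have e1 : ρ₄ + ρ₅ + (ρ₄ + ρ₅) = 2 * ρ₄ + 2 * ρ₅ := by ring
    rwa [e1] at h
  have hAI : AInv B₃ B₄ B₅ ε₀ := by
    intro u hu w hw
    have h := hdiff u hu w hw
    have h' := point_two h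
    exact (hshift N Θ ρ₃ ε₀ _ hN hρ3 hε hε1' hR (bohr_mono hN.le (by linarith) h')).2
  have hy1 : ∀ y ∈ B₂, ((B₃.filter (fun n => n + y ∉ B₃)).card : ℝ) ≤ ε₀ * B₃.card := fun y hy =>
    (hshift N Θ ρ₃ ε₀ y hN hρ3 hε hε1' hR (bohr_mono hN.le (by linarith) hy)).2
  have hy2 : ∀ y ∈ B₂, ((B₃.filter (fun n => n - y ∉ B₃)).card : ℝ) ≤ ε₀ * B₃.card := fun y hy =>
    (hshift N Θ ρ₃ ε₀ y hN hρ3 hε hε1' hR (bohr_mono hN.le (by linarith) hy)).1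
  have hy3 : ∀ y ∈ B₂, ((B₃.filter (fun n => 2 * y - n ∉ B₃)).card : ℝ) ≤ ε₀ * B₃.card := by
    intro y hy
    have h' := point_two hy
    have h := (hshift N Θ ρ₃ ε₀ (2 * y) hN hρ3 hε hε1' hR (bohr_mono hN.le (by linarith) h')).1
    refine le_trans (le_of_eq ?_) h
    congr 2
    ext n
    simp only [Finset.mem_filter]
    refine and_congr_right (fun _ => not_congr ?_)
    constructor
    · intro hm
      have := neg_mem_bohr hm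
      rwa [neg_sub] at this
    · intro hm
      have := neg_mem_bohr hm
      rwa [neg_sub] at this
  have hB2p : ∀ y ∈ B₂, ∀ u ∈ B₄ ×ˢ B₅, ∀ w ∈ B₄ ×ˢ B₅,
      y - ((u.1 + u.2) - (w.1 + w.2)) ∈ bohr N Θ (ρ₂ + 2 * ρ₄ + 2 * ρ₅) := by
    intro y hy u hu w hw
    have h := sub_mem_bohr hy (hdiff u hu w hw)
    rwa [← add_assoc] at h
  -- densities
  have d1 : ∀ x : ℤ, ((pre A x e ∩ B₃).card : ℝ) ≤ (1 + η) * α * B₃.card := by
    intro x; rw [← cnt_eq_pre _ he]; exact h3 x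
  have d2 : ((pre A x₂ e ∩ B₂).card : ℝ) ≤ (1 + η) * α * B₂.card := by
    rw [← cnt_eq_pre _ he]; exact h2 x₂
  have d2' : ((pre A x₂ e ∩ B₂).card : ℝ) ≤ 2 * α * B₂.card := by
    refine d2.trans ?_
    have : (1 + η) * α ≤ 2 * α := by nlinarith
    exact mul_le_mul_of_nonneg_right this c2.le
  have henv : ∀ x : ℤ, Env B₄ B₅ (fun v => rr (pre A x e ∩ B₃) v ^ qq α η) ≤
      ((1 + η) ^ 2 * (1 + Real.sqrt η) * α ^ 2 * (B₃.card : ℝ)) ^ qq α η := fun x =>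
    point_env hcore A N Θ ρ₂ ρ₃ ρ₄ ρ₅ ρ₆ α η ε₀ x e hN hα hα1 hη hη1 hε hε1' he hs h3 hH
  have hlogj : 4 * Real.log (2 / α) ≤ jj α := Nat.le_ceil _
  have hneg : ∀ n ∈ B₃, -n ∈ B₃ := fun n hn => neg_mem_bohr hn
  have e1 : cnt A x₁ e B₃ = ((pre A x₁ e ∩ B₃).card : ℝ) := cnt_eq_pre _ he
  have e2 : cnt A x₂ e B₂ = ((pre A x₂ e ∩ B₂).card : ℝ) := cnt_eq_pre _ he
  have e3 : cnt A x₃ e B₃ = ((pre A x₃ e ∩ B₃).card : ℝ) := cnt_eq_pre _ he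
  constructor
  · have mA : ∀ x : ℤ, Env B₄ B₅ (fun v => |cor (bal (pre A x e ∩ B₃) B₃ α) (bal (pre A x e ∩ B₃) B₃ α) v| ^
        (2 * jj α)) ≤ (8 * α ^ 2 * (B₃.card : ℝ)) ^ (2 * jj α) := fun x =>
      hmomA B₄ B₅ B₃ (pre A x e ∩ B₃) α η (Real.sqrt η) ε₀ (2 * jj α) (qq α η) n4 n5 n3
        Finset.inter_subset_right hα hα1 hη.le (by linarith) hsqp.le (by linarith) hε.le hεα' hAI (d1 x) (henv x)
        (by omega) hq2
    have key := hlocal (pre A x₁ e) (pre A x₂ e) (pre A x₃ e) B₂ (bohr N Θ (ρ₂ + 2 * ρ₄ + 2 * ρ₅)) B₃ B₄ B₅ α ε₀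
      (8 * α ^ 2 * (B₃.card : ℝ)) (jj α) n4 n5 n3 hneg hα hα1 hε.le (by positivity) hj1 hy1 hy2 hy3 hB2p hs.c2
      d2' hlogj (mA x₁) (mA x₃)
    have hη2 : (1 + η) ≤ 11 / 10 := by linarith
    refine point_numA (C := ((pre A x₂ e ∩ B₂).card : ℝ)) (X₁ := ((pre A x₁ e ∩ B₃).card : ℝ))
      (X₃ := ((pre A x₃ e ∩ B₃).card : ℝ)) hα hα1 c2.le c3.le hε3 hε.le (Nat.cast_nonneg _) ?_ ?_ ?_ key
    · refine d2.trans ?_
      have : (1 + η) * α * (B₂.card : ℝ) = (1 + η) * (α * B₂.card) := by ring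
      rw [this]
      have := mul_le_mul_of_nonneg_right hη2 (show 0 ≤ α * (B₂.card : ℝ) by positivity)
      linarith
    · refine (d1 x₁).trans ?_
      have : (1 + η) * α * (B₃.card : ℝ) = (1 + η) * (α * B₃.card) := by ring
      rw [this]
      have := mul_le_mul_of_nonneg_right hη2 (show 0 ≤ α * (B₃.card : ℝ) by positivity)
      linarith
    · refine (d1 x₃).trans ?_
      have : (1 + η) * α * (B₃.card : ℝ) = (1 + η) * (α * B₃.card) := by ring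
      rw [this]
      have := mul_le_mul_of_nonneg_right hη2 (show 0 ≤ α * (B₃.card : ℝ) by positivity)
      linarith
  · intro g1 g2 g3
    rw [e1] at g1
    rw [e2] at g2
    rw [e3] at g3
    have hζ0 : 0 < 80 * Real.sqrt η := by positivity
    have hζ1 : 80 * Real.sqrt η ≤ 1 := by linarith
    have hz : 16 * (2 * Real.sqrt η + 4 * η + 2 * Real.sqrt η + 4 * ε₀ / α) ≤ 80 * Real.sqrt η := by
      have : 4 * ε₀ / α = 4 * (ε₀ / α) := by ring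
      rw [this]
      linarith
    have hqz : 8 * (((2 * jj α : ℕ) : ℝ) + 5) / (80 * Real.sqrt η) * Real.log (6 / (80 * Real.sqrt η)) + 1 ≤
        qq α η := by
      refine le_trans ?_ hq
      have l1 : Real.log (6 / (80 * Real.sqrt η)) ≤ 6 / (80 * Real.sqrt η) := by
        have := Real.log_le_sub_one_of_pos (show 0 < 6 / (80 * Real.sqrt η) by positivity)
        linarith
      have l2 : 8 * (((2 * jj α : ℕ) : ℝ) + 5) / (80 * Real.sqrt η) * Real.log (6 / (80 * Real.sqrt η)) ≤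
          8 * (((2 * jj α : ℕ) : ℝ) + 5) / (80 * Real.sqrt η) * (6 / (80 * Real.sqrt η)) :=
        mul_le_mul_of_nonneg_left l1 (by positivity)
      have l3 : 8 * (((2 * jj α : ℕ) : ℝ) + 5) / (80 * Real.sqrt η) * (6 / (80 * Real.sqrt η)) =
          48 * (((2 * jj α : ℕ) : ℝ) + 5) / (6400 * η) := by
        rw [div_mul_div_comm]
        congr 1
        · ring
        · calc 80 * Real.sqrt η * (80 * Real.sqrt η) = 6400 * (Real.sqrt η * Real.sqrt η) := by ring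
            _ = 6400 * η := by rw [hss]
      rw [l3] at l2
      have l4 : 48 * (((2 * jj α : ℕ) : ℝ) + 5) / (6400 * η) + 1 ≤ (1000 + 10 * (jj α : ℝ)) / η := by
        rw [le_div_iff₀ hη]
        have : (48 * (((2 * jj α : ℕ) : ℝ) + 5) / (6400 * η) + 1) * η =
            48 * (((2 * jj α : ℕ) : ℝ) + 5) / 6400 + η := by
          field_simp
        rw [this]
        push_cast
        linarith
      linarith
    have mB : ∀ x : ℤ, (1 - Real.sqrt η) * α * (B₃.card : ℝ) ≤ ((pre A x e ∩ B₃).card : ℝ) →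
        Env B₄ B₅ (fun v => |cor (bal (pre A x e ∩ B₃) B₃ α) (bal (pre A x e ∩ B₃) B₃ α) v| ^
        (2 * jj α)) ≤ (80 * Real.sqrt η * α ^ 2 * (B₃.card : ℝ)) ^ (2 * jj α) := fun x hx =>
      hmomB B₄ B₅ B₃ (pre A x e ∩ B₃) α η (Real.sqrt η) (Real.sqrt η) ε₀ (80 * Real.sqrt η) (2 * jj α) (qq α η)
        n4 n5 n3 Finset.inter_subset_right hα hα1 hη.le (by linarith) hsqp.le (by linarith) hsqp.le hε.le hεα' hAI
        (d1 x) hx (henv x) (by omega) hζ0 hζ1 hz hqz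
    have key := hlocal (pre A x₁ e) (pre A x₂ e) (pre A x₃ e) B₂ (bohr N Θ (ρ₂ + 2 * ρ₄ + 2 * ρ₅)) B₃ B₄ B₅ α ε₀
      (80 * Real.sqrt η * α ^ 2 * (B₃.card : ℝ)) (jj α) n4 n5 n3 hneg hα hα1 hε.le (by positivity) hj1 hy1 hy2 hy3
      hB2p hs.c2 d2' hlogj (mB x₁ g1) (mB x₃ g3)
    exact point_numB (η := η) (s := Real.sqrt η) hα hsqp.le hsq c2.le c3.le hηs hε2 d2 g2 (d1 x₁) g1 (d1 x₃) g3 key

end Pool.Agent.APP
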