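import Pool.Agent.Lib.MP_8a4e59_co.A.StmC

set_option autoImplicit false

/-! Existence of the scales (helper96). -/

namespace Pool.Agent.APP

open Finset

private lemma scale_reg {ε N ρ σ : ℝ} {Θ : Finset ℝ} (hN : 0 < N) (hρ : 0 < ρ) (hε : 0 < ε)
    (hε1 : ε ≤ 1) (h : Reg ε N Θ ρ) (hσ : σ ≤ ρ * (1 + kap Θ.card ε)) :
    ((bohr N Θ σ).card : ℝ) ≤ 2 * ((bohr N Θ ρ).card : ℝ) := by
  have hk := kap_pos (R := Θ.card) hε
  have h1 : ((bohr N Θ σ).card : ℝ) ≤ ((bohr N Θ (ρ * (1 + kap Θ.card ε))).card : ℝ) := by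
    exact_mod_cast card_le_card (bohr_mono hN.le hσ)
  have h2 : ((bohr N Θ (ρ * (1 - kap Θ.card ε))).card : ℝ) ≤ ((bohr N Θ ρ).card : ℝ) := by
    have : ρ * (1 - kap Θ.card ε) ≤ ρ := by
      have := mul_pos hρ hk
      linarith
    exact_mod_cast card_le_card (bohr_mono hN.le this)
  have h3 : (0 : ℝ) ≤ ((bohr N Θ (ρ * (1 - kap Θ.card ε))).card : ℝ) := Nat.cast_nonneg _
  have h4 : (1 + ε) * ((bohr N Θ (ρ * (1 - kap Θ.card ε))).card : ℝ) ≤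
      2 * ((bohr N Θ (ρ * (1 - kap Θ.card ε))).card : ℝ) :=
    mul_le_mul_of_nonneg_right (by linarith) h3
  have h5 : ((bohr N Θ (ρ * (1 + kap Θ.card ε))).card : ℝ) ≤
    (1 + ε) * ((bohr N Θ (ρ * (1 - kap Θ.card ε))).card : ℝ) := h
  linarith

theorem p_scale : S_reg → S_scale := by
  intro hreg N Θ ρ₃ ε₀ τ δ hN hρ₃ hε hε1 hτ hτ2 hδ hδ2
  set c := kap Θ.card ε₀ with hc
  have hc0 : 0 < c := kap_pos hε
  have hc1 : c ≤ 1 / 100 := (kap_le hε.le).trans (by linarith)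
  set l : ℝ := (pl τ δ : ℝ) with hl
  have hl0 : 0 ≤ l := Nat.cast_nonneg _
  have hpe0 : 0 < pe τ δ := by unfold pe; positivity
  have hpe1 : pe τ δ ≤ 1 := by
    unfold pe
    have h1 : Real.exp (-((pm τ δ : ℝ) + 1)) ≤ 1 := by
      apply Real.exp_le_one_iff.2
      have : (0 : ℝ) ≤ pm τ δ := Nat.cast_nonneg _
      linarith
    have h2 : δ * τ ≤ 1 := by nlinarith
    have h3 : δ * τ * Real.exp (-((pm τ δ : ℝ) + 1)) ≤ 1 * 1 :=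
      mul_le_mul h2 h1 (Real.exp_pos _).le (by norm_num)
    linarith
  obtain ⟨ρ₂, a2, b2, r2⟩ := hreg N Θ (c * ρ₃ / 4) ε₀ hN (by positivity) hε hε1
  have p2 : 0 < ρ₂ := lt_of_lt_of_le (by positivity) a2
  obtain ⟨ρ₄, a4, b4, r4⟩ := hreg N Θ (c * ρ₂ / 4) ε₀ hN (by positivity) hε hε1
  have p4 : 0 < ρ₄ := lt_of_lt_of_le (by positivity) a4
  obtain ⟨ρ₅, a5, b5, r5⟩ := hreg N Θ (c * ρ₄ / 2) ε₀ hN (by positivity) hε hε1
  have p5 : 0 < ρ₅ := lt_of_lt_of_le (by positivity) a5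
  obtain ⟨ρ₆, a6, b6, r6⟩ := hreg N Θ (c * ρ₅ / (4 * (l + 1))) (pe τ δ) hN (by positivity) hpe0 hpe1
  have p6 : 0 < ρ₆ := lt_of_lt_of_le (by positivity) a6
  have k2 : c * ρ₂ ≤ ρ₂ / 100 := by nlinarith
  have k4 : c * ρ₄ ≤ ρ₄ / 100 := by nlinarith
  have k5 : c * ρ₅ ≤ ρ₅ / 100 := by nlinarith
  have b6' : 4 * (l + 1) * ρ₆ ≤ c * ρ₅ := by
    rw [le_div_iff₀ (by positivity)] at b6
    linarith
  have hlρ : 0 ≤ l * ρ₆ := by positivity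
  have hcρ₅ : c * ρ₅ ≤ c * ρ₄ := mul_le_mul_of_nonneg_left (by linarith) hc0.le
  refine ⟨ρ₂, ρ₄, ρ₅, ρ₆, ⟨p6, ?_, ?_, ?_, ?_, r2, ?_, ?_, ?_, r6, ?_⟩⟩
  · linarith
  · linarith
  · linarith
  · linarith
  · refine scale_reg hN p2 hε hε1 r2 ?_
    rw [← hc]
    linarith
  · refine scale_reg hN p4 hε hε1 r4 ?_
    rw [← hc, ← hl]
    linarith
  · refine scale_reg hN p5 hε hε1 r5 ?_
    rw [← hc, ← hl]
    linarith
  · rw [← hl]
    refine le_trans ?_ a6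
    have e1 : c * (c * ρ₃ / 4 / 2) ≤ c * ρ₂ := mul_le_mul_of_nonneg_left a2 hc0.le
    have e2 : c * (c * ρ₂ / 4 / 2) ≤ c * ρ₄ := mul_le_mul_of_nonneg_left a4 hc0.le
    have e3 : c * (c * ρ₄ / 2 / 2) ≤ c * ρ₅ := mul_le_mul_of_nonneg_left a5 hc0.le
    have e4 : c ^ 2 * (c * ρ₃) ≤ 8 * (c ^ 2 * ρ₂) := by
      have := mul_le_mul_of_nonneg_left e1 hc0.le
      nlinarith
    have e5 : c * (c * ρ₂) ≤ 8 * (c * ρ₄) := by nlinarith
    have key : c ^ 4 * ρ₃ ≤ 256 * (c * ρ₅) := by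
      have f1 : c ^ 4 * ρ₃ = c ^ 2 * (c * (c * ρ₃)) := by ring
      have f2 : c * (c * ρ₃) ≤ 8 * (c * ρ₂) := by linarith
      have f3 : c ^ 2 * (c * (c * ρ₃)) ≤ c ^ 2 * (8 * (c * ρ₂)) :=
        mul_le_mul_of_nonneg_left f2 (by positivity)
      have f4 : c ^ 2 * (8 * (c * ρ₂)) = 8 * (c * (c * (c * ρ₂))) := by ring
      have f5 : c * (c * (c * ρ₂)) ≤ c * (8 * (c * ρ₄)) := mul_le_mul_of_nonneg_left e5 hc0.le
      have f6 : c * (8 * (c * ρ₄)) = 8 * (c * (c * ρ₄)) := by ring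
      have f7 : c * (c * ρ₄) ≤ 4 * (c * ρ₅) := by linarith
      linarith
    have e6 : c * ρ₅ / (4 * (l + 1)) / 2 = 256 * (c * ρ₅) / (2048 * (l + 1)) := by
      field_simp
      ring
    rw [e6]
    exact div_le_div_of_nonneg_right key (by positivity)

end Pool.Agent.APP
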