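import Pool.Agent.Lib.MP_8a4e59_co.A.StmC

set_option autoImplicit false

namespace Pool.Agent.APP

open Finset

lemma thmA_D_pos {α η : ℝ} (hα : 0 < α) (hη : 0 < η) : 0 < DD α η := by
  unfold DD; exact lt_min one_pos (by positivity)

lemma thmA_D_le {α η : ℝ} : DD α η ≤ 1 := min_le_left _ _

lemma thmA_tq_pos {α η : ℝ} (hα : 0 < α) (hη : 0 < η) : 0 < tq α η := by
  unfold tq; have := thmA_D_pos hα hη; positivity

lemma thmA_tq_le {α η : ℝ} (hα : 0 < α) (hη : 0 < η) : tq α η ≤ 1 / 2 := by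
  unfold tq
  have h1 := thmA_D_pos hα hη
  have h2 : DD α η ^ qq α η ≤ 1 := pow_le_one₀ h1.le thmA_D_le
  linarith

lemma thmA_pr (R : ℕ) (τ δ ρ₆ : ℝ) (hτ : 0 < τ) (hτ2 : τ ≤ 1 / 2) (hδ : 0 < δ) (hδ2 : δ ≤ 1 / 2)
    (h6 : 0 < ρ₆) : pr R τ δ ρ₆ ≤ ρ₆ / 2 := by
  unfold pr
  have h1 : pe τ δ ≤ 1 := by
    unfold pe
    have h0 : Real.exp (-((pm τ δ : ℝ) + 1)) ≤ 1 := by
      rw [Real.exp_le_one_iff]; have : (0:ℝ) ≤ (pm τ δ : ℝ) := Nat.cast_nonneg _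
      linarith
    have h2 : δ * τ ≤ 1 := mul_le_one₀ (by linarith) hτ.le (by linarith)
    have h3 : δ * τ * Real.exp (-((pm τ δ : ℝ) + 1)) ≤ 1 := mul_le_one₀ h2 (Real.exp_pos _).le h0
    linarith
  have h1' : 0 ≤ pe τ δ := by unfold pe; positivity
  have h2 : kap R (pe τ δ) ≤ 1 := (kap_le h1').trans (by linarith)
  have h3 := min_le_left (kap R (pe τ δ) * ρ₆) (δ * τ / (64 * (pm τ δ + 1)))
  have h4 : kap R (pe τ δ) * ρ₆ ≤ 1 * ρ₆ := mul_le_mul_of_nonneg_right h2 h6.le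
  linarith

lemma thmA_num2 {α η ε₀ : ℝ} (hα : 0 < α) (hα1 : α ≤ 1) (hη : 0 < η) (hε₀' : ε₀ ≤ α ^ 4 * η / 100) :
    ε₀ ≤ η * α := by
  have h3 : α ^ 3 ≤ 1 := pow_le_one₀ hα.le hα1
  have h4 : α ^ 4 ≤ α := by
    have : α ^ 4 = α * α ^ 3 := by ring
    rw [this]; exact mul_le_of_le_one_right hα.le h3
  have h5 : α ^ 4 * η ≤ α * η := mul_le_mul_of_nonneg_right h4 hη.le
  have h6 : 0 < α * η := mul_pos hα hη
  have h7 : η * α = α * η := mul_comm _ _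
  linarith

lemma thmA_num3 {α η ε₀ : ℝ} (hα : 0 < α) (hα1 : α ≤ 1) (hη : 0 < η) (hη1 : η ≤ 1)
    (hε₀' : ε₀ ≤ α ^ 4 * η / 100) : ε₀ ≤ Real.sqrt η * α ^ 3 := by
  have h0 : η ≤ Real.sqrt η := by
    apply Real.le_sqrt_of_sq_le
    rw [sq]; exact mul_le_of_le_one_right hη.le hη1
  have h4 : α ^ 4 ≤ α ^ 3 := pow_le_pow_of_le_one hα.le hα1 (by norm_num)
  have h5 : α ^ 4 * η ≤ α ^ 3 * Real.sqrt η := mul_le_mul h4 h0 hη.le (by positivity)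
  have h6 : 0 < α ^ 4 * η := by positivity
  have h7 : α ^ 3 * Real.sqrt η = Real.sqrt η * α ^ 3 := mul_comm _ _
  linarith

lemma thmA_num1 {α η ε₀ : ℝ} (hα : 0 < α) (hα1 : α ≤ 1) (hη : 0 < η) (hη1 : η ≤ 1)
    (hε₀' : ε₀ ≤ α ^ 4 * η / 100) : ε₀ ≤ 1 := by
  have h3 : α ^ 4 ≤ 1 := pow_le_one₀ hα.le hα1
  have h4 : α ^ 4 * η ≤ 1 := mul_le_one₀ h3 hη.le hη1
  linarith

lemma thmA_few {α η ε₀ b n : ℝ} (hα : 0 < α) (hη : 0 < η) (hb : 0 ≤ b) (hε : ε₀ ≤ η * α)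
    (h : Real.sqrt η * α * n ≤ (η * α + ε₀) * b) : n ≤ 2 * Real.sqrt η * b := by
  have hs : 0 < Real.sqrt η := Real.sqrt_pos.2 hη
  have hsq : Real.sqrt η * Real.sqrt η = η := Real.mul_self_sqrt hη.le
  have h3 : (η * α + ε₀) * b ≤ Real.sqrt η * α * (2 * Real.sqrt η * b) := by
    have e1 : Real.sqrt η * α * (2 * Real.sqrt η * b) = 2 * (Real.sqrt η * Real.sqrt η) * α * b := by
      ring
    rw [e1, hsq]
    have e2 : (η * α + ε₀) * b ≤ (2 * (η * α)) * b := mul_le_mul_of_nonneg_right (by linarith) hb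
    linarith
  exact le_of_mul_le_mul_left (h.trans h3) (mul_pos hs hα)

lemma thmA_fin {C s a b b2 b3 ε₀ TS FS : ℝ} (hC : 10000 ≤ C) (hs : 0 < s) (ha : 0 < a) (hb : 0 < b)
    (hb2 : 0 < b2) (hb3 : 0 < b3) (hε : ε₀ ≤ s * a ^ 3) (h1 : |b2 * TS - FS| ≤ ε₀ * b * b2 * b3)
    (h2 : |FS - b * (a ^ 3 * b2 * b3)| ≤ (2000 * s * (a ^ 3 * b2 * b3) + 3 * (2 * s) * (200 * (a ^ 3 * b2 * b3))) * b) :
    |TS - a ^ 3 * b * b3| ≤ C * s * a ^ 3 * b * b3 := by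
  have h3 : |b2 * (TS - a ^ 3 * b * b3)| ≤ b2 * (C * s * a ^ 3 * b * b3) := by
    have e1 : b2 * (TS - a ^ 3 * b * b3) = (b2 * TS - FS) + (FS - b * (a ^ 3 * b2 * b3)) := by ring
    rw [e1]
    refine (abs_add_le _ _).trans ((add_le_add h1 h2).trans ?_)
    have e2 : ε₀ * b * b2 * b3 ≤ s * a ^ 3 * b * b2 * b3 := by
      have : ε₀ * (b * b2 * b3) ≤ s * a ^ 3 * (b * b2 * b3) :=
        mul_le_mul_of_nonneg_right hε (by positivity)
      linarith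
    have e3 : (3201 : ℝ) * (s * a ^ 3 * b * b2 * b3) ≤ C * (s * a ^ 3 * b * b2 * b3) :=
      mul_le_mul_of_nonneg_right (by linarith) (by positivity)
    linarith
  rw [abs_mul, abs_of_pos hb2] at h3
  exact le_of_mul_le_mul_left h3 hb2

lemma thmA_sum {ι : Type} [DecidableEq ι] (B b1 b2 b3 : Finset ι) (F : ι → ℝ) (K s t u : ℝ)
    (ht : 0 ≤ t) (hu : 0 ≤ u)
    (h1 : (b1.card : ℝ) ≤ s * B.card) (h2 : (b2.card : ℝ) ≤ s * B.card) (h3 : (b3.card : ℝ) ≤ s * B.card)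
    (hgood : ∀ y ∈ B, y ∉ b1 → y ∉ b2 → y ∉ b3 → |F y - K| ≤ t)
    (hall : ∀ y ∈ B, |F y - K| ≤ u) :
    |∑ y ∈ B, F y - B.card * K| ≤ (t + 3 * s * u) * B.card := by
  have e1 : ∑ y ∈ B, F y - B.card * K = ∑ y ∈ B, (F y - K) := by
    rw [Finset.sum_sub_distrib, Finset.sum_const, nsmul_eq_mul]
  rw [e1]
  refine (Finset.abs_sum_le_sum_abs _ _).trans ?_
  have e2 : ∀ y ∈ B, |F y - K| ≤ t + (if y ∈ b1 then u else 0) + (if y ∈ b2 then u else 0) +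
      (if y ∈ b3 then u else 0) := by
    intro y hy
    have h0 := hall y hy
    by_cases c1 : y ∈ b1
    · rw [if_pos c1]
      have : 0 ≤ (if y ∈ b2 then u else 0) := by split_ifs <;> linarith
      have : 0 ≤ (if y ∈ b3 then u else 0) := by split_ifs <;> linarith
      linarith
    · by_cases c2 : y ∈ b2
      · rw [if_neg c1, if_pos c2]
        have : 0 ≤ (if y ∈ b3 then u else 0) := by split_ifs <;> linarith
        linarith
      · by_cases c3 : y ∈ b3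
        · rw [if_neg c1, if_neg c2, if_pos c3]; linarith
        · rw [if_neg c1, if_neg c2, if_neg c3]
          have := hgood y hy c1 c2 c3
          linarith
  refine (Finset.sum_le_sum e2).trans ?_
  rw [Finset.sum_add_distrib, Finset.sum_add_distrib, Finset.sum_add_distrib, Finset.sum_const, nsmul_eq_mul]
  have e3 : ∀ b : Finset ι, ∑ y ∈ B, (if y ∈ b then u else 0) ≤ b.card * u := by
    intro b
    rw [← Finset.sum_filter, Finset.sum_const, nsmul_eq_mul]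
    apply mul_le_mul_of_nonneg_right _ hu
    exact_mod_cast Finset.card_le_card (fun y hy => (Finset.mem_filter.1 hy).2)
  have f1 := e3 b1
  have f2 := e3 b2
  have f3 := e3 b3
  have g1 := mul_le_mul_of_nonneg_right h1 hu
  have g2 := mul_le_mul_of_nonneg_right h2 hu
  have g3 := mul_le_mul_of_nonneg_right h3 hu
  nlinarith

theorem p_thmA (hpar : S_par2) (hsc : S_scale) (hreg : S_reg) (hpt : S_point) (hfew : S_few)
    (havg : S_avg) : S_thmA := by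
  classical
  obtain ⟨C, hC, hpar⟩ := hpar
  refine ⟨C, by omega, ?_⟩
  intro A N Θ ρY α η ε₀ x₀ E hN hρY hρY1 hα hα1 hη hηC hε₀ hε₀' hRegY hdens hH2 e he heE ρt hρt hρt'
  have hCr : (10000 : ℝ) ≤ C := by exact_mod_cast hC
  have hη' : η ≤ 1 / 10000 := hηC.trans (one_div_le_one_div_of_le (by norm_num) hCr)
  have he0 : (0 : ℝ) < (e : ℝ) := by exact_mod_cast (by omega : 0 < e)
  have hNe : 0 < N / e := by positivity
  have hη1 : η ≤ 1 := hη'.trans (by norm_num)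
  have hε1 : ε₀ ≤ 1 := thmA_num1 hα hα1 hη hη1 hε₀'
  have hκ : 0 < kap Θ.card ε₀ := kap_pos hε₀
  have hκ1 : kap Θ.card ε₀ ≤ 1 / 100 := (kap_le hε₀.le).trans (by linarith)
  have hρt0 : 0 < ρt := lt_of_lt_of_le (by positivity) hρt
  have hRc : (scl e Θ).card = Θ.card := scl_card he Θ
  -- rho3
  obtain ⟨ρ₃, h31, h32, hR3⟩ := hreg (N / e) (scl e Θ) ρt ε₀ hNe hρt0 hε₀ hε1
  refine ⟨ρ₃, h31, h32, ?_⟩
  have hρ3 : 0 < ρ₃ := by linarith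
  have hτ := thmA_tq_pos hα hη
  have hτ2 := thmA_tq_le hα hη
  have hsη : 0 < Real.sqrt η := Real.sqrt_pos.2 hη
  have hsη1 : Real.sqrt η ≤ 1 / 100 := by
    rw [show (1 / 100 : ℝ) = Real.sqrt (1 / 10000) by
      rw [show (1 / 10000 : ℝ) = (1 / 100) ^ 2 by norm_num, Real.sqrt_sq (by norm_num)]]
    exact Real.sqrt_le_sqrt hη'
  have hsq : Real.sqrt η * Real.sqrt η = η := Real.mul_self_sqrt hη.le
  have hδ : 0 < dq η := by unfold dq; positivity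
  have hδ2 : dq η ≤ 1 / 2 := by unfold dq; linarith
  obtain ⟨ρ₂, ρ₄, ρ₅, ρ₆, hS⟩ := hsc (N / e) (scl e Θ) ρ₃ ε₀ (tq α η) (dq η) hNe hρ3 hε₀ hε1 hτ hτ2 hδ hδ2
  obtain ⟨hpm, hrad⟩ := hpar C le_rfl Θ.card α η ε₀ ρY ρt ρ₃ ρ₆ hα hα1 hη hη' hε₀ hε₀' hρY hρY1
  have hlow := hS.low
  rw [hRc] at hlow
  have hr := hrad hρt h31 hlow
  have h6 := hS.h6
  have h65 := hS.h65
  have h54 := hS.h54
  have h42 := hS.h42
  have h23 := hS.h23
  rw [hRc] at h23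
  have hρ23 : ρ₂ ≤ ρ₃ := by
    have : kap Θ.card ε₀ * ρ₃ ≤ 1 * ρ₃ := mul_le_mul_of_nonneg_right (by linarith) hρ3.le
    linarith
  have hρ2 : 0 < ρ₂ := by linarith
  have hpr6 : pr Θ.card (tq α η) (dq η) ρ₆ ≤ ρ₆ / 2 := thmA_pr _ _ _ _ hτ hτ2 hδ hδ2 h6
  have hρtY : ρt ≤ ρY := by
    have : kap Θ.card ε₀ * ρY ≤ 1 * ρY := mul_le_mul_of_nonneg_right (by linarith) hρY.le
    linarith
  have hL : (0 : ℝ) ≤ (Real.log (2 / ε₀) / η) ^ C := by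
    have : 0 ≤ Real.log (2 / ε₀) := Real.log_nonneg (by rw [le_div_iff₀ hε₀]; linarith)
    positivity
  have hcardΘ : (((scl e Θ).card : ℕ) : ℝ) ≤ Θ.card + (Real.log (2 / ε₀) / η) ^ C := by
    rw [hRc]; linarith
  have hE : e ≤ E := by omega
  have H2a : ∀ x : ℤ, cnt A x e (bohr (N / e) (scl e Θ) ρ₂) ≤
      (1 + η) * α * ((bohr (N / e) (scl e Θ) ρ₂).card : ℝ) :=
    hH2 e he hE (scl e Θ) ρ₂ hcardΘ (by linarith) (by linarith) hS.r2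
  have H3a : ∀ x : ℤ, cnt A x e (bohr (N / e) (scl e Θ) ρ₃) ≤
      (1 + η) * α * ((bohr (N / e) (scl e Θ) ρ₃).card : ℝ) :=
    hH2 e he hE (scl e Θ) ρ₃ hcardΘ (by linarith) (by linarith) hR3
  have H4a : ∀ (Θ' : Finset ℝ) (ρ' : ℝ), scl e Θ ⊆ Θ' → Θ'.card ≤ (scl e Θ).card + pm (tq α η) (dq η) →
      pr (scl e Θ).card (tq α η) (dq η) ρ₆ ≤ ρ' → ρ' ≤ 2 * pr (scl e Θ).card (tq α η) (dq η) ρ₆ →
      Reg ε₀ (N / e / 2) Θ' ρ' → ∀ x : ℤ,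
      cnt A x (2 * e) (bohr (N / e / 2) Θ' ρ') ≤ (1 + η) * α * ((bohr (N / e / 2) Θ' ρ').card : ℝ) := by
    intro Θ' ρ' _ hc h1 h2 h3
    rw [hRc] at hc h1 h2
    have e1 : N / e / 2 = N / ((2 * e : ℕ) : ℝ) := by push_cast; field_simp
    rw [e1] at h3 ⊢
    refine hH2 (2 * e) (by omega) heE Θ' ρ' ?_ (by linarith) (by linarith) h3
    have : (Θ'.card : ℝ) ≤ Θ.card + (pm (tq α η) (dq η) : ℝ) := by exact_mod_cast hc
    linarith
  intro d₀ hd₀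
  set BY := bohr N Θ ρY with hBY
  set B₂ := bohr (N / e) (scl e Θ) ρ₂ with hB₂
  set B₃ := bohr (N / e) (scl e Θ) ρ₃ with hB₃
  have hb : (0 : ℝ) < BY.card := bohr_card_pos (by linarith) hρY.le
  have hb2 : (0 : ℝ) < B₂.card := bohr_card_pos hNe.le hρ2.le
  have hb3 : (0 : ℝ) < B₃.card := bohr_card_pos hNe.le hρ3.le
  have hN0 : 0 < N := by linarith
  -- shifts
  have hB3s : ∀ k ∈ B₃, (e : ℤ) * k ∈ bohr N Θ (kap Θ.card ε₀ * ρY / 4) := by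
    intro k hk
    exact bohr_mono hN0.le (h32.trans hρt') ((mem_bohr_scl he).1 hk)
  have hB2s : ∀ k ∈ B₂, (e : ℤ) * k ∈ bohr N Θ (kap Θ.card ε₀ * ρY) := by
    intro k hk
    refine bohr_mono hN0.le ?_ ((mem_bohr_scl he).1 hk)
    have : 0 < kap Θ.card ε₀ * ρY := by positivity
    linarith
  have hB3d : ∀ d ∈ bohr N Θ (kap Θ.card ε₀ * ρY / 4), ∀ k ∈ B₃,
      d + (e : ℤ) * k ∈ bohr N Θ (kap Θ.card ε₀ * ρY) := by
    intro d hd k hk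
    refine bohr_mono hN0.le ?_ (add_mem_bohr hd (hB3s k hk))
    have : 0 < kap Θ.card ε₀ * ρY := by positivity
    linarith
  have hε₀2 : ε₀ ≤ η * α := thmA_num2 hα hα1 hη hε₀'
  have hε₀3 : ε₀ ≤ Real.sqrt η * α ^ 3 := thmA_num3 hα hα1 hη hη1 hε₀'
  -- few
  have few : ∀ (S : Finset ℤ) (d : ℤ), (0 : ℝ) < S.card →
      (∀ k ∈ S, d + (e : ℤ) * k ∈ bohr N Θ (kap Θ.card ε₀ * ρY)) →
      (∀ x : ℤ, cnt A x e S ≤ (1 + η) * α * (S.card : ℝ)) →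
      ((BY.filter (fun y => cnt A (x₀ + y + d) e S < (1 - Real.sqrt η) * α * (S.card : ℝ))).card : ℝ) ≤
        2 * Real.sqrt η * BY.card := by
    intro S d hS0 h1 h2
    have h := hfew A S N Θ ρY α η (Real.sqrt η) ε₀ x₀ d e hN0 hρY hε₀ hε1 hα hη.le hsη hRegY
      (by rw [← Finset.card_pos]; exact_mod_cast hS0) hdens h1 (fun y _ => h2 _)
    exact thmA_few hα hη hb.le hε₀2 h
  have f1 := few B₃ (-d₀) hb3 (hB3d _ (neg_mem_bohr hd₀)) H3a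
  have f2 := few B₂ 0 hb2 (fun k hk => by rw [zero_add]; exact hB2s k hk) H2a
  have f3 := few B₃ d₀ hb3 (hB3d _ hd₀) H3a
  -- points
  have hpoint : ∀ y : ℤ, _ := fun y => hpt A (N / e) (scl e Θ) ρ₂ ρ₃ ρ₄ ρ₅ ρ₆ α η ε₀ (x₀ + y - d₀) (x₀ + y)
    (x₀ + y + d₀) e hNe hρ3 hα hα1 hη hη' hε₀ hε₀' he hR3 hS H2a H3a H4a
  set F : ℤ → ℝ := fun y => lct (pre A (x₀ + y - d₀) e) (pre A (x₀ + y) e) (pre A (x₀ + y + d₀) e) B₂ B₃
    with hF
  have hF0 : ∀ y, 0 ≤ F y := fun y => by rw [hF]; unfold lct; positivity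
  have hK : 0 < α ^ 3 * (B₂.card : ℝ) * (B₃.card : ℝ) := by positivity
  have hsum := thmA_sum BY
    (BY.filter (fun y => cnt A (x₀ + y + -d₀) e B₃ < (1 - Real.sqrt η) * α * (B₃.card : ℝ)))
    (BY.filter (fun y => cnt A (x₀ + y + 0) e B₂ < (1 - Real.sqrt η) * α * (B₂.card : ℝ)))
    (BY.filter (fun y => cnt A (x₀ + y + d₀) e B₃ < (1 - Real.sqrt η) * α * (B₃.card : ℝ)))
    F (α ^ 3 * (B₂.card : ℝ) * (B₃.card : ℝ)) (2 * Real.sqrt η)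
    (2000 * Real.sqrt η * (α ^ 3 * (B₂.card : ℝ) * (B₃.card : ℝ)))
    (200 * (α ^ 3 * (B₂.card : ℝ) * (B₃.card : ℝ)))
    (by positivity) (by positivity) f1 f2 f3 ?_ ?_
  · have hav := havg A B₂ B₃ N Θ ρY ε₀ x₀ d₀ e hN0 hρY hε₀ hε1 he hRegY hB2s
    rw [← hBY] at hav
    exact thmA_fin hCr hsη hα hb hb2 hb3 hε₀3 hav hsum
  · intro y hy g1 g2 g3
    rw [Finset.mem_filter, not_and, not_lt] at g1 g2 g3
    have := (hpoint y).2 (by rw [sub_eq_add_neg]; exact g1 hy) (by have := g2 hy; rwa [add_zero] at this)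
      (g3 hy)
    refine this.trans (le_of_eq ?_)
    ring
  · intro y hy
    have h1 := (hpoint y).1
    have h2 := hF0 y
    rw [abs_le]
    constructor
    · linarith
    · have : F y ≤ 200 * α ^ 3 * (B₂.card : ℝ) * (B₃.card : ℝ) := h1
      linarith

end Pool.Agent.APP
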