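import Pool.Agent.Lib.MP_8a4e59_co.A.StmA

set_option autoImplicit false

/-! The structure lemma A2 from its pieces. (helper45) -/

namespace Pool.Agent.APP

open Finset

lemma A2_pl_ge {τ δ : ℝ} : Real.log (16 / (τ * δ)) ≤ pl τ δ := Nat.le_ceil _

lemma A2_pl_pos {τ δ : ℝ} (hτ : 0 < τ) (hτ' : τ ≤ 1 / 2) (hδ : 0 < δ) (hδ' : δ ≤ 1 / 2) :
    1 ≤ pl τ δ := by
  have h1 : 1 < 16 / (τ * δ) := by
    rw [lt_div_iff₀ (by positivity)]; nlinarith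
  have h2 : 0 < Real.log (16 / (τ * δ)) := Real.log_pos h1
  exact Nat.ceil_pos.2 h2

lemma A2_exp_pl {τ δ : ℝ} (hτ : 0 < τ) (hδ : 0 < δ) :
    Real.exp (-(pl τ δ : ℝ)) ≤ τ * δ / 16 := by
  have h := A2_pl_ge (τ := τ) (δ := δ)
  have h1 : Real.exp (-(pl τ δ : ℝ)) ≤ Real.exp (-Real.log (16 / (τ * δ))) :=
    Real.exp_le_exp.2 (by linarith)
  refine h1.trans (le_of_eq ?_)
  rw [← Real.log_inv, Real.exp_log (by positivity)]
  field_simp

lemma A2_pd_pos {τ δ : ℝ} (hτ : 0 < τ) (hτ' : τ ≤ 1 / 2) (hδ : 0 < δ) (hδ' : δ ≤ 1 / 2) :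
    0 < pd τ δ := by
  have : (0:ℝ) < pl τ δ := by exact_mod_cast A2_pl_pos hτ hτ' hδ hδ'
  unfold pd; positivity

lemma A2_pd_le {τ δ : ℝ} (hτ : 0 < τ) (hτ' : τ ≤ 1 / 2) (hδ : 0 < δ) (hδ' : δ ≤ 1 / 2) :
    pd τ δ ≤ 1 / 16 := by
  have : (1:ℝ) ≤ pl τ δ := by exact_mod_cast A2_pl_pos hτ hτ' hδ hδ'
  unfold pd
  rw [div_le_iff₀ (by positivity)]; linarith

lemma A2_log_pos {τ δ : ℝ} (hτ : 0 < τ) (hτ' : τ ≤ 1 / 2) (hδ : 0 < δ) (hδ' : δ ≤ 1 / 2) :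
    0 < Real.log (8 / (τ * pd τ δ)) := by
  have h1 := A2_pd_pos hτ hτ' hδ hδ'
  have h2 := A2_pd_le hτ hτ' hδ hδ'
  apply Real.log_pos
  rw [lt_div_iff₀ (by positivity)]; nlinarith

lemma A2_pk_pos {τ δ : ℝ} (hτ : 0 < τ) (hτ' : τ ≤ 1 / 2) (hδ : 0 < δ) (hδ' : δ ≤ 1 / 2) :
    1 ≤ pk τ δ := by
  have h1 := A2_pd_pos hτ hτ' hδ hδ'
  have h2 := A2_log_pos hτ hτ' hδ hδ'
  exact Nat.ceil_pos.2 (by positivity)

lemma A2_exp_pk {τ δ : ℝ} (hτ : 0 < τ) (hτ' : τ ≤ 1 / 2) (hδ : 0 < δ) (hδ' : δ ≤ 1 / 2) :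
    Real.exp (-((pk τ δ : ℝ) * pd τ δ ^ 2 / 4)) ≤ τ * pd τ δ / 8 := by
  have h1 := A2_pd_pos hτ hτ' hδ hδ'
  have h : 4 / pd τ δ ^ 2 * Real.log (8 / (τ * pd τ δ)) ≤ pk τ δ := Nat.le_ceil _
  have h2 : Real.log (8 / (τ * pd τ δ)) ≤ (pk τ δ : ℝ) * pd τ δ ^ 2 / 4 := by
    have h3 : Real.log (8 / (τ * pd τ δ)) =
        (4 / pd τ δ ^ 2 * Real.log (8 / (τ * pd τ δ))) * pd τ δ ^ 2 / 4 := by
      field_simp
    rw [h3]
    have := mul_le_mul_of_nonneg_right h (sq_nonneg (pd τ δ))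
    linarith
  have h4 : Real.exp (-((pk τ δ : ℝ) * pd τ δ ^ 2 / 4)) ≤ Real.exp (-Real.log (8 / (τ * pd τ δ))) :=
    Real.exp_le_exp.2 (by linarith)
  refine h4.trans (le_of_eq ?_)
  rw [← Real.log_inv, Real.exp_log (by positivity)]
  field_simp

lemma A2_pt_pos {τ δ : ℝ} (hτ : 0 < τ) : 0 < pt τ δ := by unfold pt; positivity

lemma A2_pt_le {τ δ : ℝ} (hτ : 0 < τ) (hτ' : τ ≤ 1 / 2) : pt τ δ ≤ 1 := by
  unfold pt
  have : (τ / 2) ^ pk τ δ ≤ 1 := pow_le_one₀ (by positivity) (by linarith)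
  linarith

lemma A2_pe_pos {τ δ : ℝ} (hτ : 0 < τ) (hδ : 0 < δ) : 0 < pe τ δ := by unfold pe; positivity

lemma A2_pe_le {τ δ : ℝ} (hτ : 0 < τ) (hτ' : τ ≤ 1 / 2) (hδ : 0 < δ) (hδ' : δ ≤ 1 / 2) :
    pe τ δ ≤ 1 := by
  unfold pe
  have h : Real.exp (-((pm τ δ : ℝ) + 1)) ≤ 1 := by
    apply Real.exp_le_one_iff.2
    have : (0:ℝ) ≤ pm τ δ := Nat.cast_nonneg _
    linarith
  have h2 : δ * τ ≤ 1 := by nlinarith
  have h3 : δ * τ * Real.exp (-((pm τ δ : ℝ) + 1)) ≤ 1 * 1 :=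
    mul_le_mul h2 h (Real.exp_nonneg _) (by norm_num)
  linarith

lemma A2_sum_mem_bohr {N : ℝ} {Θ : Finset ℝ} {r : ℝ} (hN : 0 ≤ N) :
    ∀ (l : ℕ) (v : Fin l → ℤ), (∀ j, v j ∈ bohr N Θ r) → ∑ j, v j ∈ bohr N Θ (l * r) := by
  intro l
  induction l with
  | zero =>
    intro v _
    simp only [Finset.univ_eq_empty, Finset.sum_empty, Nat.cast_zero, zero_mul]
    exact zero_mem_bohr hN le_rfl
  | succ l ih =>
    intro v hv
    rw [Fin.sum_univ_castSucc]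
    have h := add_mem_bohr (ih (fun j => v j.castSucc) (fun j => hv _)) (hv (Fin.last l))
    have e : ((l + 1 : ℕ) : ℝ) * r = l * r + r := by push_cast; ring
    rw [e]; exact h

lemma A2_vsum_mem {N : ℝ} {Θ : Finset ℝ} {r : ℝ} (hN : 0 ≤ N) {T : Finset ℤ} (hT : T ⊆ bohr N Θ r)
    {l : ℕ} {q : Fin l → ℤ × ℤ} (hq : q ∈ TTl T l) : vsum q ∈ bohr N Θ (l * (2 * r)) := by
  unfold vsum
  apply A2_sum_mem_bohr hN
  intro j
  unfold TTl at hq
  rw [Fintype.mem_piFinset] at hq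
  have h := hq j
  rw [Finset.mem_product] at h
  rw [two_mul]
  exact sub_mem_bohr (hT h.1) (hT h.2)

lemma A2_Phi_nonneg (A₁ S : Finset ℤ) (x : ℤ) : 0 ≤ Phi A₁ S x := by unfold Phi; positivity

lemma A2_Phi_le (A₁ S : Finset ℤ) (x : ℤ) : Phi A₁ S x ≤ 1 := by
  unfold Phi
  apply div_le_one_of_le₀
  · exact_mod_cast Finset.card_filter_le _ _
  · positivity

lemma A2_Phi_eq {A₁ S : Finset ℤ} (hA : A₁.Nonempty) (x : ℤ) :
    ∑ a ∈ A₁, (if a - x ∈ S then (1 : ℝ) else 0) = A₁.card * Phi A₁ S x := by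
  unfold Phi
  have : (A₁.card : ℝ) ≠ 0 := by exact_mod_cast hA.card_pos.ne'
  rw [mul_div_cancel₀ _ this, Finset.sum_boole]

/-- approximate invariance of the Fourier coefficient -/
lemma A2_ahat_shift {B : Finset ℤ} {ψ e : ℝ} {b : ℤ} (hB : B.Nonempty)
    (h1 : ((B.filter (fun n => n - b ∉ B)).card : ℝ) ≤ e * B.card)
    (h2 : ((B.filter (fun n => n + b ∉ B)).card : ℝ) ≤ e * B.card) :
    ‖ee (ψ * b) - 1‖ * ‖ahat B ψ‖ ≤ 2 * e := by
  have hc : (0 : ℝ) < B.card := by exact_mod_cast hB.card_pos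
  rw [← norm_mul]
  have e1 : (ee (ψ * b) - 1) * ahat B ψ =
      (∑ x ∈ B, ee (ψ * ((x + b : ℤ) : ℝ)) - ∑ x ∈ B, ee (ψ * x)) / (B.card : ℂ) := by
    unfold ahat
    rw [← mul_div_assoc, sub_mul, one_mul, Finset.mul_sum]
    congr 2
    apply Finset.sum_congr rfl
    intro x _
    rw [← ee_add]; congr 1; push_cast; ring
  have e2 : ∑ x ∈ B, ee (ψ * ((x + b : ℤ) : ℝ)) =
      ∑ y ∈ B.filter (fun n => n - b ∈ B), ee (ψ * y) +
      ∑ x ∈ B.filter (fun n => n + b ∉ B), ee (ψ * ((x + b : ℤ) : ℝ)) := by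
    rw [← Finset.sum_filter_add_sum_filter_not B (fun n => n + b ∈ B)]
    congr 1
    apply Finset.sum_nbij' (fun x => x + b) (fun y => y - b)
    · intro x hx
      rw [Finset.mem_filter] at hx ⊢
      refine ⟨hx.2, ?_⟩
      rw [add_sub_cancel_right]; exact hx.1
    · intro y hy
      rw [Finset.mem_filter] at hy ⊢
      refine ⟨hy.2, ?_⟩
      rw [sub_add_cancel]; exact hy.1
    · intro x _; simp
    · intro y _; simp
    · intro x _; rfl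
  have e3 : ∑ x ∈ B, ee (ψ * x) =
      ∑ y ∈ B.filter (fun n => n - b ∈ B), ee (ψ * y) +
      ∑ y ∈ B.filter (fun n => n - b ∉ B), ee (ψ * y) :=
    (Finset.sum_filter_add_sum_filter_not B (fun n => n - b ∈ B) _).symm
  rw [e1, e2, e3, add_sub_add_left_eq_sub, norm_div, Complex.norm_natCast, div_le_iff₀ hc]
  refine (norm_sub_le _ _).trans ?_
  have n1 : ‖∑ x ∈ B.filter (fun n => n + b ∉ B), ee (ψ * ((x + b : ℤ) : ℝ))‖ ≤
      ((B.filter (fun n => n + b ∉ B)).card : ℝ) := by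
    refine (norm_sum_le _ _).trans ?_
    simp [norm_ee]
  have n2 : ‖∑ y ∈ B.filter (fun n => n - b ∉ B), ee (ψ * y)‖ ≤
      ((B.filter (fun n => n - b ∉ B)).card : ℝ) := by
    refine (norm_sum_le _ _).trans ?_
    simp [norm_ee]
  linarith

lemma A2_ee_sub_one_add (x y : ℝ) : ‖ee (x + y) - 1‖ ≤ ‖ee x - 1‖ + ‖ee y - 1‖ := by
  have : ee (x + y) - 1 = (ee x - 1) * ee y + (ee y - 1) := by rw [ee_add]; ring
  rw [this]
  refine (norm_add_le _ _).trans ?_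
  rw [norm_mul, norm_ee, mul_one]

lemma A2_nn_sum (Γ : Finset ℝ) (f : ℝ → ℝ) : nn (∑ c ∈ Γ, f c) ≤ ∑ c ∈ Γ, nn (f c) := by
  classical
  induction Γ using Finset.induction_on with
  | empty => simp [nn_zero]
  | insert a s ha ih =>
    rw [Finset.sum_insert ha, Finset.sum_insert ha]
    exact (nn_add _ _).trans (by linarith)

/-- the bound for the characters in the large spectrum -/
lemma A2_large {B₆ : Finset ℤ} {b : ℤ} {γ e ρ' X : ℝ} {m : ℕ} {Γ : Finset ℝ} (hB : B₆.Nonempty)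
    (h1 : ((B₆.filter (fun n => n - b ∉ B₆)).card : ℝ) ≤ e * B₆.card)
    (h2 : ((B₆.filter (fun n => n + b ∉ B₆)).card : ℝ) ≤ e * B₆.card)
    (hΓ : Γ.card ≤ m) (hb : ∀ c ∈ Γ, nn (c * b) ≤ ρ') (hρ : 0 ≤ ρ')
    (σ : ℝ → ℤ) (hσ : ∀ c ∈ Γ, σ c = -1 ∨ σ c = 0 ∨ σ c = 1) (hX : 0 < X)
    (hl : X ≤ ‖ahat B₆ (γ + ∑ c ∈ Γ, (σ c : ℝ) * c)‖) :
    ‖ee (γ * b) - 1‖ ≤ 2 * e / X + 2 * Real.pi * (m * ρ') := by
  set ψ := γ + ∑ c ∈ Γ, (σ c : ℝ) * c with hψ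
  have k1 := A2_ahat_shift (ψ := ψ) hB h1 h2
  have k2 : ‖ee (ψ * b) - 1‖ ≤ 2 * e / X := by
    rw [le_div_iff₀ hX]
    refine le_trans (mul_le_mul_of_nonneg_left hl (norm_nonneg _)) k1
  have k3 : γ * b = ψ * b + (-(∑ c ∈ Γ, (σ c : ℝ) * c) * b) := by rw [hψ]; ring
  rw [k3]
  refine (A2_ee_sub_one_add _ _).trans (add_le_add k2 ?_)
  refine (norm_ee_sub_one_le _).trans ?_
  apply mul_le_mul_of_nonneg_left _ (by positivity)
  rw [neg_mul, nn_neg, Finset.sum_mul]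
  refine (A2_nn_sum Γ (fun c => (σ c : ℝ) * c * b)).trans ?_
  have k4 : ∀ c ∈ Γ, nn ((σ c : ℝ) * c * b) ≤ ρ' := by
    intro c hc
    rcases hσ c hc with h | h | h
    · rw [h]; push_cast; rw [neg_one_mul, neg_mul, nn_neg]; exact hb c hc
    · rw [h]; push_cast; rw [zero_mul, zero_mul, nn_zero]; exact hρ
    · rw [h]; push_cast; rw [one_mul]; exact hb c hc
  refine (Finset.sum_le_sum k4).trans ?_
  rw [Finset.sum_const, nsmul_eq_mul]
  exact mul_le_mul_of_nonneg_right (by exact_mod_cast hΓ) hρ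

lemma A2_ahat_sub_one {B : Finset ℤ} {γ s : ℝ} (hB : B.Nonempty) (h : ∀ b ∈ B, ‖ee (γ * b) - 1‖ ≤ s) :
    ‖ahat B γ - 1‖ ≤ s := by
  have hc : (0 : ℝ) < B.card := by exact_mod_cast hB.card_pos
  have hc' : (B.card : ℂ) ≠ 0 := by exact_mod_cast hB.card_pos.ne'
  have e1 : ahat B γ - 1 = (∑ b ∈ B, (ee (γ * b) - 1)) / (B.card : ℂ) := by
    unfold ahat
    rw [Finset.sum_sub_distrib, Finset.sum_const, nsmul_eq_mul, mul_one, sub_div, div_self hc']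
  rw [e1, norm_div, Complex.norm_natCast, div_le_iff₀ hc]
  refine (norm_sum_le _ _).trans ((Finset.sum_le_sum h).trans ?_)
  rw [Finset.sum_const, nsmul_eq_mul, mul_comm]

lemma A2_ahat_le_one {B : Finset ℤ} (γ : ℝ) (hB : B.Nonempty) : ‖ahat B γ‖ ≤ 1 := by
  have hc : (0 : ℝ) < B.card := by exact_mod_cast hB.card_pos
  unfold ahat
  rw [norm_div, Complex.norm_natCast, div_le_iff₀ hc]
  refine (norm_sum_le _ _).trans ?_
  simp [norm_ee]

lemma A2_TTl_nonempty {T : Finset ℤ} (hT : T.Nonempty) (l : ℕ) : (TTl T l).Nonempty := by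
  obtain ⟨t, ht⟩ := hT
  refine ⟨fun _ => (t, t), ?_⟩
  unfold TTl
  rw [Fintype.mem_piFinset]
  intro j
  simp [ht]

/-- average to pointwise -/
lemma A2_pick (S A₁ A₂ T B : Finset ℤ) (l : ℕ) (hA1 : A₁.Nonempty) (hA2 : A₂.Nonempty)
    (hT : T.Nonempty) (hB : B.Nonempty) (c : ℝ)
    (h : c ≤ (∑ b ∈ B, EE S A₁ A₂ T l b) / (B.card : ℝ)) :
    ∃ w : ℤ, c * (B.card : ℝ) ≤ ((B.filter (fun b => w - b ∈ S)).card : ℝ) := by
  by_contra hcon
  push Not at hcon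
  have hcB : (0 : ℝ) < B.card := by exact_mod_cast hB.card_pos
  have hc1 : (0 : ℝ) < A₁.card := by exact_mod_cast hA1.card_pos
  have hc2 : (0 : ℝ) < A₂.card := by exact_mod_cast hA2.card_pos
  have hcT : (0 : ℝ) < (TTl T l).card := by exact_mod_cast (A2_TTl_nonempty hT l).card_pos
  rw [le_div_iff₀ hcB] at h
  have e1 : ∑ b ∈ B, EE S A₁ A₂ T l b =
      (∑ a ∈ A₁, ∑ x ∈ A₂, ∑ q ∈ TTl T l, ((B.filter (fun b => (a - x - vsum q) - b ∈ S)).card : ℝ)) /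
        ((A₁.card : ℝ) * A₂.card * (TTl T l).card) := by
    unfold EE
    rw [← Finset.sum_div]
    congr 1
    rw [Finset.sum_comm]
    apply Finset.sum_congr rfl; intro a _
    rw [Finset.sum_comm]
    apply Finset.sum_congr rfl; intro x _
    rw [Finset.sum_comm]
    apply Finset.sum_congr rfl; intro q _
    rw [Finset.sum_boole]
  have e2 : ∑ a ∈ A₁, ∑ x ∈ A₂, ∑ q ∈ TTl T l, ((B.filter (fun b => (a - x - vsum q) - b ∈ S)).card : ℝ) <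
      ∑ a ∈ A₁, ∑ x ∈ A₂, ∑ q ∈ TTl T l, (c * (B.card : ℝ)) := by
    apply Finset.sum_lt_sum_of_nonempty hA1; intro a _
    apply Finset.sum_lt_sum_of_nonempty hA2; intro x _
    apply Finset.sum_lt_sum_of_nonempty (A2_TTl_nonempty hT l); intro q _
    exact hcon _
  rw [e1, le_div_iff₀ (by positivity)] at h
  simp only [Finset.sum_const, nsmul_eq_mul] at e2
  nlinarith

/-- the value at `b = 0` -/
lemma A2_EE0 (S A₁ A₂ T : Finset ℤ) (l : ℕ) (hA1 : A₁.Nonempty) (hA2 : A₂.Nonempty)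
    (hT : T.Nonempty) (δ e : ℝ)
    (h0 : (1 - δ) * ((A₁.card : ℝ) * A₂.card) ≤ ∑ a ∈ A₁, ∑ x ∈ A₂, (if a - x ∈ S then (1 : ℝ) else 0))
    (hw : ∀ q ∈ TTl T l, ∑ x ∈ A₂, |Phi A₁ S (x + vsum q) - Phi A₁ S x| ≤ e * A₂.card) :
    1 - δ - e ≤ EE S A₁ A₂ T l 0 := by
  have hc1 : (0 : ℝ) < A₁.card := by exact_mod_cast hA1.card_pos
  have hc2 : (0 : ℝ) < A₂.card := by exact_mod_cast hA2.card_pos
  have hcT : (0 : ℝ) < (TTl T l).card := by exact_mod_cast (A2_TTl_nonempty hT l).card_pos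
  unfold EE
  rw [le_div_iff₀ (by positivity)]
  have e0 : (1 - δ) * (A₂.card : ℝ) ≤ ∑ x ∈ A₂, Phi A₁ S x := by
    rw [Finset.sum_comm] at h0
    have : ∑ x ∈ A₂, ∑ a ∈ A₁, (if a - x ∈ S then (1 : ℝ) else 0) = A₁.card * ∑ x ∈ A₂, Phi A₁ S x := by
      rw [Finset.mul_sum]
      exact Finset.sum_congr rfl (fun x _ => A2_Phi_eq hA1 x)
    rw [this] at h0
    have h1 : (A₁.card : ℝ) * ((1 - δ) * A₂.card) ≤ A₁.card * ∑ x ∈ A₂, Phi A₁ S x := by linarith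
    exact le_of_mul_le_mul_left h1 hc1
  have e1 : ∀ q ∈ TTl T l, (1 - δ - e) * (A₂.card : ℝ) ≤ ∑ x ∈ A₂, Phi A₁ S (x + vsum q) := by
    intro q hq
    have h1 : ∑ x ∈ A₂, Phi A₁ S x - ∑ x ∈ A₂, Phi A₁ S (x + vsum q) ≤ e * A₂.card := by
      rw [← Finset.sum_sub_distrib]
      refine le_trans (Finset.sum_le_sum (fun x _ => ?_)) (hw q hq)
      rw [abs_sub_comm]; exact le_abs_self _
    linarith
  have e2 : ∑ a ∈ A₁, ∑ x ∈ A₂, ∑ q ∈ TTl T l, (if a - x - vsum q - 0 ∈ S then (1 : ℝ) else 0) =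
      ∑ q ∈ TTl T l, (A₁.card : ℝ) * ∑ x ∈ A₂, Phi A₁ S (x + vsum q) := by
    have : ∀ a ∈ A₁, ∑ x ∈ A₂, ∑ q ∈ TTl T l, (if a - x - vsum q - 0 ∈ S then (1 : ℝ) else 0) =
        ∑ q ∈ TTl T l, ∑ x ∈ A₂, (if a - (x + vsum q) ∈ S then (1 : ℝ) else 0) := by
      intro a _
      rw [Finset.sum_comm]
      apply Finset.sum_congr rfl; intro q _
      apply Finset.sum_congr rfl; intro x _
      rw [sub_zero, sub_sub]
    rw [Finset.sum_congr rfl this, Finset.sum_comm]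
    apply Finset.sum_congr rfl; intro q _
    rw [Finset.sum_comm, Finset.mul_sum]
    exact Finset.sum_congr rfl (fun x _ => A2_Phi_eq hA1 _)
  rw [e2]
  calc (1 - δ - e) * ((A₁.card : ℝ) * A₂.card * (TTl T l).card)
      = ∑ q ∈ TTl T l, (A₁.card : ℝ) * ((1 - δ - e) * (A₂.card : ℝ)) := by
        rw [Finset.sum_const, nsmul_eq_mul]; ring
    _ ≤ _ := Finset.sum_le_sum (fun q hq => mul_le_mul_of_nonneg_left (e1 q hq) hc1.le)

set_option maxHeartbeats 1000000 in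
theorem p_A2 (hshift : S_shift) (hchang : S_chang) (hcs : S_cs) (hwalk : S_walk) (hfour : S_four) : S_A2 := by
  intro N Θ ρ₄ ρ₅ ρ₆ τ δ A₁ A₂ S hN hρ6 h65 h54 hτ hτ' hδ hδ' hB4 hB5 hreg hA1 hA2 hc1 hc2 hS
  classical
  have hl1 := A2_pl_pos hτ hτ' hδ hδ'
  have hlR : (1:ℝ) ≤ pl τ δ := by exact_mod_cast hl1
  have hdpos := A2_pd_pos hτ hτ' hδ hδ'
  have hdle := A2_pd_le hτ hτ' hδ hδ'
  have hk1 := A2_pk_pos hτ hτ' hδ hδ'
  have hexpk := A2_exp_pk hτ hτ' hδ hδ'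
  have hptpos := A2_pt_pos (δ := δ) hτ
  have hptle := A2_pt_le (δ := δ) hτ hτ'
  have hepos := A2_pe_pos hτ hδ
  have hele := A2_pe_le hτ hτ' hδ hδ'
  have hρ5 : 0 < ρ₅ := lt_of_lt_of_le hρ6 h65
  have hρ4 : 0 < ρ₄ := lt_of_lt_of_le hρ5 h54
  set l := pl τ δ with hl
  set d := pd τ δ with hd
  set k := pk τ δ with hk
  set m := pm τ δ with hm
  set e := pe τ δ with he
  -- cardinalities
  have c4 : 0 < ((bohr N Θ ρ₄).card : ℝ) := bohr_card_pos hN.le hρ4.le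
  have c5 : 0 < ((bohr N Θ ρ₅).card : ℝ) := bohr_card_pos hN.le hρ5.le
  have c6 : 0 < ((bohr N Θ ρ₆).card : ℝ) := bohr_card_pos hN.le hρ6.le
  have cA1 : (0:ℝ) < A₁.card := lt_of_lt_of_le (by positivity) hc1
  have cA2 : (0:ℝ) < A₂.card := lt_of_lt_of_le (by positivity) hc2
  have nA1 : A₁.Nonempty := Finset.card_pos.1 (by exact_mod_cast cA1)
  have nA2 : A₂.Nonempty := Finset.card_pos.1 (by exact_mod_cast cA2)
  -- restricted S
  set Z := bohr N Θ (ρ₄ + ρ₅ + 2 * l * ρ₆ + ρ₆) with hZ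
  set S' := S.filter (fun n => n ∈ Z) with hS'
  have cS' : (S'.card : ℝ) ≤ 2 / τ * A₁.card := by
    have h1 : S'.card ≤ Z.card := Finset.card_le_card (by
      intro n hn; rw [hS', Finset.mem_filter] at hn; exact hn.2)
    have h1' : (S'.card : ℝ) ≤ Z.card := by exact_mod_cast h1
    refine h1'.trans (hB4.trans ?_)
    rw [div_mul_eq_mul_div, le_div_iff₀ hτ]
    nlinarith
  have hS0 : (1 - δ) * ((A₁.card : ℝ) * A₂.card) ≤
      ∑ a ∈ A₁, ∑ x ∈ A₂, (if a - x ∈ S' then (1 : ℝ) else 0) := by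
    refine hS.trans (le_of_eq ?_)
    apply Finset.sum_congr rfl; intro a ha
    apply Finset.sum_congr rfl; intro x hx
    have hz : a - x ∈ Z := by
      have := sub_mem_bohr (hA1 ha) (hA2 hx)
      refine bohr_mono hN.le ?_ this
      have : 0 ≤ 2 * (l:ℝ) * ρ₆ := by positivity
      linarith
    have : a - x ∈ S' ↔ a - x ∈ S := by
      rw [hS', Finset.mem_filter]; exact ⟨fun h => h.1, fun h => ⟨h, hz⟩⟩
    simp only [this]
  -- Croot-Sisask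
  obtain ⟨g, T, hTB, hTcard, hTg⟩ := hcs A₁ S' (bohr N Θ (ρ₅ + 2 * l * ρ₆)) (bohr N Θ ρ₆)
    (bohr N Θ (ρ₄ + ρ₆)) k d (2 / τ) (d * A₂.card) nA1 (bohr_nonempty hN.le hρ6.le)
    (fun a ha t ht => add_mem_bohr (hA1 ha) ht)
    (by
      have h1 : (bohr N Θ (ρ₄ + ρ₆)).card ≤ Z.card := Finset.card_le_card (bohr_mono hN.le (by
        have : 0 ≤ 2 * (l:ℝ) * ρ₆ := by positivity
        linarith))
      have h1' : ((bohr N Θ (ρ₄ + ρ₆)).card : ℝ) ≤ Z.card := by exact_mod_cast h1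
      refine h1'.trans (hB4.trans ?_)
      rw [div_mul_eq_mul_div, le_div_iff₀ hτ]
      nlinarith)
    hk1 hdpos (by linarith) (by positivity)
    (by
      have h1 : 4 * Real.exp (-((k : ℝ) * d ^ 2 / 4)) ≤ τ * d / 2 := by linarith
      have h2 : 4 * Real.exp (-((k : ℝ) * d ^ 2 / 4)) * ((bohr N Θ (ρ₅ + 2 * l * ρ₆)).card : ℝ) ≤
          τ * d / 2 * (2 * ((bohr N Θ ρ₅).card : ℝ)) :=
        mul_le_mul h1 hB5 (Nat.cast_nonneg _) (by positivity)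
      refine h2.trans ?_
      have h3 := mul_le_mul_of_nonneg_left hc2 hdpos.le
      linarith)
  have hTpt : pt τ δ * ((bohr N Θ ρ₆).card : ℝ) ≤ T.card := by
    have h1 := mul_le_mul_of_nonneg_left hTcard hptpos.le
    refine h1.trans (le_of_eq ?_)
    have h2 : pt τ δ * (2 * (2 / τ) ^ k) = 1 := by
      unfold pt
      rw [← hk]
      have : (1 / 2 : ℝ) * (τ / 2) ^ k * (2 * (2 / τ) ^ k) = ((τ / 2) * (2 / τ)) ^ k := by
        rw [mul_pow]; ring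
      rw [this]
      have : τ / 2 * (2 / τ) = 1 := by field_simp
      rw [this, one_pow]
    calc pt τ δ * (2 * (2 / τ) ^ k * (T.card : ℝ)) = (pt τ δ * (2 * (2 / τ) ^ k)) * T.card := by ring
      _ = T.card := by rw [h2, one_mul]
  have cT : (0:ℝ) < T.card := lt_of_lt_of_le (by positivity) hTpt
  have nT : T.Nonempty := Finset.card_pos.1 (by exact_mod_cast cT)
  -- walk
  have hw := hwalk (Phi A₁ S') g T A₂ (bohr N Θ (ρ₅ + 2 * l * ρ₆)) l d (d * A₂.card)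
    (fun x => ⟨A2_Phi_nonneg _ _ _, A2_Phi_le _ _ _⟩) hdpos.le (by positivity)
    (by
      intro x hx j hj q hq
      have h1 := add_mem_bohr (hA2 hx) (A2_vsum_mem hN.le hTB hq)
      refine bohr_mono hN.le ?_ h1
      have h2 : (j:ℝ) ≤ l := by exact_mod_cast hj
      nlinarith)
    hTg
  have hw' : ∀ q ∈ TTl T l, ∑ x ∈ A₂, |Phi A₁ S' (x + vsum q) - Phi A₁ S' x| ≤ (δ / 2) * A₂.card := by
    intro q hq
    refine (hw q hq).trans (le_of_eq ?_)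
    have h1 : (l:ℝ) * d = δ / 8 := by
      rw [hd]; unfold pd; rw [← hl]; field_simp
    calc (l:ℝ) * (2 * d * A₂.card + 2 * (d * A₂.card)) = 4 * ((l:ℝ) * d) * A₂.card := by ring
      _ = δ / 2 * A₂.card := by rw [h1]; ring
  have hE0 := A2_EE0 S' A₁ A₂ T l nA1 nA2 nT δ (δ / 2) hS0 hw'
  -- Chang
  obtain ⟨Γ, hΓm, hΓ⟩ := hchang T (bohr N Θ ρ₆) (pt τ δ) m hTB nT hptpos hptle hTpt (by
    rw [hm]; exact Nat.le_ceil _)
  refine ⟨Γ, hΓm, ?_⟩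
  intro N' ρ' hN' hNN hρ' hρ1 hρ2
  set B := bohr N' (Θ ∪ Γ) ρ' with hB
  have nB : B.Nonempty := bohr_nonempty hN'.le hρ'.le
  have hBsub : ∀ b ∈ B, b ∈ bohr N Θ (kap Θ.card e * ρ₆) := by
    intro b hb
    have h1 : b ∈ bohr N' Θ ρ' := bohr_anti Finset.subset_union_left hb
    have h2 : b ∈ bohr N Θ ρ' := bohr_mono_N hρ'.le hNN h1
    exact bohr_mono hN.le hρ1 h2
  have hBΓ : ∀ b ∈ B, ∀ c ∈ Γ, nn (c * b) ≤ ρ' := by
    intro b hb c hc
    exact (mem_bohr.1 hb).2 c (Finset.mem_union_right _ hc)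
  have hm0 : (0:ℝ) ≤ m := Nat.cast_nonneg _
  have hX : 0 < Real.exp (-((m:ℝ) + 1)) := Real.exp_pos _
  have hee : ∀ γ : ℝ, 1 / 2 ≤ ‖ahat T γ‖ → ∀ b ∈ B, ‖ee (γ * b) - 1‖ ≤ δ * τ / 4 := by
    intro γ hγ b hb
    obtain ⟨σ, hσ, hσX⟩ := hΓ γ hγ
    obtain ⟨s1, s2⟩ := hshift N Θ ρ₆ e b hN hρ6 hepos hele hreg (hBsub b hb)
    have h1 := A2_large (γ := γ) (X := Real.exp (-((m:ℝ) + 1))) (bohr_nonempty hN.le hρ6.le) s1 s2 hΓm
      (hBΓ b hb) hρ'.le σ hσ hX hσX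
    refine h1.trans ?_
    have h2 : 2 * e / Real.exp (-((m:ℝ) + 1)) = δ * τ / 8 := by
      rw [he]; unfold pe; rw [← hm]; field_simp; ring
    rw [h2]
    have h3 : (m:ℝ) * ρ' ≤ δ * τ / 64 := by
      have h4 : (m:ℝ) * ρ' ≤ m * (δ * τ / (64 * ((m:ℝ) + 1))) := mul_le_mul_of_nonneg_left hρ2 hm0
      refine h4.trans ?_
      rw [← mul_div_assoc, div_le_div_iff₀ (by positivity) (by norm_num)]
      have : 0 ≤ δ * τ := by positivity
      nlinarith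
    have h5 : 2 * Real.pi * ((m:ℝ) * ρ') ≤ 2 * 4 * (δ * τ / 64) := by
      have hpi : Real.pi ≤ 4 := Real.pi_le_four
      have : 0 ≤ (m:ℝ) * ρ' := by positivity
      have := Real.pi_pos
      nlinarith
    linarith
  have hfb : ∀ γ : ℝ, ‖ahat T γ‖ ^ (2 * l) * ‖ahat B γ - 1‖ ≤ δ * τ / 4 := by
    intro γ
    by_cases hγ : 1 / 2 ≤ ‖ahat T γ‖
    · have h1 := A2_ahat_sub_one nB (hee γ hγ)
      have h2 : ‖ahat T γ‖ ^ (2 * l) ≤ 1 := pow_le_one₀ (norm_nonneg _) (A2_ahat_le_one γ nT)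
      calc _ ≤ 1 * (δ * τ / 4) := mul_le_mul h2 h1 (norm_nonneg _) (by norm_num)
        _ = _ := one_mul _
    · push Not at hγ
      have h1 : ‖ahat T γ‖ ^ (2 * l) ≤ Real.exp (-(l:ℝ)) := by
        rw [pow_mul]
        have h2 : ‖ahat T γ‖ ^ 2 ≤ Real.exp (-1) := by
          have h3 : ‖ahat T γ‖ ^ 2 ≤ 1 / 4 := by nlinarith [norm_nonneg (ahat T γ)]
          have h4 : (1/4 : ℝ) ≤ Real.exp (-1) := by
            rw [Real.exp_neg]
            have := Real.exp_one_lt_d9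
            rw [one_div]
            apply inv_anti₀ (Real.exp_pos 1)
            linarith
          exact h3.trans h4
        have h5 : Real.exp (-(l:ℝ)) = Real.exp (-1) ^ l := by
          rw [← Real.exp_nat_mul]; congr 1; ring
        rw [h5]
        exact pow_le_pow_left₀ (by positivity) h2 l
      have h6 : ‖ahat B γ - 1‖ ≤ 2 := by
        refine (norm_sub_le _ _).trans ?_
        rw [norm_one]
        have := A2_ahat_le_one γ nB
        linarith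
      have h7 := A2_exp_pl hτ hδ
      calc ‖ahat T γ‖ ^ (2 * l) * ‖ahat B γ - 1‖ ≤ Real.exp (-(l:ℝ)) * 2 :=
            mul_le_mul h1 h6 (norm_nonneg _) (Real.exp_nonneg _)
        _ ≤ (τ * δ / 16) * 2 := by
            apply mul_le_mul_of_nonneg_right _ (by norm_num)
            rw [hl]; exact h7
        _ ≤ δ * τ / 4 := by
            have : 0 ≤ δ * τ := by positivity
            nlinarith
  have hF := hfour S' A₁ A₂ T B l (δ * τ / 4) nA1 nA2 nT nB hfb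
  have hsq : δ * τ / 4 * Real.sqrt ((S'.card : ℝ) / A₁.card) ≤ δ / 4 := by
    have h1 : (S'.card : ℝ) / A₁.card ≤ 2 / τ := by
      rw [div_le_iff₀ cA1]; exact cS'
    have h2 : Real.sqrt ((S'.card : ℝ) / A₁.card) ≤ Real.sqrt (2 / τ) := Real.sqrt_le_sqrt h1
    have h3 : τ * Real.sqrt (2 / τ) ≤ 1 := by
      have h4 : τ * Real.sqrt (2 / τ) = Real.sqrt (2 * τ) := by
        rw [show (2 * τ) = τ ^ 2 * (2 / τ) by field_simp]
        rw [Real.sqrt_mul (sq_nonneg τ), Real.sqrt_sq hτ.le]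
      rw [h4]
      apply Real.sqrt_le_one.2
      linarith
    have h5 : τ * Real.sqrt ((S'.card : ℝ) / A₁.card) ≤ 1 :=
      (mul_le_mul_of_nonneg_left h2 hτ.le).trans h3
    nlinarith
  have hfin : 1 - 2 * δ ≤ (∑ b ∈ B, EE S' A₁ A₂ T l b) / (B.card : ℝ) := by
    have h1 := (abs_le.1 (hF.trans hsq)).1
    linarith
  obtain ⟨w, hw⟩ := A2_pick S' A₁ A₂ T B l nA1 nA2 nT nB _ hfin
  refine ⟨w, hw.trans ?_⟩
  have : (B.filter (fun b => w - b ∈ S')).card ≤ (B.filter (fun b => w + b ∈ S)).card := by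
    apply Finset.card_le_card_of_injOn (fun b => -b)
    · intro b hb
      have hb' := Finset.mem_filter.1 hb
      apply Finset.mem_filter.2
      refine ⟨neg_mem_bohr hb'.1, ?_⟩
      have h1 : w - b ∈ S' := hb'.2
      rw [hS', Finset.mem_filter] at h1
      show w + -b ∈ S
      rw [← sub_eq_add_neg]; exact h1.1
    · intro a _ b _ hab
      exact neg_injective hab
  exact_mod_cast this

end Pool.Agent.APP
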