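import Pool.Agent.Lib.MP_8a4e59_co.A.StmA

set_option autoImplicit false

/-! MP_8a4e59_co, part A: the Fourier step. -/

namespace Pool.Agent.APP

open Finset

/-- sum of exponentials over a finite set -/
noncomputable def four_E (S : Finset ℤ) (g : ℝ) : ℂ := ∑ n ∈ S, ee (g * n)

lemma four_ee_eq_one {x : ℝ} (h : ee x = 1) : ∃ k : ℤ, x = k := by
  rw [ee, Complex.exp_eq_one_iff] at h
  obtain ⟨k, hk⟩ := h
  refine ⟨k, ?_⟩
  have h1 : ((2 * Real.pi * x : ℝ) : ℂ) = ((k * (2 * Real.pi) : ℝ) : ℂ) := by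
    have h2 : ((2 * Real.pi * x : ℝ) : ℂ) * Complex.I = ((k * (2 * Real.pi) : ℝ) : ℂ) * Complex.I := by
      rw [hk]; push_cast; ring
    exact mul_right_cancel₀ Complex.I_ne_zero h2
  have h3 : 2 * Real.pi * x = k * (2 * Real.pi) := by exact_mod_cast h1
  have h4 : (2 * Real.pi) * (x - k) = 0 := by linarith
  rcases mul_eq_zero.1 h4 with h5 | h5
  · exact absurd h5 (by positivity)
  · linarith

/-- orthogonality -/
lemma four_orth {M : ℕ} (hM : 0 < M) {n : ℤ} (hn : |n| < M) :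
    ∑ j ∈ range M, ee ((j : ℝ) / M * n) = if n = 0 then (M : ℂ) else 0 := by
  have hM' : (M : ℝ) ≠ 0 := by exact_mod_cast hM.ne'
  by_cases h0 : n = 0
  · subst h0
    simp [ee_zero]
  · rw [if_neg h0]
    have hpow : ∀ j : ℕ, ee ((j : ℝ) / M * n) = ee ((n : ℝ) / M) ^ j := by
      intro j
      rw [ee, ee, ← Complex.exp_nat_mul]
      congr 1
      push_cast
      ring
    simp only [hpow]
    have h1 : ee ((n : ℝ) / M) ≠ 1 := by
      intro h
      obtain ⟨k, hk⟩ := four_ee_eq_one h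
      rw [div_eq_iff hM'] at hk
      have h2 : n = k * M := by exact_mod_cast hk
      have hk0 : k ≠ 0 := by
        rintro rfl
        exact h0 (by simpa using h2)
      have h3 : (M : ℤ) ≤ |n| := by
        rw [h2, abs_mul, Nat.abs_cast]
        have : 1 ≤ |k| := Int.one_le_abs hk0
        nlinarith [Int.natCast_nonneg M]
      omega
    rw [geom_sum_eq h1, ← hpow, div_mul_eq_mul_div, mul_comm, mul_div_assoc, div_self hM', mul_one,
      ee_int, sub_self, zero_div]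

/-- Parseval -/
lemma four_parseval {M : ℕ} (hM : 0 < M) (S : Finset ℤ) (hS : ∀ a ∈ S, ∀ b ∈ S, |a - b| < M) :
    ∑ j ∈ range M, ‖four_E S ((j : ℝ) / M)‖ ^ 2 = (M : ℝ) * S.card := by
  have h1 : ∀ g : ℝ, ((‖four_E S g‖ ^ 2 : ℝ) : ℂ) = ∑ a ∈ S, ∑ b ∈ S, ee (g * ((a - b : ℤ) : ℝ)) := by
    intro g
    have h2 : ((‖four_E S g‖ ^ 2 : ℝ) : ℂ) = four_E S g * (starRingEnd ℂ) (four_E S g) := by
      rw [Complex.mul_conj, Complex.normSq_eq_norm_sq]
    rw [h2, four_E, map_sum, sum_mul_sum]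
    refine sum_congr rfl fun a _ => sum_congr rfl fun b _ => ?_
    rw [← ee_sub]
    congr 1
    push_cast
    ring
  have h2 : ((∑ j ∈ range M, ‖four_E S ((j : ℝ) / M)‖ ^ 2 : ℝ) : ℂ) = ((M : ℝ) * S.card : ℝ) := by
    rw [Complex.ofReal_sum]
    simp only [h1]
    rw [sum_comm]
    have h3 : ∀ a ∈ S, ∑ j ∈ range M, ∑ b ∈ S, ee ((j : ℝ) / M * ((a - b : ℤ) : ℝ)) = (M : ℂ) := by
      intro a ha
      rw [sum_comm]
      have h4 : ∀ b ∈ S, ∑ j ∈ range M, ee ((j : ℝ) / M * ((a - b : ℤ) : ℝ)) =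
          if b = a then (M : ℂ) else 0 := by
        intro b hb
        rw [four_orth hM (hS a ha b hb)]
        by_cases h : b = a
        · rw [if_pos h, if_pos (by rw [h]; ring)]
        · rw [if_neg h, if_neg (fun h' => h (by omega))]
      rw [sum_congr rfl h4, sum_ite_eq' S a, if_pos ha]
    rw [sum_congr rfl h3, sum_const, nsmul_eq_mul]
    push_cast
    ring
  exact_mod_cast h2

lemma four_norm_E_le (S : Finset ℤ) (g : ℝ) : ‖four_E S g‖ ≤ S.card := by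
  unfold four_E
  refine (norm_sum_le _ _).trans ?_
  simp [norm_ee]

/-- the walk factor -/
lemma four_walk (T : Finset ℤ) (l : ℕ) (g : ℝ) :
    ∑ q ∈ TTl T l, ee (g * (vsum q : ℝ)) = ((‖four_E T g‖ ^ 2 : ℝ) : ℂ) ^ l := by
  have h2 : ((‖four_E T g‖ ^ 2 : ℝ) : ℂ) = ∑ p ∈ T ×ˢ T, ee (g * ((p.1 - p.2 : ℤ) : ℝ)) := by
    have h3 : ((‖four_E T g‖ ^ 2 : ℝ) : ℂ) = four_E T g * (starRingEnd ℂ) (four_E T g) := by
      rw [Complex.mul_conj, Complex.normSq_eq_norm_sq]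
    rw [h3, four_E, map_sum, sum_mul_sum, sum_product]
    refine sum_congr rfl fun a _ => sum_congr rfl fun b _ => ?_
    rw [← ee_sub]
    congr 1
    push_cast
    ring
  have h4 : ((‖four_E T g‖ ^ 2 : ℝ) : ℂ) ^ l =
      ∏ _j : Fin l, ∑ p ∈ T ×ˢ T, ee (g * ((p.1 - p.2 : ℤ) : ℝ)) := by
    rw [← h2, prod_const, card_univ, Fintype.card_fin]
  rw [h4, prod_univ_sum]
  unfold TTl
  refine sum_congr rfl fun q _ => ?_
  rw [← ee_sum]
  congr 1
  unfold vsum
  push_cast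
  rw [mul_sum]

/-- the counting function -/
noncomputable def four_N (S A₁ A₂ T : Finset ℤ) (l : ℕ) (b : ℤ) : ℝ :=
  ∑ a ∈ A₁, ∑ x ∈ A₂, ∑ q ∈ TTl T l, (if a - x - vsum q - b ∈ S then (1 : ℝ) else 0)

lemma four_count {M : ℕ} (hM : 0 < M) (S A₁ A₂ T : Finset ℤ) (l : ℕ) (b : ℤ)
    (h : ∀ a ∈ A₁, ∀ x ∈ A₂, ∀ q ∈ TTl T l, ∀ s ∈ S, |a - x - vsum q - b - s| < M) :
    (M : ℂ) * (four_N S A₁ A₂ T l b : ℂ) = ∑ j ∈ range M,
      (four_E A₁ ((j : ℝ) / M) * (starRingEnd ℂ) (four_E A₂ ((j : ℝ) / M)) *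
        (starRingEnd ℂ) (∑ q ∈ TTl T l, ee ((j : ℝ) / M * (vsum q : ℝ))) *
        (starRingEnd ℂ) (four_E S ((j : ℝ) / M))) * (starRingEnd ℂ) (ee ((j : ℝ) / M * b)) := by
  have h1 : ∀ g : ℝ, (four_E A₁ g * (starRingEnd ℂ) (four_E A₂ g) *
        (starRingEnd ℂ) (∑ q ∈ TTl T l, ee (g * (vsum q : ℝ))) *
        (starRingEnd ℂ) (four_E S g)) * (starRingEnd ℂ) (ee (g * b)) =
      ∑ a ∈ A₁, ∑ x ∈ A₂, ∑ q ∈ TTl T l, ∑ s ∈ S,
        ee (g * ((a - x - vsum q - b - s : ℤ) : ℝ)) := by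
    intro g
    have hterm : ∀ (a x : ℤ) (q : Fin l → ℤ × ℤ) (s : ℤ),
        ee (g * ((a - x - vsum q - b - s : ℤ) : ℝ)) =
        ee (g * a) * ((starRingEnd ℂ) (ee (g * x)) * ((starRingEnd ℂ) (ee (g * (vsum q : ℝ))) *
          ((starRingEnd ℂ) (ee (g * s)) * (starRingEnd ℂ) (ee (g * b))))) := by
      intro a x q s
      have h2 : g * ((a - x - vsum q - b - s : ℤ) : ℝ) =
          g * a - g * x - g * (vsum q : ℝ) - g * s - g * b := by
        push_cast
        ring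
      rw [h2, ee_sub, ee_sub, ee_sub, ee_sub]
      ring
    simp only [hterm, ← mul_sum, ← sum_mul]
    unfold four_E
    simp only [map_sum]
    ring
  simp only [h1]
  rw [sum_comm (s := range M)]
  unfold four_N
  rw [Complex.ofReal_sum, mul_sum]
  refine sum_congr rfl fun a ha => ?_
  rw [sum_comm (s := range M), Complex.ofReal_sum, mul_sum]
  refine sum_congr rfl fun x hx => ?_
  rw [sum_comm (s := range M), Complex.ofReal_sum, mul_sum]
  refine sum_congr rfl fun q hq => ?_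
  rw [sum_comm (s := range M)]
  have h2 : ∀ s ∈ S, ∑ j ∈ range M, ee ((j : ℝ) / M * ((a - x - vsum q - b - s : ℤ) : ℝ)) =
      if s = a - x - vsum q - b then (M : ℂ) else 0 := by
    intro s hs
    rw [four_orth hM (h a ha x hx q hq s hs)]
    by_cases h3 : s = a - x - vsum q - b
    · rw [if_pos h3, if_pos (by rw [h3]; ring)]
    · rw [if_neg h3, if_neg (fun h' => h3 (by omega))]
  rw [sum_congr rfl h2, sum_ite_eq' S (a - x - vsum q - b)]
  by_cases h3 : a - x - vsum q - b ∈ S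
  · simp [h3]
  · simp [h3]

lemma four_card_TTl (T : Finset ℤ) (l : ℕ) : ((TTl T l).card : ℝ) = ((T.card : ℝ) ^ 2) ^ l := by
  unfold TTl
  rw [Fintype.card_piFinset]
  simp only [card_product, prod_const, card_univ, Fintype.card_fin]
  push_cast
  ring

lemma four_vsum_le {T : Finset ℤ} {H : ℕ} (hT : ∀ t ∈ T, |t| ≤ H) {l : ℕ} {q : Fin l → ℤ × ℤ}
    (hq : q ∈ TTl T l) : |vsum q| ≤ l * (2 * H) := by
  unfold vsum
  refine (abs_sum_le_sum_abs _ _).trans ?_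
  unfold TTl at hq
  rw [Fintype.mem_piFinset] at hq
  have h1 : ∀ j ∈ (univ : Finset (Fin l)), |(q j).1 - (q j).2| ≤ 2 * (H : ℤ) := by
    intro j _
    have h2 := mem_product.1 (hq j)
    have h3 := hT _ h2.1
    have h4 := hT _ h2.2
    have h5 := abs_sub (q j).1 (q j).2
    linarith
  refine (sum_le_sum h1).trans ?_
  simp

/-- The Fourier step. -/
theorem p_four : S_four := by
  intro S A₁ A₂ T B l s hA₁ hA₂ hT hB hs
  -- a bound for all elements
  obtain ⟨H, hH⟩ : ∃ H : ℕ, ∀ u ∈ S ∪ A₁ ∪ A₂ ∪ T ∪ B, |u| ≤ (H : ℤ) := by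
    refine ⟨(S ∪ A₁ ∪ A₂ ∪ T ∪ B).sup Int.natAbs, fun u hu => ?_⟩
    have h1 : u.natAbs ≤ (S ∪ A₁ ∪ A₂ ∪ T ∪ B).sup Int.natAbs := le_sup (f := Int.natAbs) hu
    rw [Int.abs_eq_natAbs]
    exact_mod_cast h1
  have hHS : ∀ u ∈ S, |u| ≤ (H : ℤ) := fun u hu => hH u (by simp [hu])
  have hHA₁ : ∀ u ∈ A₁, |u| ≤ (H : ℤ) := fun u hu => hH u (by simp [hu])
  have hHA₂ : ∀ u ∈ A₂, |u| ≤ (H : ℤ) := fun u hu => hH u (by simp [hu])
  have hHT : ∀ u ∈ T, |u| ≤ (H : ℤ) := fun u hu => hH u (by simp [hu])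
  have hHB : ∀ u ∈ B, |u| ≤ (H : ℤ) := fun u hu => hH u (by simp [hu])
  set M : ℕ := l * (2 * H) + 4 * H + 1 with hMdef
  have hM : 0 < M := by omega
  have hMc : (M : ℤ) = l * (2 * H) + 4 * H + 1 := by rw [hMdef]; push_cast; ring
  have hMR : (0 : ℝ) < M := by exact_mod_cast hM
  have hbound : ∀ b : ℤ, |b| ≤ (H : ℤ) → ∀ a ∈ A₁, ∀ x ∈ A₂, ∀ q ∈ TTl T l, ∀ s ∈ S,
      |a - x - vsum q - b - s| < (M : ℤ) := by
    intro b hb a ha x hx q hq s hs
    have h1 := hHA₁ a ha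
    have h2 := hHA₂ x hx
    have h3 := four_vsum_le hHT hq
    have h4 := hHS s hs
    rw [hMc]
    rw [abs_le] at h1 h2 h3 h4 hb
    rw [abs_lt]
    constructor <;> linarith
  have hdiff : ∀ U : Finset ℤ, (∀ u ∈ U, |u| ≤ (H : ℤ)) → ∀ a ∈ U, ∀ b ∈ U, |a - b| < (M : ℤ) := by
    intro U hU a ha b hb
    have h1 := hU a ha
    have h2 := hU b hb
    have h0 : (0 : ℤ) ≤ l * (2 * H) := by positivity
    rw [hMc]
    rw [abs_le] at h1 h2
    rw [abs_lt]
    constructor <;> linarith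
  have hc1 : (0 : ℝ) < A₁.card := by exact_mod_cast hA₁.card_pos
  have hc2 : (0 : ℝ) < A₂.card := by exact_mod_cast hA₂.card_pos
  have hcT : (0 : ℝ) < T.card := by exact_mod_cast hT.card_pos
  have hcB : (0 : ℝ) < B.card := by exact_mod_cast hB.card_pos
  have hcV : (0 : ℝ) < (TTl T l).card := by rw [four_card_TTl]; positivity
  have hs0 : 0 ≤ s := le_trans (by positivity) (hs 0)
  -- the product
  set P : ℕ → ℂ := fun j => four_E A₁ ((j : ℝ) / M) * (starRingEnd ℂ) (four_E A₂ ((j : ℝ) / M)) *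
        (starRingEnd ℂ) (∑ q ∈ TTl T l, ee ((j : ℝ) / M * (vsum q : ℝ))) *
        (starRingEnd ℂ) (four_E S ((j : ℝ) / M)) with hP
  set c : ℝ := (A₁.card : ℝ) * A₂.card * (TTl T l).card with hc
  have hc0 : 0 < c := by positivity
  have hEE : ∀ b : ℤ, EE S A₁ A₂ T l b = four_N S A₁ A₂ T l b / c := fun b => rfl
  have hN : ∀ b : ℤ, |b| ≤ (H : ℤ) → (M : ℂ) * (four_N S A₁ A₂ T l b : ℂ) =
      ∑ j ∈ range M, P j * (starRingEnd ℂ) (ee ((j : ℝ) / M * b)) := fun b hb =>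
    four_count hM S A₁ A₂ T l b (hbound b hb)
  set D : ℝ := (∑ b ∈ B, EE S A₁ A₂ T l b) / (B.card : ℝ) - EE S A₁ A₂ T l 0 with hD
  have hkey : ((M * c * D : ℝ) : ℂ) =
      ∑ j ∈ range M, P j * ((starRingEnd ℂ) (ahat B ((j : ℝ) / M)) - 1) := by
    have h1 : M * c * D = (∑ b ∈ B, (M : ℝ) * four_N S A₁ A₂ T l b) / B.card -
        M * four_N S A₁ A₂ T l 0 := by
      rw [hD]
      simp only [hEE]
      rw [← sum_div, ← mul_sum]
      field_simp
    rw [h1]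
    push_cast
    rw [sum_congr rfl (fun b hb => hN b (hHB b hb)), hN 0 (by simp), sum_comm, sum_div,
      ← sum_sub_distrib]
    refine sum_congr rfl fun j _ => ?_
    rw [← mul_sum]
    have h2 : (starRingEnd ℂ) (ahat B ((j : ℝ) / M)) =
        (∑ b ∈ B, (starRingEnd ℂ) (ee ((j : ℝ) / M * b))) / (B.card : ℂ) := by
      unfold ahat
      rw [map_div₀, map_sum, Complex.conj_natCast]
    rw [h2]
    simp only [Int.cast_zero, mul_zero, ee_zero, map_one, mul_one]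
    rw [mul_sub, mul_one, mul_div_assoc]
  -- the norm of the product
  have hPn : ∀ j ∈ range M, ‖P j * ((starRingEnd ℂ) (ahat B ((j : ℝ) / M)) - 1)‖ ≤
      s * (A₂.card * (TTl T l).card) *
        (‖four_E A₁ ((j : ℝ) / M)‖ * ‖four_E S ((j : ℝ) / M)‖) := by
    intro j _
    set g : ℝ := (j : ℝ) / M with hg
    have h1 : ‖(starRingEnd ℂ) (ahat B g) - 1‖ = ‖ahat B g - 1‖ := by
      rw [← Complex.norm_conj (ahat B g - 1), map_sub, map_one]
    have h2 : ‖∑ q ∈ TTl T l, ee (g * (vsum q : ℝ))‖ =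
        (TTl T l).card * ‖ahat T g‖ ^ (2 * l) := by
      rw [four_walk, norm_pow, Complex.norm_real, Real.norm_of_nonneg (by positivity),
        four_card_TTl]
      have h3 : ‖ahat T g‖ = ‖four_E T g‖ / T.card := by
        unfold ahat four_E
        rw [norm_div, Complex.norm_natCast]
      rw [h3, pow_mul, ← mul_pow]
      congr 1
      field_simp
    have h3 := hs g
    have h4 := four_norm_E_le A₂ g
    simp only [hP]
    rw [norm_mul, norm_mul, norm_mul, norm_mul, Complex.norm_conj, Complex.norm_conj,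
      Complex.norm_conj, h1, h2]
    calc ‖four_E A₁ g‖ * ‖four_E A₂ g‖ * ((TTl T l).card * ‖ahat T g‖ ^ (2 * l)) *
          ‖four_E S g‖ * ‖ahat B g - 1‖
        = (‖ahat T g‖ ^ (2 * l) * ‖ahat B g - 1‖) * (‖four_E A₂ g‖ * (TTl T l).card) *
          (‖four_E A₁ g‖ * ‖four_E S g‖) := by ring
      _ ≤ s * (A₂.card * (TTl T l).card) * (‖four_E A₁ g‖ * ‖four_E S g‖) := by gcongr
  have hsum : ∑ j ∈ range M, ‖four_E A₁ ((j : ℝ) / M)‖ * ‖four_E S ((j : ℝ) / M)‖ ≤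
      M * Real.sqrt ((A₁.card : ℝ) * S.card) := by
    have h1 := Real.sum_mul_le_sqrt_mul_sqrt (range M) (fun j => ‖four_E A₁ ((j : ℝ) / M)‖)
      (fun j => ‖four_E S ((j : ℝ) / M)‖)
    rw [four_parseval hM A₁ (hdiff A₁ hHA₁), four_parseval hM S (hdiff S hHS)] at h1
    refine h1.trans (le_of_eq ?_)
    rw [← Real.sqrt_mul (by positivity)]
    have h2 : (M : ℝ) * A₁.card * (M * S.card) = M ^ 2 * (A₁.card * S.card) := by ring
    rw [h2, Real.sqrt_mul (by positivity), Real.sqrt_sq hMR.le]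
  have hnorm : M * c * |D| ≤ s * (A₂.card * (TTl T l).card) *
      (M * Real.sqrt ((A₁.card : ℝ) * S.card)) := by
    have h1 : M * c * |D| = ‖((M * c * D : ℝ) : ℂ)‖ := by
      rw [Complex.norm_real, Real.norm_eq_abs, abs_mul, abs_of_pos (by positivity : 0 < M * c)]
    rw [h1, hkey]
    refine (norm_sum_le _ _).trans ((sum_le_sum hPn).trans ?_)
    rw [← mul_sum]
    gcongr
  have hfin : (A₁.card : ℝ) * |D| ≤ s * Real.sqrt ((A₁.card : ℝ) * S.card) := by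
    have h1 : (M * (A₂.card * (TTl T l).card) : ℝ) * ((A₁.card : ℝ) * |D|) ≤
        (M * (A₂.card * (TTl T l).card) : ℝ) * (s * Real.sqrt ((A₁.card : ℝ) * S.card)) := by
      calc (M * (A₂.card * (TTl T l).card) : ℝ) * ((A₁.card : ℝ) * |D|) = M * c * |D| := by
            rw [hc]; ring
        _ ≤ _ := hnorm
        _ = _ := by ring
    exact le_of_mul_le_mul_left h1 (by positivity)
  have hsq : Real.sqrt ((A₁.card : ℝ) * S.card) = A₁.card * Real.sqrt ((S.card : ℝ) / A₁.card) := by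
    have h1 : (A₁.card : ℝ) * S.card = (A₁.card : ℝ) ^ 2 * (S.card / A₁.card) := by
      field_simp
    rw [h1, Real.sqrt_mul (by positivity), Real.sqrt_sq hc1.le]
  rw [hsq] at hfin
  have h1 : (A₁.card : ℝ) * |D| ≤ A₁.card * (s * Real.sqrt ((S.card : ℝ) / A₁.card)) := by
    calc (A₁.card : ℝ) * |D| ≤ _ := hfin
      _ = _ := by ring
  exact le_of_mul_le_mul_left h1 hc1

end Pool.Agent.APP
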