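import Pool.Agent.Lib.MP_8a4e59_co.A.StmB

set_option autoImplicit false

/-! Part A, piece pm: power means with integer exponents (helper44). -/

namespace Pool.Agent.APP

open Finset

/-- Bernoulli: `y ^ q ≥ 1 + (q / p) (y ^ p - 1)`. -/
private lemma pm_bern {y : ℝ} (hy : 0 ≤ y) {p q : ℕ} (hp : 1 ≤ p) (hpq : p ≤ q) :
    1 + (q : ℝ) / p * (y ^ p - 1) ≤ y ^ q := by
  have hp0 : (0 : ℝ) < p := by exact_mod_cast hp
  have hr : 1 ≤ (q : ℝ) / p := by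
    rw [le_div_iff₀ hp0, one_mul]
    exact_mod_cast hpq
  have h1 := one_add_mul_self_le_rpow_one_add (s := y ^ p - 1)
    (by have := pow_nonneg hy p; linarith) hr
  have h2 : (1 + (y ^ p - 1)) ^ ((q : ℝ) / p) = y ^ q := by
    rw [add_sub_cancel, ← Real.rpow_natCast_mul hy, mul_div_cancel₀ _ hp0.ne', Real.rpow_natCast]
  rw [h2] at h1
  exact h1

/-- summed form, normalised by `K` -/
private lemma pm_sum {ι : Type} (Ω : Finset ι) (Y : ι → ℝ) (K : ℝ) {p q : ℕ}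
    (hY : ∀ i ∈ Ω, 0 ≤ Y i) (hK : 0 < K) (hp : 1 ≤ p) (hpq : p ≤ q) :
    (Ω.card : ℝ) + (q : ℝ) / p * ((∑ i ∈ Ω, Y i ^ p) / K ^ p - Ω.card) ≤
      (∑ i ∈ Ω, Y i ^ q) / K ^ q := by
  have h1 : ∑ i ∈ Ω, (1 + (q : ℝ) / p * ((Y i / K) ^ p - 1)) ≤ ∑ i ∈ Ω, (Y i / K) ^ q :=
    Finset.sum_le_sum fun i hi => pm_bern (div_nonneg (hY i hi) hK.le) hp hpq
  rw [Finset.sum_add_distrib, ← Finset.mul_sum, Finset.sum_sub_distrib, Finset.sum_const,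
    nsmul_eq_mul, mul_one] at h1
  simp only [div_pow] at h1
  rw [← Finset.sum_div, ← Finset.sum_div] at h1
  exact h1

theorem pm_one : S_pm := by
  intro ι Ω Y K p q hY hK hp hpq h
  have h1 := pm_sum Ω Y K hY hK hp hpq
  have hKq : 0 < K ^ q := pow_pos hK q
  have hKp : 0 < K ^ p := pow_pos hK p
  have h2 : (∑ i ∈ Ω, Y i ^ q) / K ^ q ≤ Ω.card := by
    rw [div_le_iff₀ hKq, mul_comm]
    exact h
  have hp0 : (0 : ℝ) < p := by exact_mod_cast hp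
  have hq0 : (0 : ℝ) < q := by exact_mod_cast hp.trans hpq
  have hr : 0 < (q : ℝ) / p := div_pos hq0 hp0
  have h3 : (q : ℝ) / p * ((∑ i ∈ Ω, Y i ^ p) / K ^ p - Ω.card) ≤ 0 := by linarith
  have h4 : (∑ i ∈ Ω, Y i ^ p) / K ^ p - Ω.card ≤ 0 := by
    by_contra hlt
    push Not at hlt
    have := mul_pos hr hlt
    linarith
  have h5 : (∑ i ∈ Ω, Y i ^ p) / K ^ p ≤ Ω.card := by linarith
  rwa [div_le_iff₀ hKp, mul_comm] at h5

theorem pm_two : S_pm2 := by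
  intro ι Ω Y K p q hY hK hp hpq h
  have h1 := pm_sum Ω Y K hY hK hp hpq
  have hKq : 0 < K ^ q := pow_pos hK q
  have hKp : 0 < K ^ p := pow_pos hK p
  have h2 : (Ω.card : ℝ) ≤ (∑ i ∈ Ω, Y i ^ p) / K ^ p := by
    rw [le_div_iff₀ hKp, mul_comm]
    exact h
  have h3 : 0 ≤ (q : ℝ) / p * ((∑ i ∈ Ω, Y i ^ p) / K ^ p - Ω.card) :=
    mul_nonneg (by positivity) (by linarith)
  have h5 : (Ω.card : ℝ) ≤ (∑ i ∈ Ω, Y i ^ q) / K ^ q := by linarith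
  rwa [le_div_iff₀ hKq, mul_comm] at h5

theorem p_pm : S_pm ∧ S_pm2 := ⟨pm_one, pm_two⟩

end Pool.Agent.APP
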